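import Pool.Agent.H17BP.Model
import Pool.Agent.H36.BP.OrdDefs

/-!
# BPL Brody2: hyperbolicity with respect to entire curves of order at most two
-/

set_option autoImplicit false

noncomputable section

namespace Pool.Agent.H36.BPL

open Pool.Agent.H17BP (Pr HolP Brody)
open Pool.Agent.H36.BP (OrdTwo)

variable {V : Type} [NormedAddCommGroup V] [NormedSpace ℂ V]

/-- Every entire curve of order at most two in the projective set with the cone `X` which is not a map into `B` is constant. -/
def Brody2 (X B : Set V) : Prop :=
  ∀ f : ℂ → V, (∀ z, HolP f z) → (∀ z, f z ∈ X) → OrdTwo f → (∃ z, f z ∉ B) → ∀ z w, Pr (f z) (f w)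

theorem brody2_of_brody {X B : Set V} (h : Brody X B) : Brody2 X B := fun f h1 h2 _ h4 => h f h1 h2 h4

end Pool.Agent.H36.BPL
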