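import Pool.Agent.H36.BPL.Final
import Pool.Agent.H14.KB.KobBrody
import Pool.Agent.H17R.Brody

/-!
# BPL Main: the equivalence of the hyperbolicity properties for surfaces of log general type
-/

set_option autoImplicit false

open Topology Filter MvPolynomial

noncomputable section

namespace Pool.Agent.H36.BPL

open Pool.Agent.H17 (PN VanishesAt ZariskiClosedIn HolomorphicInto puncturedDisc PseudoBrodyHyperbolic
  PseudoPicardHyperbolic)
open Pool.Agent.H62.FC (Homog)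
open Pool.Agent.H17R (openVar)
open Pool.Agent.H17LG.Variety (FunField OnBoundary IsLogGeneralType)
open Pool.Agent.H13.SM (conTan)
open Pool.Agent.H13.OT (OrderTwo PseudoBrodyOrderTwo)
open Pool.Agent.H14.KB (PseudoKobayashiHyperbolic)

variable {N : ℕ} {P : Ideal (MvPolynomial (Fin (N + 1)) ℂ)}

theorem orderTwo_of_brody {X : Set (PN N)} (h : PseudoBrodyHyperbolic X) : PseudoBrodyOrderTwo X := by
  obtain ⟨Ξ, h1, h2, h3⟩ := h
  exact ⟨Ξ, h1, h2, fun f hf _ hfX hne => h3 f hf hfX hne⟩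

theorem brody_of_picard {X : Set (PN N)} (h : PseudoPicardHyperbolic X) : PseudoBrodyHyperbolic X := by
  obtain ⟨Ξ, h1, h2, h3⟩ := h
  exact ⟨Ξ, h1, h2, fun f hf hfX hne z => Pool.Agent.H17R.brody_of_picard h1 h3 hf hfX hne z⟩

/-- **The equivalence of the hyperbolicity properties** of the complement of a hypersurface section (which may be empty) in a smooth projective
surface, of log general type. -/
theorem tfae_open_surface [P.IsPrime] (hP : Homog P) {z : Fin 2 → FunField P} (hz : IsTranscendenceBasis ℂ z)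
    (hsm : ∀ y : Fin (N + 1) → ℂ, y ≠ 0 → (∀ Q ∈ P, eval y Q = 0) → Module.finrank ℂ (conTan P y) ≤ 3)
    {e : ℕ} {H₀ : MvPolynomial (Fin (N + 1)) ℂ} (hH₀ : H₀.IsHomogeneous e) (hH₀P : H₀ ∉ P)
    (hgt : IsLogGeneralType (K := FunField P) (k := 2) (OnBoundary P fun _ : Fin 1 => H₀)) :
    List.TFAE [PseudoBrodyOrderTwo (openVar P fun _ : Fin 1 => H₀), PseudoBrodyHyperbolic (openVar P fun _ : Fin 1 => H₀),
      PseudoPicardHyperbolic (openVar P fun _ : Fin 1 => H₀), PseudoKobayashiHyperbolic (openVar P fun _ : Fin 1 => H₀)] := by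
  tfae_have 2 → 1 := orderTwo_of_brody
  tfae_have 3 → 2 := brody_of_picard
  tfae_have 4 → 2 := Pool.Agent.H14.KB.pseudoBrody_of_kobayashi
  tfae_have 1 → 4 := by
    rintro ⟨Ξ, hΞ, hne, hbr⟩
    obtain ⟨Q, D, hQ, hex, -, hk, -⟩ := open_surface hP hz hsm hH₀ hH₀P hgt hΞ hne hbr
    exact ⟨Q, D, hQ, hex, hk⟩
  tfae_have 1 → 3 := by
    rintro ⟨Ξ, hΞ, hne, hbr⟩
    obtain ⟨Q, D, hQ, ⟨x, hx, hxQ⟩, -, -, hp⟩ := open_surface hP hz hsm hH₀ hH₀P hgt hΞ hne hbr
    refine ⟨{x | x ∈ (openVar P fun _ : Fin 1 => H₀) ∧ VanishesAt Q x}, ⟨{Q}, ?_, ?_⟩, ?_, ?_⟩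
    · intro P' hP'
      rw [Set.mem_singleton_iff.1 hP']
      exact ⟨_, hQ⟩
    · ext x
      simp
    · intro heq
      rw [← heq] at hx
      exact hxQ hx.2
    · rintro f hf hfX ⟨z₁, hz₁, hz₁Q⟩
      exact hp f hf hfX ⟨z₁, hz₁, fun h => hz₁Q ⟨hfX z₁ hz₁, h⟩⟩
  tfae_finish

end Pool.Agent.H36.BPL
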