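import Pool.Agent.H36.BPL.Defs
import Pool.Agent.H36.BPL.Brody2
import Pool.Agent.H17BP.TrB
import Pool.Agent.H17BP.TrP

/-!
# BPL BlowK: blow-up of an open surface

`K₁ = total l X K` is the preimage of `K` in the blow-up.
-/

set_option autoImplicit false

namespace Pool.Agent.H36.BPL

open Filter Topology Metric
open Pool.Agent.H17BP (Surface IsChart IsForm NoZeros NodalAt Pr HolP Picard)
open Pool.Agent.H36.BP (OrdTwo)
open Pool.Agent.H62.BU (blow total Ker phi om)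

variable {V : Type} [NormedAddCommGroup V] [NormedSpace ℂ V] {ι : Type} [Fintype ι] {l : ι → V →L[ℂ] ℂ} {X K T : Set V} {q : V}

theorem mem_totalK (hX : Surface X) (hK : ∀ x ∈ K, ∀ c : ℂ, c ≠ 0 → c • x ∈ K) {y : ι → V} (hy : y ∈ blow l X) {b : ι} (hb : y b ≠ 0) :
    y ∈ total l X K ↔ y b ∈ K :=
  Pool.Agent.H62.BU.mem_total_iff (Pool.Agent.H17BP.surface_iff.2 hX) hK y hy hb

theorem total_smul (hK : ∀ x ∈ K, ∀ c : ℂ, c ≠ 0 → c • x ∈ K) {y : ι → V} (hy : y ∈ total l X K) {c : ℂ} (hc : c ≠ 0) : c • y ∈ total l X K := by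
  refine ⟨Pool.Agent.H62.BU.blow_smul y hy.1 c hc, fun b hb => ?_⟩
  have h1 : y b ≠ 0 := fun h => hb (by rw [Pi.smul_apply, h, smul_zero])
  exact hK _ (hy.2 b h1) c hc

theorem comp_mem (hX : Surface X) {y : ι → V} (hy : y ∈ blow l X) {b : ι} (hb : y b ≠ 0) : y b ∈ X :=
  Pool.Agent.H62.BU.comp_mem (Pool.Agent.H17BP.surface_iff.2 hX) y hy hb

theorem openPart_blow (hX : Surface X) (hK : OpenPart X K) : OpenPart (blow l X) (total l X K) where
  sub := fun y hy => hy.1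
  smul := fun y hy c hc => total_smul hK.smul hy hc
  eqn y hy := by
    obtain ⟨b, hb⟩ := Pool.Agent.H62.BU.exists_ne y hy
    obtain ⟨h, hh, hhe⟩ := hK.eqn (y b) (comp_mem hX hy hb)
    have hpr : AnalyticAt ℂ (fun y : ι → V => y b) y := (ContinuousLinearMap.proj (R := ℂ) (φ := fun _ : ι => V) b).analyticAt y
    refine ⟨fun y => h (y b), AnalyticAt.comp (g := h) (f := fun y : ι → V => y b) hh hpr, ?_⟩
    have hct : Tendsto (fun y : ι → V => y b) (𝓝 y) (𝓝 (y b)) := (continuous_apply b).tendsto y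
    filter_upwards [hct.eventually hhe, hct.eventually_ne hb] with y' h1 h2 h3
    rw [mem_totalK hX hK.smul h3 h2]
    exact h1 (comp_mem hX h3 h2)

theorem affProper_blow {M : ℕ} {Φ : V → Fin M → ℂ} (hX : Surface X) (hK : OpenPart X K) (hΦ : AffProper X K Φ) :
    ∃ Ψ : (ι → V) → Fin M → ℂ, AffProper (blow l X) (total l X K) Ψ := by
  classical
  -- a component which is not zero
  have hex : ∀ y : ι → V, ∃ x : V, y ∈ blow l X → x ≠ 0 ∧ ∃ b, x = y b := by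
    intro y
    by_cases hy : y ∈ blow l X
    · obtain ⟨b, hb⟩ := Pool.Agent.H62.BU.exists_ne y hy
      exact ⟨y b, fun _ => ⟨hb, b, rfl⟩⟩
    · exact ⟨0, fun h => absurd h hy⟩
  choose P hP using hex
  have hPb : ∀ y ∈ total l X K, ∀ b, y b ≠ 0 → Φ (P y) = Φ (y b) := by
    intro y hy b hb
    obtain ⟨h1, b', h2⟩ := hP y hy.1
    obtain ⟨c, hc⟩ := Pool.Agent.H62.BU.comp_smul y hy.1 hb b'
    have hc0 : c ≠ 0 := by
      rintro rfl
      rw [zero_smul] at hc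
      exact h1 (h2.trans hc)
    rw [h2, hc]
    exact hΦ.smul _ (hy.2 b hb) c hc0
  have hKX : ∀ y ∈ total l X K, ∀ b, y b ≠ 0 → y b ∈ K := fun y hy b hb => hy.2 b hb
  refine ⟨fun y => Φ (P y), ?_, ?_, ?_, ?_, ?_⟩
  · intro y hy c hc
    obtain ⟨b, hb⟩ := Pool.Agent.H62.BU.exists_ne y hy.1
    have h1 : (c • y) b ≠ 0 := smul_ne_zero hc hb
    show Φ (P (c • y)) = Φ (P y)
    rw [hPb _ (total_smul hK.smul hy hc) b h1, hPb y hy b hb]
    exact hΦ.smul _ (hKX y hy b hb) c hc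
  · intro y hy
    obtain ⟨b, hb⟩ := Pool.Agent.H62.BU.exists_ne y hy.1
    have h1 : ContinuousWithinAt (fun y : ι → V => Φ (y b)) (total l X K ∩ {y | y b ≠ 0}) y := by
      refine ContinuousWithinAt.comp (t := K) (hΦ.cont (y b) (hKX y hy b hb)) (continuous_apply b).continuousWithinAt ?_
      rintro y' ⟨h2, h3⟩
      exact hKX y' h2 b h3
    have h2 : {y : ι → V | y b ≠ 0} ∈ 𝓝 y := (continuous_apply b).continuousAt.eventually_ne hb
    have h3 : ContinuousWithinAt (fun y : ι → V => Φ (P y)) (total l X K ∩ {y | y b ≠ 0}) y := by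
      refine h1.congr ?_ (hPb y hy b hb)
      rintro y' ⟨h4, h5⟩
      exact hPb y' h4 b h5
    exact (continuousWithinAt_inter h2).mp h3
  · intro F z₀ hF hFK
    have hy : F z₀ ∈ total l X K := hFK.self_of_nhds
    obtain ⟨b, hb⟩ := Pool.Agent.H62.BU.exists_ne (F z₀) hy.1
    have hFb : AnalyticAt ℂ (fun z => F z b) z₀ := (analyticAt_pi_iff.1 hF) b
    have hne : ∀ᶠ z in 𝓝 z₀, F z b ≠ 0 := hFb.continuousAt.eventually_ne hb
    refine (hΦ.hol (fun z => F z b) z₀ hFb ?_).congr ?_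
    · filter_upwards [hFK, hne] with z h1 h2
      exact hKX _ h1 b h2
    · filter_upwards [hFK, hne] with z h1 h2
      exact (hPb _ h1 b h2).symm
  · intro y hy hyK R
    obtain ⟨b, hb⟩ := Pool.Agent.H62.BU.exists_ne y hy
    have hbK : y b ∉ K := fun h => hyK ((mem_totalK hX hK.smul hy hb).mpr h)
    have hct : Tendsto (fun y : ι → V => y b) (𝓝 y) (𝓝 (y b)) := (continuous_apply b).tendsto y
    filter_upwards [hct.eventually (hΦ.proper (y b) (comp_mem hX hy hb) hbK R), hct.eventually_ne hb] with y' h1 h2 h3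
    rw [hPb y' h3 b h2]
    exact h1 (hKX y' h3 b h2)
  · intro F z₀ hF hFX
    have hy : F z₀ ∈ blow l X := hFX.self_of_nhds
    obtain ⟨b, hb⟩ := Pool.Agent.H62.BU.exists_ne (F z₀) hy
    have hFb : AnalyticAt ℂ (fun z => F z b) z₀ := (analyticAt_pi_iff.1 hF) b
    have hne : ∀ᶠ z in 𝓝 z₀, F z b ≠ 0 := hFb.continuousAt.eventually_ne hb
    have hX' : ∀ᶠ z in 𝓝 z₀, F z b ∈ X := by
      filter_upwards [hFX, hne] with z h1 h2
      exact comp_mem hX h1 h2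
    rcases hΦ.iso (fun z => F z b) z₀ hFb hX' with h | h
    · left
      filter_upwards [h, hFX, hne] with z h1 h2 h3 h4
      exact h1 ((mem_totalK hX hK.smul h2 h3).mp h4)
    · right
      filter_upwards [h, hFX.filter_mono nhdsWithin_le_nhds, hne.filter_mono nhdsWithin_le_nhds] with z h1 h2 h3
      exact (mem_totalK hX hK.smul h2 h3).mpr h1

/-- the order of the projection of a curve in the blow-up -/
theorem ordTwo_comp {h : ℂ → ι → V} (hmem : ∀ z, h z ∈ blow l X) {b : ℂ → ι} (hbne : ∀ z, h z (b z) ≠ 0) (hord : OrdTwo h) :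
    OrdTwo (fun z => h z (b z)) := by
  obtain ⟨C₀, hC⟩ := hord
  refine ⟨C₀, fun r hr => ?_⟩
  obtain ⟨F, h1, h2, h3, h4⟩ := hC r hr
  have hF0 : 0 < ‖F 0‖ := lt_of_lt_of_le (Real.exp_pos _) h3
  obtain ⟨b₀, hb₀⟩ : ∃ b₀, ‖F 0‖ ≤ ‖F 0 b₀‖ := by
    by_contra hcon
    push Not at hcon
    exact lt_irrefl _ ((pi_norm_lt_iff hF0).mpr hcon)
  refine ⟨fun z => F z b₀, fun z hz => ?_, fun z hz => (norm_le_pi_norm (F z) b₀).trans (h2 z hz), h3.trans hb₀, fun z hz => ?_⟩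
  · have h5 := h1 z hz
    rw [differentiableWithinAt_pi] at h5
    exact h5 b₀
  · by_cases h0 : F z b₀ = 0
    · exact Or.inl h0
    right
    rcases h4 z hz with h5 | ⟨c, hc, h5⟩
    · exact absurd (by rw [h5]; rfl) h0
    have e1 : h z b₀ = c • F z b₀ := congrFun h5 b₀
    have h6 : h z b₀ ≠ 0 := by
      rw [e1]
      exact smul_ne_zero hc h0
    obtain ⟨c', e2⟩ := Pool.Agent.H62.BU.comp_smul (h z) (hmem z) h6 (b z)
    have hc' : c' ≠ 0 := by
      intro h0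
      rw [h0, zero_smul] at e2
      exact hbne z e2
    exact ⟨c' * c, mul_ne_zero hc' hc, by simp only; rw [e2, e1, smul_smul]⟩

/-- entire curves in the blow-up -/
theorem brodyK_blow (hX : Surface X) (hl : Ker l q) (hKs : ∀ x ∈ K, ∀ c : ℂ, c ≠ 0 → c • x ∈ K)
    (hT : ∀ x ∈ T, ∀ c : ℂ, c ≠ 0 → c • x ∈ T) (hq : q ∈ T) (hb : Brody2 K T) : Brody2 (total l X K) (total l X T) := by
  have hX' : Pool.Agent.H62.BU.Surface X := Pool.Agent.H17BP.surface_iff.2 hX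
  intro h hh hmemK hord hex z w
  have hmem : ∀ z, h z ∈ blow l X := fun z => (hmemK z).1
  obtain ⟨z₁, hz₁⟩ := hex
  choose b hbne using fun z => Pool.Agent.H62.BU.exists_ne (h z) (hmem z)
  have hfK : ∀ z, h z (b z) ∈ K := fun z => (hmemK z).2 _ (hbne z)
  have hfB : ∀ z, h z ∈ total l X T ↔ h z (b z) ∈ T := fun z =>
    Pool.Agent.H62.BU.mem_total_iff hX' hT (h z) (hmem z) (hbne z)
  have hHol : ∀ z₀, HolP (fun z => h z (b z)) z₀ := by
    intro z₀
    obtain ⟨H, hHan, hH0, hHe⟩ := hh z₀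
    obtain ⟨b₀, hb₀⟩ := Function.ne_iff.1 hH0
    have hb₀' : H z₀ b₀ ≠ 0 := hb₀
    have han : AnalyticAt ℂ (fun z => H z b₀) z₀ := (analyticAt_pi_iff.1 hHan) b₀
    refine ⟨fun z => H z b₀, han, hb₀', ?_⟩
    filter_upwards [hHe, han.continuousAt.eventually_ne hb₀'] with z hz hz0
    obtain ⟨c, hc, e⟩ := hz
    have e1 : h z b₀ = c • H z b₀ := congrFun e b₀
    have h1 : h z b₀ ≠ 0 := by
      rw [e1]
      exact smul_ne_zero hc hz0
    obtain ⟨c', e2⟩ := Pool.Agent.H62.BU.comp_smul (h z) (hmem z) h1 (b z)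
    have hc' : c' ≠ 0 := by
      intro h0
      rw [h0, zero_smul] at e2
      exact hbne z e2
    refine ⟨c' * c, mul_ne_zero hc' hc, ?_⟩
    show h z (b z) = (c' * c) • H z b₀
    rw [e2, e1, smul_smul]
  have hall := hb (fun z => h z (b z)) hHol hfK (ordTwo_comp hmem hbne hord) ⟨z₁, fun hmemB => hz₁ ((hfB z₁).2 hmemB)⟩
  have hl' : ∀ z, ∃ b', l b' (h z (b z)) ≠ 0 := by
    intro z
    by_contra hcon
    push Not at hcon
    obtain ⟨c, e⟩ := (hl (h z (b z))).1 hcon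
    have hc : c ≠ 0 := by
      intro h0
      rw [h0, zero_smul] at e
      exact hbne z e
    have h1 : h z (b z) ∈ T := by
      rw [e]
      exact hT q hq c hc
    obtain ⟨d, hd, e'⟩ := hall z₁ z
    apply hz₁
    rw [hfB z₁]
    have e'' : h z₁ (b z₁) = d • h z (b z) := e'
    rw [e'']
    exact hT _ h1 d hd
  have hphi : ∀ z, Pr (h z) (phi l (h z (b z))) := by
    intro z
    obtain ⟨b', hb'⟩ := hl' z
    exact ⟨(l (b z) (h z (b z)))⁻¹, inv_ne_zero (Pool.Agent.H62.BU.ne_of_ne (h z) (hmem z) (hbne z) hb'),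
      Pool.Agent.H62.BU.eq_phi (h z) (hmem z) (hbne z) hb'⟩
  have hpp : Pr (phi l (h z (b z))) (phi l (h w (b w))) := by
    obtain ⟨c, hc, e⟩ := hall z w
    have e' : h z (b z) = c • h w (b w) := e
    refine ⟨c ^ 2, pow_ne_zero 2 hc, ?_⟩
    rw [e', Pool.Agent.H62.BU.phi_smul]
  exact ((hphi z).trans hpp).trans (hphi w).symm

/-- descent of the extension property -/
theorem picardK_blow (hX : Surface X) (hl : Ker l q) (hKX : K ⊆ X) (hKs : ∀ x ∈ K, ∀ c : ℂ, c ≠ 0 → c • x ∈ K) (hTX : T ⊆ X)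
    (hT : ∀ x ∈ T, ∀ c : ℂ, c ≠ 0 → c • x ∈ T) (hq : q ∈ T) (hp : Picard (total l X K) (total l X T)) : Picard K T := by
  intro r hr f hf hfB
  have hq0 : q ≠ 0 := fun h => hX.zero (h ▸ hTX hq)
  have hi := Pool.Agent.H17BP.isolated_of_notMem hl hT hq hq0 (fun z h1 h2 => (hf z h1 h2).1) hfB
  obtain ⟨h, h1, h2⟩ := Pool.Agent.H17BP.exists_lift hX hl hq0 (fun z hz hzr => ⟨(hf z hz hzr).1, hKX (hf z hz hzr).2⟩) hi
  obtain ⟨z, hz, hzr, hzB⟩ := hfB
  have h1K : ∀ z : ℂ, z ≠ 0 → ‖z‖ < r → HolP h z ∧ h z ∈ total l X K := by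
    intro z hz hzr
    refine ⟨(h1 z hz hzr).1, (h1 z hz hzr).2, fun b hb => ?_⟩
    obtain ⟨c, hc, e⟩ := (h2 z hz hzr b hb).symm
    rw [e]
    exact hKs _ (hf z hz hzr).2 c hc
  obtain ⟨G, hG, hG0, hGe⟩ := hp r hr h h1K ⟨z, hz, hzr, fun h3 => by
    obtain ⟨b, hb⟩ := Pool.Agent.H62.BU.exists_ne (h z) h3.1
    obtain ⟨c, hc, e⟩ := h2 z hz hzr b hb
    exact hzB (e ▸ hT _ (h3.2 b hb) c hc)⟩
  obtain ⟨b, hb⟩ : ∃ b, G 0 b ≠ 0 := by
    by_contra h3
    push Not at h3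
    exact hG0 (funext h3)
  have hGb : AnalyticAt ℂ (fun w => G w b) 0 := (analyticAt_pi_iff.1 hG) b
  refine ⟨fun w => G w b, hGb, hb, ?_⟩
  have hlt : ∀ᶠ w in 𝓝 (0 : ℂ), ‖w‖ < r :=
    continuous_norm.continuousAt.eventually_lt_const (by simpa using hr)
  filter_upwards [hGe, self_mem_nhdsWithin, hlt.filter_mono nhdsWithin_le_nhds,
    (hGb.continuousAt.eventually_ne hb).filter_mono nhdsWithin_le_nhds] with w h3 h4 h5 h6
  obtain ⟨c, hc, e⟩ := h3
  have h7 : h w b = c • G w b := by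
    rw [e]
    rfl
  exact (h2 w h4 h5 b (by rw [h7]; exact smul_ne_zero hc h6)).trans ⟨c, hc, h7⟩

end Pool.Agent.H36.BPL
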