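import Pool.Agent.H36.BP.Defs

/-!
# BPL Aff: open parts which are proper over an affine variety

`AffProper X K Φ`: the functions `Φ : K → ℂ^M` (of degree `0`) are holomorphic along curves and tend to infinity at the points of `X \ K`.
-/

set_option autoImplicit false

namespace Pool.Agent.H36.BPL

open Filter Topology Metric
open Pool.Agent.H36.BP (EN Curve)

/-- `Φ` is a proper map on the open part `K` of the closed cone `X` -/
structure AffProper {V : Type} [NormedAddCommGroup V] [NormedSpace ℂ V] {M : ℕ} (X K : Set V) (Φ : V → Fin M → ℂ) : Prop where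
  smul : ∀ x ∈ K, ∀ c : ℂ, c ≠ 0 → Φ (c • x) = Φ x
  cont : ContinuousOn Φ K
  hol : ∀ (F : ℂ → V) (z₀ : ℂ), AnalyticAt ℂ F z₀ → (∀ᶠ z in 𝓝 z₀, F z ∈ K) → AnalyticAt ℂ (fun z => Φ (F z)) z₀
  proper : ∀ x ∈ X, x ∉ K → ∀ R : ℝ, ∀ᶠ y in 𝓝 x, y ∈ K → R < ‖Φ y‖
  iso : ∀ (F : ℂ → V) (z₀ : ℂ), AnalyticAt ℂ F z₀ → (∀ᶠ z in 𝓝 z₀, F z ∈ X) → (∀ᶠ z in 𝓝 z₀, F z ∉ K) ∨ ∀ᶠ z in 𝓝[≠] z₀, F z ∈ K

variable {N : ℕ}

theorem hur_of_affProper {X K : Set (EN N)} {M : ℕ} {Φ : EN N → Fin M → ℂ} (hX : ∀ x ∈ closure K, x ≠ 0 → x ∈ X)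
    (hsm : ∀ x ∈ K, ∀ c : ℂ, c ≠ 0 → c • x ∈ K) (h : AffProper X K Φ) :
    ∀ (l : Filter ℕ), l.NeBot → ∀ (F : ℕ → ℂ → EN N) (H : ℂ → EN N) (k : ℕ) (z₀ : ℂ) (s : ℝ), 0 < s →
    (∀ᶠ n in l, Curve K (Metric.ball z₀ s) (F n)) → DifferentiableOn ℂ H (Metric.ball z₀ s) →
    TendstoLocallyUniformlyOn F (fun z => (z - z₀) ^ k • H z) l (Metric.ball z₀ s) → H z₀ ≠ 0 → H z₀ ∉ K → ∀ᶠ z in 𝓝 z₀, H z ∉ K := by
  intro l hl F H k z₀ s hs hF hH hlim h0 hK
  have hHa : AnalyticAt ℂ H z₀ := hH.analyticAt (isOpen_ball.mem_nhds (mem_ball_self hs))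
  have hsmK : ∀ (x : EN N) (c : ℂ), c ≠ 0 → (c • x ∈ K ↔ x ∈ K) := by
    intro x c hc
    constructor
    · intro h1
      have h2 := hsm _ h1 c⁻¹ (inv_ne_zero hc)
      rwa [smul_smul, inv_mul_cancel₀ hc, one_smul] at h2
    · intro h1
      exact hsm _ h1 c hc
  -- near `z₀` the curve `H` is in `X`
  have hcl : ∀ z ∈ ball z₀ s, z ≠ z₀ → (z - z₀) ^ k • H z ∈ closure K := by
    intro z hz _
    have h1 : Tendsto (fun n => F n z) l (𝓝 ((z - z₀) ^ k • H z)) := hlim.tendsto_at hz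
    refine mem_closure_of_tendsto h1 ?_
    filter_upwards [hF] with n hn
    exact hn.2 z hz
  have hne : ∀ᶠ z in 𝓝 z₀, H z ≠ 0 := hHa.continuousAt.eventually_ne h0
  have hclK : ∀ (x : EN N) (c : ℂ), c ≠ 0 → c • x ∈ closure K → x ∈ closure K := by
    intro x c hc hx
    have h1 : Continuous (fun y : EN N => c⁻¹ • y) := continuous_const_smul _
    have h2 := map_mem_closure h1 hx (fun y hy => hsm y hy c⁻¹ (inv_ne_zero hc))
    simpa [smul_smul, inv_mul_cancel₀ hc] using h2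
  have hclH : ∀ᶠ z in 𝓝 z₀, H z ∈ closure K := by
    have h1 : ∀ᶠ z in 𝓝[≠] z₀, H z ∈ closure K := by
      rw [eventually_nhdsWithin_iff]
      filter_upwards [isOpen_ball.mem_nhds (mem_ball_self hs)] with z hz hzne
      exact hclK _ _ (pow_ne_zero k (sub_ne_zero.mpr hzne)) (hcl z hz hzne)
    have h2 : H z₀ ∈ closure K := by
      have h3 : Tendsto H (𝓝[≠] z₀) (𝓝 (H z₀)) := hHa.continuousAt.tendsto.mono_left nhdsWithin_le_nhds
      exact isClosed_closure.mem_of_tendsto h3 h1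
    have h4 := eventually_nhdsWithin_iff.mp h1
    filter_upwards [h4] with z hz
    by_cases hz0 : z = z₀
    · rw [hz0]; exact h2
    · exact hz hz0
  have hHX : ∀ᶠ z in 𝓝 z₀, H z ∈ X := by
    filter_upwards [hclH, hne] with z h1 h2
    exact hX _ h1 h2
  rcases h.iso H z₀ hHa hHX with h1 | h1
  · exact h1
  exfalso
  -- a small closed disc
  have hball : ∀ᶠ z in 𝓝 z₀, z ∈ ball z₀ s := isOpen_ball.mem_nhds (mem_ball_self hs)
  obtain ⟨r₀, hr₀, hr₀K⟩ := Metric.eventually_nhds_iff_ball.mp ((eventually_nhdsWithin_iff.mp h1).and hball)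
  set r : ℝ := r₀ / 2 with hr
  have hr0 : 0 < r := by rw [hr]; positivity
  have hrlt : r < r₀ := by rw [hr]; linarith
  have hcb : closedBall z₀ r ⊆ ball z₀ r₀ := closedBall_subset_ball hrlt
  have hKr : ∀ z ∈ closedBall z₀ r, z ≠ z₀ → H z ∈ K := fun z hz hne => (hr₀K z (hcb hz)).1 hne
  have hsr : closedBall z₀ r ⊆ ball z₀ s := fun z hz => (hr₀K z (hcb hz)).2
  -- a uniform bound on the circle
  have hpt : ∀ w ∈ sphere z₀ r, ∃ t ∈ 𝓝 w, ∃ C : ℝ, ∀ᶠ n in l, ∀ z ∈ t, ‖Φ (F n z)‖ ≤ C := by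
    intro w hw
    have hwcb : w ∈ closedBall z₀ r := sphere_subset_closedBall hw
    have hwne : w ≠ z₀ := by
      rintro rfl
      rw [mem_sphere, dist_self] at hw
      linarith
    have hws : w ∈ ball z₀ s := hsr hwcb
    have hxK : (w - z₀) ^ k • H w ∈ K := hsm _ (hKr w hwcb hwne) _ (pow_ne_zero k (sub_ne_zero.mpr hwne))
    have hc : ∀ᶠ y in 𝓝 ((w - z₀) ^ k • H w), y ∈ K → ‖Φ y‖ < ‖Φ ((w - z₀) ^ k • H w)‖ + 1 := by
      have h2 := (h.cont _ hxK).norm.eventually_lt_const (show ‖Φ ((w - z₀) ^ k • H w)‖ < ‖Φ ((w - z₀) ^ k • H w)‖ + 1 by linarith)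
      exact eventually_nhdsWithin_iff.mp h2
    obtain ⟨δ, hδ, hδc⟩ := Metric.eventually_nhds_iff.mp hc
    have hGc : ContinuousAt (fun z => (z - z₀) ^ k • H z) w :=
      (((continuous_id.sub continuous_const).pow k).continuousAt).smul
        ((hH.differentiableAt (isOpen_ball.mem_nhds hws)).continuousAt)
    have hG : ∀ᶠ z in 𝓝 w, dist ((z - z₀) ^ k • H z) ((w - z₀) ^ k • H w) < δ / 2 :=
      Metric.tendsto_nhds.mp hGc (δ / 2) (by positivity)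
    obtain ⟨t, ht, htn⟩ := (Metric.tendstoLocallyUniformlyOn_iff.mp hlim) (δ / 2) (by positivity) w hws
    rw [isOpen_ball.nhdsWithin_eq hws] at ht
    refine ⟨t ∩ ({z | dist ((z - z₀) ^ k • H z) ((w - z₀) ^ k • H w) < δ / 2} ∩ ball z₀ s),
      inter_mem ht (inter_mem hG (isOpen_ball.mem_nhds hws)), ‖Φ ((w - z₀) ^ k • H w)‖ + 1, ?_⟩
    filter_upwards [htn, hF] with n hn1 hn2
    rintro z ⟨hz1, hz2, hz3⟩
    have h3 : dist (F n z) ((w - z₀) ^ k • H w) < δ := by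
      have h4 := hn1 z hz1
      rw [dist_comm] at h4
      have h5 : dist ((z - z₀) ^ k • H z) ((w - z₀) ^ k • H w) < δ / 2 := hz2
      calc dist (F n z) ((w - z₀) ^ k • H w) ≤ dist (F n z) ((z - z₀) ^ k • H z) + dist ((z - z₀) ^ k • H z) ((w - z₀) ^ k • H w) :=
            dist_triangle _ _ _
        _ < δ := by linarith
    exact (hδc h3 (hn2.2 z hz3)).le
  obtain ⟨C, hC⟩ : ∃ C : ℝ, ∀ᶠ n in l, ∀ z ∈ sphere z₀ r, ‖Φ (F n z)‖ ≤ C := by
    refine (isCompact_sphere z₀ r).induction_on (p := fun S => ∃ C : ℝ, ∀ᶠ n in l, ∀ z ∈ S, ‖Φ (F n z)‖ ≤ C) ?_ ?_ ?_ ?_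
    · exact ⟨0, Filter.Eventually.of_forall fun n z hz => absurd hz (Set.notMem_empty z)⟩
    · rintro S T hST ⟨C, hC⟩
      exact ⟨C, hC.mono fun n hn z hz => hn z (hST hz)⟩
    · rintro S T ⟨C, hC⟩ ⟨C', hC'⟩
      refine ⟨max C C', ?_⟩
      filter_upwards [hC, hC'] with n h1 h2
      rintro z (hz | hz)
      · exact (h1 z hz).trans (le_max_left _ _)
      · exact (h2 z hz).trans (le_max_right _ _)
    · intro w hw
      obtain ⟨t, ht, C, hC⟩ := hpt w hw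
      exact ⟨t, mem_nhdsWithin_of_mem_nhds ht, C, hC⟩
  -- the bound inside
  have hin : ∀ᶠ n in l, ∀ z ∈ ball z₀ r, ‖Φ (F n z)‖ ≤ C := by
    filter_upwards [hC, hF] with n h1 h2
    intro z hz
    have hd : DifferentiableOn ℂ (fun z => Φ (F n z)) (ball z₀ s) := by
      intro w hw
      have hFa : AnalyticAt ℂ (F n) w := h2.1.analyticAt (isOpen_ball.mem_nhds hw)
      have hFK : ∀ᶠ z in 𝓝 w, F n z ∈ K := by
        filter_upwards [isOpen_ball.mem_nhds hw] with z hz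
        exact h2.2 z hz
      exact (h.hol _ w hFa hFK).differentiableAt.differentiableWithinAt
    have hdc : DiffContOnCl ℂ (fun z => Φ (F n z)) (ball z₀ r) := by
      refine DifferentiableOn.diffContOnCl ?_
      rw [closure_ball z₀ hr0.ne']
      exact hd.mono hsr
    refine Complex.norm_le_of_forall_mem_frontier_norm_le isBounded_ball hdc (fun w hw => ?_) (subset_closure hz)
    rw [frontier_ball z₀ hr0.ne'] at hw
    exact h1 w hw
  -- the bound for the limit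
  have hlimC : ∀ z ∈ ball z₀ r, z ≠ z₀ → ‖Φ (H z)‖ ≤ C := by
    intro z hz hzne
    have hzs : z ∈ ball z₀ s := hsr (ball_subset_closedBall hz)
    have hzK : H z ∈ K := hKr z (ball_subset_closedBall hz) hzne
    have hcne : (z - z₀) ^ k ≠ 0 := pow_ne_zero k (sub_ne_zero.mpr hzne)
    have hxK : (z - z₀) ^ k • H z ∈ K := hsm _ hzK _ hcne
    have h2 : Tendsto (fun n => F n z) l (𝓝[K] ((z - z₀) ^ k • H z)) := by
      refine tendsto_nhdsWithin_iff.mpr ⟨hlim.tendsto_at hzs, ?_⟩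
      filter_upwards [hF] with n hn
      exact hn.2 z hzs
    have h3 : Tendsto (fun n => ‖Φ (F n z)‖) l (𝓝 ‖Φ ((z - z₀) ^ k • H z)‖) := ((h.cont _ hxK).tendsto.comp h2).norm
    rw [h.smul _ hzK _ hcne] at h3
    refine le_of_tendsto h3 ?_
    filter_upwards [hin] with n hn
    exact hn z hz
  have hprop := h.proper (H z₀) (hHX.self_of_nhds) hK C
  have h4 : ∀ᶠ z in 𝓝[≠] z₀, H z ∈ K → C < ‖Φ (H z)‖ := (hHa.continuousAt.eventually hprop).filter_mono nhdsWithin_le_nhds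
  have h5 : ∀ᶠ z in 𝓝[≠] z₀, z ∈ ball z₀ r := (show ∀ᶠ z in 𝓝 z₀, z ∈ ball z₀ r from ball_mem_nhds z₀ hr0).filter_mono nhdsWithin_le_nhds
  obtain ⟨z, hz1, hz2, hz3, hz4⟩ := ((h4.and (h1.and h5)).and self_mem_nhdsWithin).exists.imp fun z hz => (⟨hz.1.1, hz.1.2.1, hz.1.2.2, hz.2⟩ : (H z ∈ K → C < ‖Φ (H z)‖) ∧ H z ∈ K ∧ z ∈ ball z₀ r ∧ z ∈ ({z₀} : Set ℂ)ᶜ)
  have h6 := hz1 hz2
  have h7 := hlimC z hz3 hz4
  linarith

end Pool.Agent.H36.BPL
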