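import Pool.Agent.H17BP.Surf
import Pool.Agent.H36.BPL.Aff

/-!
# BPL: open surfaces in projective spaces, in terms of their cones

`X` is the cone of a smooth closed surface, `K` the cone over the complement of a curve `D` in it.
-/

set_option autoImplicit false

namespace Pool.Agent.H36.BPL

open Filter Topology Metric
open Pool.Agent.H17BP (Surface IsChart IsForm NoZeros NodalAt)

variable {V : Type} [NormedAddCommGroup V] [NormedSpace ℂ V]

/-- `K` is the complement in `X` of a curve which is locally given by one equation. -/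
structure OpenPart (X K : Set V) : Prop where
  sub : K ⊆ X
  smul : ∀ x ∈ K, ∀ c : ℂ, c ≠ 0 → c • x ∈ K
  eqn : ∀ x ∈ X, ∃ h : V → ℂ, AnalyticAt ℂ h x ∧ ∀ᶠ y in 𝓝 x, y ∈ X → (y ∉ K ↔ h y = 0)

/-- `g` is holomorphic near `p` and vanishes on the preimage of `X ∖ K` under `φ` -/
def VanOff (K : Set V) (φ : ℂ × ℂ → V) (p : ℂ × ℂ) (g : ℂ × ℂ → ℂ) : Prop :=
  AnalyticAt ℂ g p ∧ ∀ᶠ y in 𝓝 p, φ y ∉ K → g y = 0

/-- The form `Ω` on `K` has poles of order at most `e` along `X ∖ K`: the pull back of `Ω` to `ℂ²` becomes holomorphic when it is multiplied with `e`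
functions which vanish on the preimage of `X ∖ K`. -/
def PoleLE (X K : Set V) (e : ℕ) (Ω : V → V → V → ℂ) : Prop :=
  ∀ (φ : ℂ × ℂ → V) (p : ℂ × ℂ), AnalyticAt ℂ φ p → (∀ᶠ y in 𝓝 p, φ y ∈ X) → ∀ G : List (ℂ × ℂ → ℂ), G.length = e →
    (∀ g ∈ G, VanOff K φ p g) → ∃ b : ℂ × ℂ → ℂ, AnalyticAt ℂ b p ∧
      ∀ᶠ y in 𝓝 p, φ y ∈ K → b y = (G.map fun g => g y).prod * Ω (φ y) (fderiv ℂ φ y (1, 0)) (fderiv ℂ φ y (0, 1))

/-- The curve `T ⊇ X ∖ K` is smooth or has a node at `x`, and `X ∖ K` is a union of branches of `T`. -/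
def PairNodalAt (X K T : Set V) (x : V) : Prop :=
  ∃ σ τ, IsChart X σ τ ∧ σ 0 = x ∧ ∃ (nd : Bool) (d : Bool × Bool),
    (∀ᶠ p in 𝓝 (0 : ℂ × ℂ), (σ p ∈ T ↔ p.1 = 0 ∨ (nd = true ∧ p.2 = 0))) ∧
    (∀ᶠ p in 𝓝 (0 : ℂ × ℂ), (σ p ∉ K ↔ (d.1 = true ∧ p.1 = 0) ∨ (d.2 = true ∧ p.2 = 0))) ∧ (d.2 = true → nd = true)

theorem OpenPart.rel {X K : Set V} (h : OpenPart X K) : ∀ x ∈ K, ∀ᶠ y in 𝓝 x, y ∈ X → y ∈ K := by
  intro x hx
  obtain ⟨g, hg, he⟩ := h.eqn x (h.sub hx)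
  have h1 : g x ≠ 0 := fun h0 => ((he.self_of_nhds (h.sub hx)).mpr h0) hx
  filter_upwards [he, hg.continuousAt.eventually_ne h1] with y hy hy2 hyX
  by_contra h2
  exact hy2 ((hy hyX).mp h2)

theorem PoleLE.pow {X K : Set V} {e : ℕ} {Ω : V → V → V → ℂ} (h : PoleLE X K e Ω) {φ : ℂ × ℂ → V} {p : ℂ × ℂ} (hφ : AnalyticAt ℂ φ p)
    (hX : ∀ᶠ y in 𝓝 p, φ y ∈ X) {g : ℂ × ℂ → ℂ} (hg : AnalyticAt ℂ g p) (hg0 : ∀ᶠ y in 𝓝 p, φ y ∉ K → g y = 0) :
    ∃ b : ℂ × ℂ → ℂ, AnalyticAt ℂ b p ∧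
      ∀ᶠ y in 𝓝 p, φ y ∈ K → b y = g y ^ e * Ω (φ y) (fderiv ℂ φ y (1, 0)) (fderiv ℂ φ y (0, 1)) := by
  obtain ⟨b, hb, hbe⟩ := h φ p hφ hX (List.replicate e g) (List.length_replicate ..) (fun g' hg' => by
    rw [List.eq_of_mem_replicate hg']
    exact ⟨hg, hg0⟩)
  refine ⟨b, hb, ?_⟩
  filter_upwards [hbe] with y hy hyK
  rw [hy hyK, List.map_replicate, List.prod_replicate]

/-- the product of holomorphic functions is holomorphic -/
theorem analyticAt_listProd {p : ℂ × ℂ} {G : List (ℂ × ℂ → ℂ)} (h : ∀ g ∈ G, AnalyticAt ℂ g p) :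
    AnalyticAt ℂ (fun y => (G.map fun g => g y).prod) p := by
  induction G with
  | nil => simpa using analyticAt_const
  | cons g G ih =>
    have h1 : (fun y => ((g :: G).map fun g => g y).prod) = fun y => g y * (G.map fun g => g y).prod := by
      funext y
      simp
    rw [h1]
    exact (h g (by simp)).mul (ih fun g' hg' => h g' (by simp [hg']))

theorem PoleLE.mono {X K : Set V} {e e' : ℕ} (he : e ≤ e') {Ω : V → V → V → ℂ} (h : PoleLE X K e Ω) : PoleLE X K e' Ω := by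
  intro φ p hφ hX G hG hGg
  obtain ⟨b, hb, hbe⟩ := h φ p hφ hX (G.take e) (by rw [List.length_take]; omega) (fun g hg => hGg g (List.mem_of_mem_take hg))
  refine ⟨fun y => ((G.drop e).map fun g => g y).prod * b y, (analyticAt_listProd fun g hg => (hGg g (List.mem_of_mem_drop hg)).1).mul hb, ?_⟩
  filter_upwards [hbe] with y hy hyK
  rw [hy hyK]
  have h1 : (G.map fun g => g y).prod = ((G.take e).map fun g => g y).prod * ((G.drop e).map fun g => g y).prod := by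
    rw [← List.prod_append, ← List.map_append, List.take_append_drop]
  rw [h1]
  ring

/-- the closed case -/
theorem PoleLE.closed {X : Set V} {e m j : ℕ} {Ω : V → V → V → ℂ} (h : IsForm X m j Ω) : PoleLE X X e Ω := by
  refine PoleLE.mono (Nat.zero_le e) ?_
  intro φ p hφ hX G hG _
  obtain rfl := List.eq_nil_of_length_eq_zero hG
  exact ⟨_, h.analytic φ p hφ hX, Filter.Eventually.of_forall fun y _ => by simp⟩

theorem OpenPart.closed (X : Set V) (hs : ∀ x ∈ X, ∀ c : ℂ, c ≠ 0 → c • x ∈ X) : OpenPart X X :=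
  ⟨le_refl _, hs, fun x _ => ⟨fun _ => 1, analyticAt_const, Filter.Eventually.of_forall fun y hy => by simp [hy]⟩⟩

theorem AffProper.closed (X : Set V) (hX : ∀ x ∈ X, ∀ c : ℂ, c ≠ 0 → c • x ∈ X) : AffProper X X (fun _ : V => (0 : Fin 0 → ℂ)) where
  smul _ _ _ _ := rfl
  cont := continuousOn_const
  hol _ _ _ _ := analyticAt_const
  proper x hx hxK := absurd hx hxK
  iso F z₀ _ hF := Or.inr (hF.filter_mono nhdsWithin_le_nhds)

/-- powers of a form with logarithmic poles, multiplied by a homogeneous function which vanishes on `X ∖ K` -/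
theorem PoleLE.pow_mul {X K : Set V} {M k : ℕ} (hM : 1 ≤ M) (hk : 1 ≤ k) {Ω : V → V → V → ℂ} (h : PoleLE X K M Ω) {H : V → ℂ}
    (hH : ∀ x, AnalyticAt ℂ H x) (hH0 : ∀ x ∈ X, x ∉ K → H x = 0) : PoleLE X K (M * k - 1) (fun x v w => H x * Ω x v w ^ k) := by
  -- the `k`-th power
  have key : ∀ k : ℕ, ∀ (φ : ℂ × ℂ → V) (p : ℂ × ℂ), AnalyticAt ℂ φ p → (∀ᶠ y in 𝓝 p, φ y ∈ X) → ∀ G : List (ℂ × ℂ → ℂ), G.length = M * k →
      (∀ g ∈ G, VanOff K φ p g) → ∃ b : ℂ × ℂ → ℂ, AnalyticAt ℂ b p ∧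
      ∀ᶠ y in 𝓝 p, φ y ∈ K → b y = (G.map fun g => g y).prod * Ω (φ y) (fderiv ℂ φ y (1, 0)) (fderiv ℂ φ y (0, 1)) ^ k := by
    intro k
    induction k with
    | zero =>
      intro φ p _ _ G hG _
      obtain rfl := List.eq_nil_of_length_eq_zero (by simpa using hG)
      exact ⟨fun _ => 1, analyticAt_const, Filter.Eventually.of_forall fun y _ => by simp⟩
    | succ k ih =>
      intro φ p hφ hX G hG hGg
      obtain ⟨b, hb, hbe⟩ := h φ p hφ hX (G.take M) (by rw [List.length_take, hG]; simp [Nat.mul_succ]) (fun g hg => hGg g (List.mem_of_mem_take hg))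
      obtain ⟨b', hb', hbe'⟩ := ih φ p hφ hX (G.drop M) (by rw [List.length_drop, hG]; simp [Nat.mul_succ]) (fun g hg => hGg g (List.mem_of_mem_drop hg))
      refine ⟨fun y => b y * b' y, hb.mul hb', ?_⟩
      filter_upwards [hbe, hbe'] with y hy hy' hyK
      rw [hy hyK, hy' hyK]
      have h1 : (G.map fun g => g y).prod = ((G.take M).map fun g => g y).prod * ((G.drop M).map fun g => g y).prod := by
        rw [← List.prod_append, ← List.map_append, List.take_append_drop]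
      rw [h1]
      ring
  intro φ p hφ hX G hG hGg
  have hHφ : AnalyticAt ℂ (fun y => H (φ y)) p := (hH _).comp hφ
  have hMk : 1 ≤ M * k := Nat.mul_pos hM hk
  obtain ⟨b, hb, hbe⟩ := key k φ p hφ hX ((fun y => H (φ y)) :: G) (by rw [List.length_cons, hG]; omega) (fun g hg => by
    rcases List.mem_cons.mp hg with rfl | hg
    · exact ⟨hHφ, hX.mono fun y hy hyK => hH0 _ hy hyK⟩
    · exact hGg g hg)
  refine ⟨b, hb, ?_⟩
  filter_upwards [hbe] with y hy hyK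
  rw [hy hyK, List.map_cons, List.prod_cons]
  ring

theorem isForm_pow_mul {K : Set V} {m j d k : ℕ} (hd : d ≤ j * k) {Ω : V → V → V → ℂ} (h : IsForm K m j Ω) {H : V → ℂ}
    (hH : ∀ x, AnalyticAt ℂ H x) (hHs : ∀ (c : ℂ) (x : V), H (c • x) = c ^ d * H x) (hsK : ∀ x ∈ K, ∀ c : ℂ, c ≠ 0 → c • x ∈ K) :
    IsForm K (m * k) (j * k - d) (fun x v w => H x * Ω x v w ^ k) where
  add_smul x hx v hv w hw a b := by simp only [h.add_smul x hx v hv w hw a b]
  det x hx v hv w hw a b c d := by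
    simp only [h.det x hx v hv w hw a b c d]
    ring
  scale x hx v hv w hw c hc := by
    have h1 := h.scale x hx v hv w hw c hc
    simp only [hHs]
    rw [← h1]
    obtain ⟨e, he⟩ := Nat.exists_eq_add_of_le hd
    have h2 : j * k - d = e := by omega
    rw [h2]
    have h3 : (c ^ j) ^ k = c ^ d * c ^ e := by rw [← pow_mul, he, pow_add]
    calc c ^ e * (c ^ d * H x * Ω (c • x) (c • v) (c • w) ^ k) = H x * ((c ^ d * c ^ e) * Ω (c • x) (c • v) (c • w) ^ k) := by ring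
      _ = H x * ((c ^ j) ^ k * Ω (c • x) (c • v) (c • w) ^ k) := by rw [h3]
      _ = _ := by rw [← mul_pow]
  analytic φ p hφ hφK := ((hH _).comp hφ).mul ((h.analytic φ p hφ hφK).pow k)

end Pool.Agent.H36.BPL
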