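import Pool.Agent.H36.BPL.Defs
import Pool.Agent.H36.BPL.Brody2
import Pool.Agent.H36.BP.Nodal

/-!
# BPL NodalK: the nodal theorem for open surfaces
-/

set_option autoImplicit false

namespace Pool.Agent.H36.BPL

open Filter Topology Metric
open Pool.Agent.H17 (PN HolomorphicInto puncturedDisc)
open Pool.Agent.H17BP (Surface IsChart IsForm NoZeros NodalAt)
open Pool.Agent.H36.BP
open Pool.Agent.H14.PP (IsCone IsOpenPart IsNodal Chart HasType DType gD aCoef Form IsEq)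

variable {V : Type} [NormedAddCommGroup V] [NormedSpace ℂ V] {N : ℕ}

theorem gD_ne_zero_of (d : Bool × Bool) {p : ℂ × ℂ} (h1 : p.1 ≠ 0) (h2 : p.2 ≠ 0) : gD d p ≠ 0 := by
  unfold gD
  refine mul_ne_zero ?_ ?_ <;> split_ifs <;> simp_all

theorem analyticAt_gD (d : Bool × Bool) (p : ℂ × ℂ) : AnalyticAt ℂ (gD d) p := by
  unfold gD
  refine AnalyticAt.mul ?_ ?_
  · split_ifs
    · exact analyticAt_fst
    · exact analyticAt_const
  · split_ifs
    · exact analyticAt_snd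
    · exact analyticAt_const

/-- points with non-zero coordinates near a given point -/
theorem freq_ne (p : ℂ × ℂ) : ∃ᶠ y in 𝓝 p, y.1 ≠ 0 ∧ y.2 ≠ 0 := by
  have h1 : Tendsto (fun e : ℂ => (p.1 + e, p.2 + e)) (𝓝[≠] 0) (𝓝 p) := by
    have h2 : Continuous (fun e : ℂ => (p.1 + e, p.2 + e)) := by fun_prop
    have h3 := h2.tendsto 0
    simp only [add_zero] at h3
    exact h3.mono_left nhdsWithin_le_nhds
  refine h1.frequently (Filter.Eventually.frequently ?_)
  have h4 : ∀ a : ℂ, ∀ᶠ e : ℂ in 𝓝[≠] 0, a + e ≠ 0 := by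
    intro a
    by_cases ha : a = 0
    · rw [ha]
      filter_upwards [self_mem_nhdsWithin] with e he
      simpa using he
    · have h5 : ContinuousAt (fun e : ℂ => a + e) 0 := (continuous_const.add continuous_id).continuousAt
      have h6 : ∀ᶠ e : ℂ in 𝓝 0, a + e ≠ 0 := h5.eventually_ne (by simpa using ha)
      exact h6.filter_mono nhdsWithin_le_nhds
  filter_upwards [h4 p.1, h4 p.2] with e h5 h6
  exact ⟨h5, h6⟩

/-- the pole bound in a chart -/
theorem poleBound_transport (L : V ≃L[ℂ] EN N) {X K : Set V} {m j : ℕ} {Ω : V → V → V → ℂ} (hΩ : IsForm K m j Ω)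
    (hp : PoleLE X K (m - 1) Ω) : (formT L hΩ).PoleBound (L.symm ⁻¹' X : Set (EN N)) := by
  classical
  intro χ d hd
  set φ : ℂ × ℂ → V := fun p => L.symm (χ.σ p) with hφ
  have hφa : ∀ p ∈ ball (0 : ℂ × ℂ) 2, AnalyticAt ℂ φ p := fun p hp =>
    ((L.symm : EN N →L[ℂ] V).analyticAt _).comp (χ.σ_an p hp)
  have hφd : ∀ p ∈ ball (0 : ℂ × ℂ) 2, ∀ v, fderiv ℂ φ p v = L.symm (fderiv ℂ χ.σ p v) := by
    intro p hp v
    have h3 : HasFDerivAt φ ((L.symm : EN N →L[ℂ] V).comp (fderiv ℂ χ.σ p)) p :=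
      (L.symm : EN N →L[ℂ] V).hasFDerivAt.comp p (χ.σ_an p hp).differentiableAt.hasFDerivAt
    rw [h3.fderiv]
    rfl
  have hφX : ∀ p ∈ ball (0 : ℂ × ℂ) 2, φ p ∈ X := fun p hp => (χ.σ_mem p hp).1
  have hφK : ∀ p ∈ ball (0 : ℂ × ℂ) 2, (φ p ∉ K ↔ (d.1 = true ∧ p.1 = 0) ∨ (d.2 = true ∧ p.2 = 0)) := fun p hp => hd p hp
  have hco : ∀ p ∈ ball (0 : ℂ × ℂ) 2, aCoef (formT L hΩ) χ p = Ω (φ p) (fderiv ℂ φ p (1, 0)) (fderiv ℂ φ p (0, 1)) := by
    intro p hp
    rw [hφd p hp, hφd p hp]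
    rfl
  have hex : ∀ p ∈ ball (0 : ℂ × ℂ) 2, ∃ b : ℂ × ℂ → ℂ, AnalyticAt ℂ b p ∧
      ∀ᶠ y in 𝓝 p, φ y ∈ K → b y = gD d y ^ (m - 1) * Ω (φ y) (fderiv ℂ φ y (1, 0)) (fderiv ℂ φ y (0, 1)) := by
    intro p hpb
    refine hp.pow (hφa p hpb) ?_ (analyticAt_gD d p) ?_
    · filter_upwards [isOpen_ball.mem_nhds hpb] with y hy
      exact hφX y hy
    · filter_upwards [isOpen_ball.mem_nhds hpb] with y hy h1
      rcases (hφK y hy).mp h1 with h2 | h2
      · simp [gD, h2.1, h2.2]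
      · simp [gD, h2.1, h2.2]
  choose! B hBa hBe using hex
  set b : ℂ × ℂ → ℂ := fun p => if φ p ∈ K then gD d p ^ (m - 1) * Ω (φ p) (fderiv ℂ φ p (1, 0)) (fderiv ℂ φ p (0, 1)) else B p p with hb
  refine ⟨b, fun p hpb => ?_, fun p hpb hpK => ?_⟩
  · refine (hBa p hpb).congr ?_
    have h1 := (hBe p hpb).eventually_nhds
    filter_upwards [(hBa p hpb).eventually_analyticAt, h1, isOpen_ball.mem_nhds hpb] with y hy1 hy2 hy3
    by_cases hyK : φ y ∈ K
    · have h2 : b y = gD d y ^ (m - 1) * Ω (φ y) (fderiv ℂ φ y (1, 0)) (fderiv ℂ φ y (0, 1)) := if_pos hyK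
      rw [h2]
      exact hy2.self_of_nhds hyK
    · have h2 : b y = B y y := if_neg hyK
      rw [h2]
      have h3 : ∃ᶠ q in 𝓝 y, B p q = B y q := by
        refine ((freq_ne y).and_eventually (hy2.and ((hBe y hy3).and (isOpen_ball.mem_nhds hy3)))).mono ?_
        rintro q ⟨⟨hq1, hq2⟩, hq3, hq4, hq5⟩
        have hqK : φ q ∈ K := by
          by_contra hcon
          rcases (hφK q hq5).mp hcon with h | h
          · exact hq1 h.2
          · exact hq2 h.2
        rw [hq3 hqK, hq4 hqK]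
      have h4 : ContinuousAt (fun q => B p q - B y q) y := hy1.continuousAt.sub (hBa y hy3).continuousAt
      by_contra hne
      have h5 : (fun q => B p q - B y q) y ≠ 0 := sub_ne_zero.mpr hne
      exact h3 ((h4.eventually_ne h5).mono fun q hq h6 => hq (sub_eq_zero.mpr h6))
  · show b p = gD d p ^ (m - 1) * aCoef (formT L hΩ) χ p
    have h2 : b p = gD d p ^ (m - 1) * Ω (φ p) (fderiv ℂ φ p (1, 0)) (fderiv ℂ φ p (0, 1)) := if_pos hpK
    rw [h2, hco p hpb]

/-- transport of a proper map -/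
theorem affProper_transport (L : V ≃L[ℂ] EN N) {X K : Set V} {M : ℕ} {Φ : V → Fin M → ℂ} (h : AffProper X K Φ) :
    AffProper (L.symm ⁻¹' X : Set (EN N)) (L.symm ⁻¹' K) (fun y => Φ (L.symm y)) where
  smul x hx c hc := by
    rw [map_smul]
    exact h.smul _ hx c hc
  cont := h.cont.comp L.symm.continuous.continuousOn fun x hx => hx
  hol F z₀ hF hFK := h.hol (fun z => L.symm (F z)) z₀ (((L.symm : EN N →L[ℂ] V).analyticAt _).comp hF) hFK
  proper x hx hxK R := (L.symm.continuous.tendsto x).eventually (h.proper _ hx hxK R)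
  iso F z₀ hF hFX := h.iso (fun z => L.symm (F z)) z₀ (((L.symm : EN N →L[ℂ] V).analyticAt _).comp hF) hFX

/-- **The nodal theorem for open surfaces**: `X` is a smooth closed surface in `ℙ(V)`, `K` an open part which is proper over an affine variety,
`T ⊇ X ∖ K` a curve with at most nodes, `Ω` a section of `m K_X - j H` on `K`, with poles of order at most `m - 1` along `X ∖ K` and without zeros in `K ∖ T`:
if all nonconstant entire curves of order at most two in `K` lie in `T` then all holomorphic maps of the punctured disc into `K` which do not lie in `T` extend. -/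
theorem nodalK_picard [FiniteDimensional ℂ V] {W : Type} [NormedAddCommGroup W] [InnerProductSpace ℂ W] {X K T : Set V} {m j M : ℕ} {Ω : V → V → V → ℂ}
    {Q : V → W} {D : ℕ} {Φ : V → Fin M → ℂ} (hX : Surface X) (hK : OpenPart X K) (hΦ : AffProper X K Φ) (hKT : ∀ x ∈ X, x ∉ K → x ∈ T)
    (hQ : ∀ x, AnalyticAt ℂ Q x) (hQs : ∀ (c : ℂ) (x : V), Q (c • x) = c ^ D • Q x)
    (hT : ∀ x, x ∈ T ↔ x ∈ X ∧ Q x = 0) (hn : ∀ x ∈ T, PairNodalAt X K T x) (hm : 1 ≤ m) (hj : 1 ≤ j) (hΩ : IsForm K m j Ω) (hz : NoZeros K T Ω)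
    (hpl : PoleLE X K (m - 1) Ω)
    (hBrody : ∀ h : ℂ → Projectivization ℂ V, HolInto h Set.univ → (∀ z, (h z).rep ∈ K) → OrdTwo (fun z => (h z).rep) → (∃ z w, h z ≠ h w) →
      ∀ z, (h z).rep ∈ T)
    (f : ℂ → Projectivization ℂ V) (hf : HolInto f puncturedDisc) (hfK : ∀ z ∈ puncturedDisc, (f z).rep ∈ K)
    (hfT : ∃ z ∈ puncturedDisc, (f z).rep ∉ T) :
    ∃ g : ℂ → Projectivization ℂ V, HolInto g (ball 0 1) ∧ ∀ z ∈ puncturedDisc, g z = f z := by
  -- the isomorphism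
  obtain ⟨z₁, hz₁, hz₁T⟩ := hfT
  have hpos : 0 < Module.finrank ℂ V := Module.finrank_pos_iff_exists_ne_zero.mpr ⟨(f z₁).rep, (f z₁).rep_nonzero⟩
  obtain ⟨N, hN⟩ : ∃ N, Module.finrank ℂ V = N + 1 := ⟨Module.finrank ℂ V - 1, by omega⟩
  let L : V ≃L[ℂ] EN N := ContinuousLinearEquiv.ofFinrankEq (by rw [hN]; simp)
  set X' : Set (EN N) := L.symm ⁻¹' X with hX'
  set K' : Set (EN N) := L.symm ⁻¹' K with hK'
  set T' : Set (EN N) := L.symm ⁻¹' T with hT'
  have hTs : ∀ x ∈ T, ∀ c : ℂ, c ≠ 0 → c • x ∈ T := by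
    intro x hx c hc
    obtain ⟨h1, h2⟩ := (hT x).mp hx
    exact (hT _).mpr ⟨hX.smul x h1 c hc, by rw [hQs, h2, smul_zero]⟩
  have hTX : T ⊆ X := fun x hx => ((hT x).mp hx).1
  have hcone : IsCone X' := isCone_transport L hX
  have hT's : ∀ x ∈ T', ∀ c : ℂ, c ≠ 0 → c • x ∈ T' := by
    intro x hx c hc
    show L.symm (c • x) ∈ T
    rw [map_smul]
    exact hTs _ hx c hc
  have hK's : ∀ x ∈ K', ∀ c : ℂ, c ≠ 0 → c • x ∈ K' := by
    intro x hx c hc
    show L.symm (c • x) ∈ K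
    rw [map_smul]
    exact hK.smul _ hx c hc
  have hopen : IsOpenPart X' K' := ⟨fun x hx => hK.sub hx, hK's, fun x hx => (L.symm.continuous.tendsto x).eventually (hK.rel _ hx)⟩
  have hnodal : IsNodal X' K' T' := by
    intro x hx
    have hxT : L.symm x ∈ T := hx
    obtain ⟨σ, τ, hc, h0, nd, d, hnd, hd, hdn⟩ := hn (L.symm x) hxT
    have hg := germ_transport L hc
    have hLσ0 : L (σ 0) = x := by rw [h0, L.apply_symm_apply]
    have hnd' : ∀ᶠ p in 𝓝 (0 : ℂ × ℂ), (L (σ p) ∈ T' ↔ p.1 = 0 ∨ (nd = true ∧ p.2 = 0)) := by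
      filter_upwards [hnd] with p hp
      rw [← hp]
      show L.symm (L (σ p)) ∈ T ↔ _
      rw [L.symm_apply_apply]
    have hd' : ∀ᶠ p in 𝓝 (0 : ℂ × ℂ), (L (σ p) ∉ K' ↔ (d.1 = true ∧ p.1 = 0) ∨ (d.2 = true ∧ p.2 = 0)) := by
      filter_upwards [hd] with p hp
      rw [← hp]
      show L.symm (L (σ p)) ∉ K ↔ _
      rw [L.symm_apply_apply]
    obtain ⟨χ, h2, h3, h4, h5⟩ := exists_chart hcone hK's hT's hg hnd' hd'
    refine ⟨χ, nd, d, ?_, ?_, h4, h5, hdn⟩
    · rwa [hLσ0] at h2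
    · rwa [hLσ0] at h3
  have heq : IsEq X' T' (fun y => Q (L.symm y)) D := by
    refine ⟨fun x => (hQ _).comp ((L.symm : EN N →L[ℂ] V).analyticAt x), fun c x => ?_, fun x => ?_⟩
    · show Q (L.symm (c • x)) = _
      rw [map_smul, hQs]
    · exact hT (L.symm x)
  have hnz : (formT L hΩ).NoZeroOff T' := by
    intro x hx hxT v w hv hw hli
    refine hz (L.symm x) hx hxT _ (tan_transport L hv) _ (tan_transport L hw) ?_
    have h1 := hli.map' ((L.symm : EN N →L[ℂ] V) : EN N →ₗ[ℂ] V) (LinearMap.ker_eq_bot.mpr L.symm.injective)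
    have h2 : (((L.symm : EN N →L[ℂ] V) : EN N →ₗ[ℂ] V) ∘ ![x, v, w]) = ![L.symm x, L.symm v, L.symm w] := by
      funext i
      fin_cases i <;> rfl
    rw [h2] at h1
    exact h1
  have hpole : (formT L hΩ).PoleBound X' := poleBound_transport L hΩ hpl
  have hclX : ∀ x ∈ closure X', x ≠ 0 → x ∈ X' := fun x hx hx0 =>
    (hcone.closed.closure_subset_iff.mpr (Set.subset_insert 0 X') hx).resolve_left hx0
  obtain ⟨M', c₀, C, G, hM⟩ := Pool.Agent.H14.PP.exists_metric hcone hopen (fun x hx hxn => hKT _ hx hxn) heq hnodal hm hj (formT L hΩ) hnz hpole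
    (hur_of_affProper (fun x hx hx0 => hclX x (closure_mono hopen.subset hx) hx0) hK's (affProper_transport L hΦ))
  -- Brody
  have hbm : BrodyMod2 K' (K' ∩ T') := by
    intro F hF hFK hne hord z
    have hF0 : ∀ z, L.symm (F z) ≠ 0 := by
      intro z h
      apply hX.zero
      rw [← h]
      exact hK.sub (hFK z)
    have h1 : HolInto (fun z => Projectivization.mk ℂ (L.symm (F z)) (hF0 z)) Set.univ := by
      intro z₀ _
      exact ⟨fun z => L.symm (F z), ((L.symm : EN N →L[ℂ] V).analyticAt _).comp (hF.analyticAt z₀),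
        Filter.Eventually.of_forall fun z => ⟨hF0 z, rfl⟩⟩
    have h2 : ∀ z, (Projectivization.mk ℂ (L.symm (F z)) (hF0 z)).rep ∈ K := by
      intro z
      obtain ⟨a, ha, h3⟩ := rep_mk (hF0 z)
      rw [h3]
      exact hK.smul _ (hFK z) a ha
    have h20 : OrdTwo (fun z => (Projectivization.mk ℂ (L.symm (F z)) (hF0 z)).rep) := by
      refine (hord.equiv L.symm).congr fun z => ?_
      obtain ⟨a, ha, h3⟩ := rep_mk (hF0 z)
      exact ⟨a, ha, h3⟩
    have h3 := hBrody _ h1 h2 h20 (by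
      obtain ⟨a, b, hab⟩ := hne
      refine ⟨a, b, fun h => ?_⟩
      rw [Projectivization.mk_eq_mk_iff'] at h
      obtain ⟨c, hc⟩ := h
      apply hab c
      apply L.symm.injective
      rw [map_smul]
      exact hc.symm) z
    obtain ⟨a, ha, h4⟩ := rep_mk (hF0 z)
    rw [h4] at h3
    have h5 := hTs _ h3 a⁻¹ (inv_ne_zero ha)
    rw [smul_smul, inv_mul_cancel₀ ha, one_smul] at h5
    exact ⟨hFK z, h5⟩
  have hρ : ∀ x ∈ K', x ∈ K' ∩ T' → Pool.Agent.H14.PP.rho (fun y => Q (L.symm y)) D x = 0 := by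
    intro x _ hx
    have h1 := ((hT _).mp hx.2).2
    unfold Pool.Agent.H14.PP.rho
    simp only
    rw [h1, norm_zero, zero_div]
  obtain ⟨g, hg, hgf⟩ := picard_cone2 hM hbm (fun x hx c hc => ⟨hK's x hx.1 c hc, hT's x hx.2 c hc⟩) hρ (fun z => toPN L (f z)) (holomorphicInto_toPN L hf)
    (fun z hz => (toPN_mem L hK.smul (f z)).mpr (hfK z hz)) ⟨z₁, hz₁, fun h => hz₁T ((toPN_mem L hTs (f z₁)).mp h.2)⟩
  exact ⟨fun z => ofPN L (g z), holInto_ofPN L hg, fun z hz => by simp only; rw [hgf z hz, ofPN_toPN]⟩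

end Pool.Agent.H36.BPL
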