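import Pool.Agent.H36.BPL.Defs

/-!
# BPL Pair: an analytic subset of a nodal curve given by one equation is a union of branches
-/

set_option autoImplicit false

namespace Pool.Agent.H36.BPL

open Filter Topology Metric
open Pool.Agent.H17BP (Surface IsChart IsForm NoZeros NodalAt)

variable {V : Type} [NormedAddCommGroup V] [NormedSpace ℂ V]

/-- a zero of an analytic function of two variables is not isolated -/
theorem freq_zero {g : ℂ × ℂ → ℂ} (hg : AnalyticAt ℂ g 0) (h0 : g 0 = 0) : ∃ᶠ p in 𝓝[≠] (0 : ℂ × ℂ), g p = 0 := by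
  by_contra hcon
  rw [not_frequently, eventually_nhdsWithin_iff] at hcon
  obtain ⟨r₀, hr₀, hr₀g⟩ := Metric.eventually_nhds_iff_ball.mp (hcon.and hg.eventually_analyticAt)
  set r : ℝ := r₀ / 2 with hr
  have hr0 : 0 < r := by rw [hr]; positivity
  have hrlt : r < r₀ := by rw [hr]; linarith
  have hmem : ∀ s t : ℂ, ‖s‖ ≤ r → ‖t‖ ≤ r → (s, t) ∈ ball (0 : ℂ × ℂ) r₀ := by
    intro s t hs ht
    rw [mem_ball_zero_iff, Prod.norm_def]
    exact (max_le hs ht).trans_lt hrlt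
  have hne : ∀ s t : ℂ, ‖s‖ ≤ r → ‖t‖ ≤ r → (s, t) ≠ (0 : ℂ × ℂ) → g (s, t) ≠ 0 := fun s t hs ht hst => (hr₀g _ (hmem s t hs ht)).1 hst
  have hcont : ContinuousOn g (ball (0 : ℂ × ℂ) r₀) := fun p hp => (hr₀g p hp).2.continuousAt.continuousWithinAt
  -- a lower bound on the compact set
  have hcomp : IsCompact (closedBall (0 : ℂ) r ×ˢ sphere (0 : ℂ) r) := (isCompact_closedBall _ _).prod (isCompact_sphere _ _)
  have hnon : (closedBall (0 : ℂ) r ×ˢ sphere (0 : ℂ) r).Nonempty := by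
    refine ⟨(0, (r : ℂ)), ?_, ?_⟩
    · exact mem_closedBall_self hr0.le
    · rw [mem_sphere_zero_iff_norm, Complex.norm_real, Real.norm_of_nonneg hr0.le]
  obtain ⟨p₀, hp₀, hp₀m⟩ := hcomp.exists_isMinOn hnon (f := fun p => ‖g p‖) (by
    refine (hcont.mono ?_).norm
    rintro ⟨s, t⟩ ⟨hs, ht⟩
    exact hmem s t (by simpa using hs) (by rw [mem_sphere_zero_iff_norm] at ht; exact ht.le))
  obtain ⟨s₀, t₀⟩ := p₀
  set c : ℝ := ‖g (s₀, t₀)‖ with hc
  have ht₀ : ‖t₀‖ = r := by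
    have := hp₀.2
    rwa [mem_sphere_zero_iff_norm] at this
  have hc0 : 0 < c := by
    rw [hc, norm_pos_iff]
    refine hne s₀ t₀ (by simpa using hp₀.1) ht₀.le ?_
    intro h
    have h1 : t₀ = 0 := congrArg Prod.snd h
    rw [h1, norm_zero] at ht₀
    exact hr0.ne ht₀
  have hlow : ∀ s : ℂ, s ≠ 0 → ‖s‖ ≤ r → c ≤ ‖g (s, 0)‖ := by
    intro s hs0 hs
    have hga : ∀ t : ℂ, ‖t‖ ≤ r → DifferentiableAt ℂ (fun t => (g (s, t))⁻¹) t := by
      intro t ht
      have h1 : AnalyticAt ℂ g (s, t) := (hr₀g _ (hmem s t hs ht)).2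
      have h2 : AnalyticAt ℂ (fun t : ℂ => g (s, t)) t := AnalyticAt.comp (g := g) (f := fun t : ℂ => (s, t)) h1 (analyticAt_const.prod analyticAt_id)
      refine h2.differentiableAt.inv (hne s t hs ht ?_)
      intro h
      exact hs0 (congrArg Prod.fst h)
    have hd : DiffContOnCl ℂ (fun t => (g (s, t))⁻¹) (ball 0 r) := by
      refine DifferentiableOn.diffContOnCl ?_
      rw [closure_ball _ hr0.ne']
      intro t ht
      exact (hga t (by simpa using ht)).differentiableWithinAt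
    have h3 := Complex.norm_le_of_forall_mem_frontier_norm_le isBounded_ball hd (C := c⁻¹) (fun t ht => by
      rw [frontier_ball _ hr0.ne', mem_sphere_zero_iff_norm] at ht
      rw [norm_inv]
      have h4 : c ≤ ‖g (s, t)‖ := hp₀m ⟨by simpa using hs, by rw [mem_sphere_zero_iff_norm]; exact ht⟩
      gcongr) (subset_closure (mem_ball_self hr0))
    rw [norm_inv] at h3
    have h5 : 0 < ‖g (s, 0)‖ := norm_pos_iff.mpr (hne s 0 hs (by rw [norm_zero]; exact hr0.le) fun h => hs0 (congrArg Prod.fst h))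
    exact (inv_le_inv₀ h5 hc0).mp h3
  -- the limit
  have h6 : Tendsto (fun s : ℂ => ‖g (s, 0)‖) (𝓝[≠] 0) (𝓝 0) := by
    have h7 : ContinuousAt (fun s : ℂ => ‖g (s, 0)‖) 0 := by
      have h8 : ContinuousAt (fun s : ℂ => (s, (0 : ℂ))) 0 := (continuous_id.prodMk continuous_const).continuousAt
      exact (ContinuousAt.comp (g := g) (f := fun s : ℂ => (s, (0 : ℂ))) hg.continuousAt h8).norm
    have h9 := h7.tendsto
    have h10 : ‖g ((0 : ℂ), 0)‖ = 0 := by
      rw [show ((0 : ℂ), (0 : ℂ)) = (0 : ℂ × ℂ) from rfl, h0, norm_zero]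
    rw [h10] at h9
    exact h9.mono_left nhdsWithin_le_nhds
  have h11 : ∀ᶠ s : ℂ in 𝓝[≠] 0, c ≤ ‖g (s, 0)‖ := by
    rw [eventually_nhdsWithin_iff]
    have h12 : ∀ᶠ s : ℂ in 𝓝 0, s ∈ ball (0 : ℂ) r := ball_mem_nhds _ hr0
    filter_upwards [h12] with s hs hs0
    exact hlow s hs0 (by rw [mem_ball_zero_iff] at hs; exact hs.le)
  exact absurd (ge_of_tendsto h6 h11) (not_le.mpr hc0)

/-- the restriction of a function of two variables to an axis -/
theorem axis_dich {g : ℂ × ℂ → ℂ} (hg : AnalyticAt ℂ g 0) {γ : ℂ → ℂ × ℂ} (hγ : AnalyticAt ℂ γ 0) (h0 : γ 0 = 0) :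
    (∀ᶠ t in 𝓝 (0 : ℂ), g (γ t) = 0) ∨ ∀ᶠ t in 𝓝 (0 : ℂ), t ≠ 0 → g (γ t) ≠ 0 := by
  have h1 : AnalyticAt ℂ (fun t => g (γ t)) 0 := AnalyticAt.comp (g := g) (f := γ) (by rw [h0]; exact hg) hγ
  rcases h1.eventually_eq_zero_or_eventually_ne_zero with h | h
  · exact Or.inl h
  · exact Or.inr (eventually_nhdsWithin_iff.mp h)

theorem pairNodal_of_nodal {X K T : Set V} (hK : OpenPart X K) (hKT : ∀ x ∈ X, x ∉ K → x ∈ T) {x : V} (hx : x ∈ X) (hxT : x ∈ T) (hn : NodalAt X T x) :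
    PairNodalAt X K T x := by
  obtain ⟨σ, τ, hc, hσ0, hcase⟩ := hn
  obtain ⟨h, hh, hhe⟩ := hK.eqn x hx
  set g : ℂ × ℂ → ℂ := fun p => h (σ p) with hgdef
  have hσt : Tendsto σ (𝓝 0) (𝓝 x) := by
    have := hc.σ_an.continuousAt.tendsto
    rwa [hσ0] at this
  have hg : AnalyticAt ℂ g 0 := AnalyticAt.comp (g := h) (f := σ) (by rw [hσ0]; exact hh) hc.σ_an
  have hgK : ∀ᶠ p in 𝓝 (0 : ℂ × ℂ), (σ p ∉ K ↔ g p = 0) := by
    filter_upwards [hσt.eventually hhe, hc.σ_mem] with p h1 h2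
    exact h1 h2
  have hgT : ∀ᶠ p in 𝓝 (0 : ℂ × ℂ), g p = 0 → σ p ∈ T := by
    filter_upwards [hgK, hc.σ_mem] with p h1 h2 h3
    exact hKT _ h2 (h1.mpr h3)
  have hA1 := axis_dich hg (γ := fun t => (0, t)) (analyticAt_const.prod analyticAt_id) rfl
  have hA2 := axis_dich hg (γ := fun s => (s, 0)) (analyticAt_id.prod analyticAt_const) rfl
  have hsnd : Tendsto (fun p : ℂ × ℂ => p.2) (𝓝 0) (𝓝 0) := continuous_snd.tendsto 0
  have hfst : Tendsto (fun p : ℂ × ℂ => p.1) (𝓝 0) (𝓝 0) := continuous_fst.tendsto 0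
  -- `g 0 = 0` and no zero near `0` except `0` is impossible
  have hiso : (∀ᶠ p in 𝓝 (0 : ℂ × ℂ), p ≠ 0 → g p ≠ 0) → g 0 ≠ 0 := by
    intro h1 h2
    obtain ⟨p, hp1, hp2⟩ := ((freq_zero hg h2).and_eventually (eventually_nhdsWithin_iff.mpr h1)).exists
    exact hp2 hp1
  have hno : (∀ᶠ p in 𝓝 (0 : ℂ × ℂ), p ≠ 0 → g p ≠ 0) → ∀ᶠ p in 𝓝 (0 : ℂ × ℂ), σ p ∈ K := by
    intro h1
    have h2 := hiso h1
    filter_upwards [h1, hgK] with p h3 h4
    by_contra h5
    have h6 := h4.mp h5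
    by_cases h7 : p = 0
    · rw [h7] at h6
      exact h2 h6
    · exact h3 h7 h6
  rcases hcase with h1 | h1 | h1
  · exact absurd (hσ0 ▸ hxT) h1.self_of_nhds
  · -- smooth
    have hTt : ∀ᶠ p in 𝓝 (0 : ℂ × ℂ), (σ p ∈ T ↔ p.1 = 0 ∨ (false = true ∧ p.2 = 0)) := by
      filter_upwards [h1] with p hp
      rw [hp]
      simp
    rcases hA1 with h2 | h2
    · refine ⟨σ, τ, hc, hσ0, false, (true, false), hTt, ?_, by simp⟩
      filter_upwards [hgK, hgT, hsnd.eventually h2, h1] with p e1 e2 e3 e4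
      rw [e1]
      constructor
      · intro e5
        exact Or.inl ⟨rfl, e4.mp (e2 e5)⟩
      · rintro (⟨-, e5⟩ | ⟨e5, -⟩)
        · have e6 : p = (0, p.2) := Prod.ext e5 rfl
          rw [e6]
          exact e3
        · simp at e5
    · refine ⟨σ, τ, hc, hσ0, false, (false, false), hTt, ?_, by simp⟩
      have h3 : ∀ᶠ p in 𝓝 (0 : ℂ × ℂ), p ≠ 0 → g p ≠ 0 := by
        filter_upwards [hgT, hsnd.eventually h2, h1] with p e2 e3 e4 e5 e6
        have e7 : p.1 = 0 := e4.mp (e2 e6)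
        have e8 : p = (0, p.2) := Prod.ext e7 rfl
        refine e3 ?_ (by rw [← e8]; exact e6)
        intro e9
        exact e5 (Prod.ext e7 e9)
      filter_upwards [hno h3] with p e1
      simp [e1]
  · -- node
    have hTt : ∀ᶠ p in 𝓝 (0 : ℂ × ℂ), (σ p ∈ T ↔ p.1 = 0 ∨ (true = true ∧ p.2 = 0)) := by
      filter_upwards [h1] with p hp
      rw [hp]
      simp
    have hz : ∀ᶠ p in 𝓝 (0 : ℂ × ℂ), g p = 0 → p.1 = 0 ∨ p.2 = 0 := by
      filter_upwards [hgT, h1] with p e1 e2 e3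
      have := e2.mp (e1 e3)
      simpa using this
    rcases hA1 with h2 | h2 <;> rcases hA2 with h3 | h3
    · refine ⟨σ, τ, hc, hσ0, true, (true, true), hTt, ?_, by simp⟩
      filter_upwards [hgK, hz, hsnd.eventually h2, hfst.eventually h3] with p e1 e2 e3 e4
      rw [e1]
      constructor
      · intro e5
        rcases e2 e5 with e6 | e6
        · exact Or.inl ⟨rfl, e6⟩
        · exact Or.inr ⟨rfl, e6⟩
      · rintro (⟨-, e5⟩ | ⟨-, e5⟩)
        · have e6 : p = (0, p.2) := Prod.ext e5 rfl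
          rw [e6]
          exact e3
        · have e6 : p = (p.1, 0) := Prod.ext rfl e5
          rw [e6]
          exact e4
    · refine ⟨σ, τ, hc, hσ0, true, (true, false), hTt, ?_, by simp⟩
      have h0 : g 0 = 0 := h2.self_of_nhds
      filter_upwards [hgK, hz, hsnd.eventually h2, hfst.eventually h3] with p e1 e2 e3 e4
      rw [e1]
      constructor
      · intro e5
        rcases e2 e5 with e6 | e6
        · exact Or.inl ⟨rfl, e6⟩
        · by_cases e7 : p.1 = 0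
          · exact Or.inl ⟨rfl, e7⟩
          · exfalso
            have e8 : p = (p.1, 0) := Prod.ext rfl e6
            exact e4 e7 (by rw [← e8]; exact e5)
      · rintro (⟨-, e5⟩ | ⟨e5, -⟩)
        · have e6 : p = (0, p.2) := Prod.ext e5 rfl
          rw [e6]
          exact e3
        · simp at e5
    · refine ⟨σ, τ, hc, hσ0, true, (false, true), hTt, ?_, by simp⟩
      filter_upwards [hgK, hz, hsnd.eventually h2, hfst.eventually h3] with p e1 e2 e3 e4
      rw [e1]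
      constructor
      · intro e5
        rcases e2 e5 with e6 | e6
        · by_cases e7 : p.2 = 0
          · exact Or.inr ⟨rfl, e7⟩
          · exfalso
            have e8 : p = (0, p.2) := Prod.ext e6 rfl
            exact e3 e7 (by rw [← e8]; exact e5)
        · exact Or.inr ⟨rfl, e6⟩
      · rintro (⟨e5, -⟩ | ⟨-, e5⟩)
        · simp at e5
        · have e6 : p = (p.1, 0) := Prod.ext rfl e5
          rw [e6]
          exact e4
    · refine ⟨σ, τ, hc, hσ0, true, (false, false), hTt, ?_, by simp⟩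
      have h4 : ∀ᶠ p in 𝓝 (0 : ℂ × ℂ), p ≠ 0 → g p ≠ 0 := by
        filter_upwards [hz, hsnd.eventually h2, hfst.eventually h3] with p e1 e2 e3 e4 e5
        rcases e1 e5 with e6 | e6
        · have e7 : p = (0, p.2) := Prod.ext e6 rfl
          refine e2 (fun e8 => e4 (Prod.ext e6 e8)) (by rw [← e7]; exact e5)
        · have e7 : p = (p.1, 0) := Prod.ext rfl e6
          refine e3 (fun e8 => e4 (Prod.ext e8 e6)) (by rw [← e7]; exact e5)
      filter_upwards [hno h4] with p e1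
      simp [e1]

end Pool.Agent.H36.BPL
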