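import Pool.Agent.H17BP.Model
import Pool.Agent.H36.BPL.NodalK
import Pool.Agent.H36.BPL.Pair
import Pool.Agent.H36.BPL.Brody2

/-!
# BPL Wrap: from maps into the projective space to functions
-/

set_option autoImplicit false

open Topology Filter

noncomputable section

namespace Pool.Agent.H36.BPL

open Pool.Agent.H17 (puncturedDisc)
open Pool.Agent.H36.BP (HolInto rep_mk OrdTwo)
open Pool.Agent.H17BP (Surface IsChart IsForm NoZeros NodalAt Pr HolP Picard Eqs)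

variable {V : Type} [NormedAddCommGroup V] [NormedSpace ℂ V]

/-- the point of the projective space of a vector -/
def W_pt (x₁ : V) (hx₁ : x₁ ≠ 0) (x : V) : Projectivization ℂ V :=
  open Classical in if h : x ≠ 0 then Projectivization.mk ℂ x h else Projectivization.mk ℂ x₁ hx₁

theorem W_pt_eq (x₁ : V) (hx₁ : x₁ ≠ 0) {x y : V} (hy : y ≠ 0) (h : Pr x y) : W_pt x₁ hx₁ x = Projectivization.mk ℂ y hy := by
  obtain ⟨c, hc, rfl⟩ := h
  have h1 : c • y ≠ 0 := smul_ne_zero hc hy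
  unfold W_pt
  rw [dif_pos h1, Projectivization.mk_eq_mk_iff']
  exact ⟨c, rfl⟩

theorem W_pr_of_mk {x y : V} (hx : x ≠ 0) (hy : y ≠ 0) (h : Projectivization.mk ℂ x hx = Projectivization.mk ℂ y hy) : Pr x y := by
  rw [Projectivization.mk_eq_mk_iff'] at h
  obtain ⟨c, hc⟩ := h
  refine ⟨c, ?_, hc.symm⟩
  rintro rfl
  rw [zero_smul] at hc
  exact hx hc.symm

/-- the family of equations as one function -/
def W_Q {κ : Type} [Fintype κ] (Q : κ → V → ℂ) (x : V) : EuclideanSpace ℂ κ := WithLp.toLp 2 fun i => Q i x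

theorem W_mem {z : ℂ} : z ∈ puncturedDisc ↔ z ≠ 0 ∧ ‖z‖ < 1 := by
  unfold puncturedDisc
  simp [and_comm]

theorem W_brody {X B : Set V} (hX : ∀ x ∈ X, ∀ c : ℂ, c ≠ 0 → c • x ∈ X) (h : Brody2 X B) (f : ℂ → Projectivization ℂ V)
    (hf : HolInto f Set.univ) (hfX : ∀ z, (f z).rep ∈ X) (hord : OrdTwo (fun z => (f z).rep)) (hne : ∃ z w, f z ≠ f w) : ∀ z, (f z).rep ∈ B := by
  by_contra hcon
  push Not at hcon
  have h1 := h (fun z => (f z).rep) (fun z₀ => by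
    obtain ⟨φ, hφ, he⟩ := hf z₀ (Set.mem_univ _)
    refine ⟨φ, hφ, he.self_of_nhds.1, ?_⟩
    filter_upwards [he] with z hz
    obtain ⟨h1, h2⟩ := hz
    obtain ⟨a, ha, h3⟩ := rep_mk h1
    exact ⟨a, ha, by rw [h2, h3]⟩) hfX hord hcon
  obtain ⟨z, w, hzw⟩ := hne
  apply hzw
  obtain ⟨c, hc, h2⟩ := h1 z w
  rw [← (f z).mk_rep, ← (f w).mk_rep, Projectivization.mk_eq_mk_iff']
  exact ⟨c, h2.symm⟩

/-- from maps into the projective space to functions -/
theorem W_picard {X B : Set V} (h0 : (0 : V) ∉ X) (hX : ∀ x ∈ X, ∀ c : ℂ, c ≠ 0 → c • x ∈ X) (hB : ∀ x ∈ B, ∀ c : ℂ, c ≠ 0 → c • x ∈ B)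
    (hP : ∀ f : ℂ → Projectivization ℂ V, HolInto f puncturedDisc → (∀ z ∈ puncturedDisc, (f z).rep ∈ X) →
      (∃ z ∈ puncturedDisc, (f z).rep ∉ B) →
      ∃ g : ℂ → Projectivization ℂ V, HolInto g (Metric.ball 0 1) ∧ ∀ z ∈ puncturedDisc, g z = f z) : Picard X B := by
  intro r hr f hf hfB
  obtain ⟨z₁, hz₁, hz₁r, hz₁B⟩ := hfB
  have hne : ∀ x ∈ X, x ≠ 0 := fun x hx e => h0 (e ▸ hx)
  have hx₁ : f z₁ ≠ 0 := hne _ (hf z₁ hz₁ hz₁r).2
  have hrC : (r : ℂ) ≠ 0 := by exact_mod_cast hr.ne'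
  have hsc : ∀ z ∈ puncturedDisc, (r : ℂ) * z ≠ 0 ∧ ‖(r : ℂ) * z‖ < r := by
    intro z hz
    obtain ⟨h1, h2⟩ := W_mem.mp hz
    refine ⟨mul_ne_zero hrC h1, ?_⟩
    rw [norm_mul, Complex.norm_real, Real.norm_of_nonneg hr.le]
    nlinarith
  set p : ℂ → Projectivization ℂ V := fun z => W_pt (f z₁) hx₁ (f (r * z)) with hp
  have hrefl : ∀ x : V, Pr x x := fun x => ⟨1, one_ne_zero, (one_smul _ _).symm⟩
  have hpz : ∀ z ∈ puncturedDisc, ∀ h : f (r * z) ≠ 0, p z = Projectivization.mk ℂ (f (r * z)) h :=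
    fun z _ h => W_pt_eq _ _ h (hrefl _)
  obtain ⟨g, hg, hgf⟩ := hP p (fun z₀ hz₀ => by
    obtain ⟨h1, h2⟩ := hsc z₀ hz₀
    obtain ⟨F, hF, hF0, hFe⟩ := (hf _ h1 h2).1
    have hmul : AnalyticAt ℂ (fun z : ℂ => (r : ℂ) * z) z₀ := analyticAt_const.mul analyticAt_id
    have hF' : AnalyticAt ℂ (fun z : ℂ => F ((r : ℂ) * z)) z₀ := AnalyticAt.comp (g := F) (f := fun z : ℂ => (r : ℂ) * z) hF hmul
    refine ⟨fun z => F (r * z), hF', ?_⟩
    filter_upwards [hF'.continuousAt.eventually_ne hF0, hmul.continuousAt.eventually hFe] with z h3 h4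
    exact ⟨h3, W_pt_eq _ _ h3 h4⟩) (fun z hz => by
    obtain ⟨h1, h2⟩ := hsc z hz
    have h3 := (hf _ h1 h2).2
    rw [hpz z hz (hne _ h3)]
    obtain ⟨a, ha, h4⟩ := rep_mk (hne _ h3)
    rw [h4]
    exact hX _ h3 a ha) ⟨z₁ / r, by
      rw [W_mem]
      constructor
      · exact div_ne_zero hz₁ hrC
      · rw [norm_div, Complex.norm_real, Real.norm_of_nonneg hr.le, div_lt_one hr]
        exact hz₁r, by
      have h1 : (r : ℂ) * (z₁ / r) = z₁ := by field_simp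
      have h2 : p (z₁ / r) = Projectivization.mk ℂ (f z₁) hx₁ := by
        rw [hp]
        simp only [h1]
        exact W_pt_eq _ _ hx₁ (hrefl _)
      rw [h2]
      obtain ⟨a, ha, h4⟩ := rep_mk hx₁
      rw [h4]
      intro h5
      apply hz₁B
      have h6 := hB _ h5 a⁻¹ (inv_ne_zero ha)
      rwa [smul_smul, inv_mul_cancel₀ ha, one_smul] at h6⟩
  obtain ⟨φ, hφ, hφe⟩ := hg 0 (Metric.mem_ball_self one_pos)
  have hdiv : AnalyticAt ℂ (fun z : ℂ => z / (r : ℂ)) 0 := analyticAt_id.div analyticAt_const hrC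
  have hφ0 : φ 0 ≠ 0 := hφe.self_of_nhds.1
  refine ⟨fun z => φ (z / r), AnalyticAt.comp (g := φ) (f := fun z : ℂ => z / (r : ℂ)) (by rw [zero_div]; exact hφ) hdiv, by simpa using hφ0, ?_⟩
  have ht : Tendsto (fun z : ℂ => z / (r : ℂ)) (𝓝 0) (𝓝 0) := by
    have := hdiv.continuousAt.tendsto
    rwa [zero_div] at this
  have hnear : ∀ᶠ z : ℂ in 𝓝 0, ‖z‖ < r := by
    have : ContinuousAt (fun z : ℂ => ‖z‖) 0 := continuous_norm.continuousAt
    exact this.eventually_lt continuousAt_const (by simpa using hr)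
  rw [eventually_nhdsWithin_iff]
  filter_upwards [ht.eventually hφe, hnear] with z h1 h2 h3
  obtain ⟨h4, h5⟩ := h1
  have hz0 : z ≠ 0 := h3
  have hzp : z / r ∈ puncturedDisc := by
    rw [W_mem]
    constructor
    · exact div_ne_zero hz0 hrC
    · rw [norm_div, Complex.norm_real, Real.norm_of_nonneg hr.le, div_lt_one hr]
      exact h2
  have h6 := hgf _ hzp
  have h7 : (r : ℂ) * (z / r) = z := by field_simp
  have h8 : f z ≠ 0 := hne _ (hf z hz0 h2).2
  have h9 := hpz _ hzp (by rw [h7]; exact h8)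
  rw [h5, h9] at h6
  have h10 := W_pr_of_mk _ _ h6.symm
  rwa [h7] at h10

/-- A closed surface `X`, an open part `K` of it, a curve `T ⊇ X ∖ K`, a section `Ω` of `m K_X - j H` on `K` without zeros outside `T` and with
poles of order at most `m - 1` along `X ∖ K`, such that every entire curve of order at most two in `K` which is not a map into `T` is constant. -/
structure ModelK (X K T : Set V) (m j : ℕ) (Ω : V → V → V → ℂ) {κ : Type} (Q : κ → V → ℂ) (D : ℕ) : Prop where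
  surf : Surface X
  opn : OpenPart X K
  aff : ∃ (M : ℕ) (Φ : V → Fin M → ℂ), AffProper X K Φ
  sub : ∀ x ∈ X, x ∉ K → x ∈ T
  one_m : 1 ≤ m
  one_j : 1 ≤ j
  form : IsForm K m j Ω
  noZeros : NoZeros K T Ω
  pole : PoleLE X K (m - 1) Ω
  eqs : Eqs X T Q D
  thin : ∀ σ τ, IsChart X σ τ → ∃ᶠ p in 𝓝 (0 : ℂ × ℂ), σ p ∉ T
  brody : Brody2 K T

/-- The extension theorem for an open surface with a nodal curve. -/
theorem nodalK [FiniteDimensional ℂ V] {X K T : Set V}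
    {m j : ℕ} {Ω : V → V → V → ℂ} {κ : Type} [Fintype κ] {Q : κ → V → ℂ} {D : ℕ} (h : ModelK X K T m j Ω Q D)
    (hn : ∀ x ∈ X, NodalAt X T x) : Picard K T := by
  have hX := h.surf.smul
  have hT : ∀ x ∈ T, ∀ c : ℂ, c ≠ 0 → c • x ∈ T := by
    intro x hx c hc
    have h1 := (h.eqs.mem_iff x).1 hx
    exact (h.eqs.mem_iff _).2 ⟨hX x h1.1 c hc, fun i => by rw [h.eqs.smul, h1.2 i, mul_zero]⟩
  have hTX : ∀ x ∈ T, x ∈ X := fun x hx => ((h.eqs.mem_iff x).1 hx).1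
  obtain ⟨M, Φ, hΦ⟩ := h.aff
  refine W_picard (fun h0 => h.surf.zero (h.opn.sub h0)) h.opn.smul hT fun f hf hfX hfB => ?_
  refine nodalK_picard (Q := W_Q Q) (D := D) h.surf h.opn hΦ h.sub (fun x => ?_) (fun c x => ?_) (fun x => ?_)
    (fun x hx => pairNodal_of_nodal h.opn h.sub (hTX x hx) hx (hn x (hTX x hx))) h.one_m h.one_j h.form h.noZeros h.pole
    (W_brody h.opn.smul h.brody) f hf hfX hfB
  · have h1 : AnalyticAt ℂ (fun x : V => fun i => Q i x) x := by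
      rw [analyticAt_pi_iff]
      exact fun i => h.eqs.an i x
    exact AnalyticAt.comp (g := (WithLp.toLp 2 : (κ → ℂ) → EuclideanSpace ℂ κ)) (f := fun x : V => fun i => Q i x)
      ((EuclideanSpace.equiv κ ℂ).symm.analyticAt _) h1
  · unfold W_Q
    rw [← WithLp.toLp_smul]
    congr 1
    funext i
    simp [h.eqs.smul]
  · rw [h.eqs.mem_iff]
    unfold W_Q
    constructor
    · rintro ⟨h1, h2⟩
      refine ⟨h1, ?_⟩
      have h3 : (fun i => Q i x) = (0 : κ → ℂ) := funext h2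
      rw [h3]
      rfl
    · rintro ⟨h1, h2⟩
      refine ⟨h1, fun i => ?_⟩
      have h3 := congrFun (congrArg WithLp.ofLp h2) i
      exact h3

end Pool.Agent.H36.BPL
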