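import Pool.Agent.H36.BPL.IndK
import Pool.Agent.H17BP.Final
import Pool.Agent.H13.OT.Wrap

/-!
# BPL Start: from the extension theorem for models to complements of hypersurface sections

`P` is the ideal of a smooth closed surface in `ℙ^N`, `H m` are forms (`b` of them, `b = 0` is the closed case) and
`coneK P H` is the cone over the complement of the hypersurfaces `H m = 0`.
-/

set_option autoImplicit false

open Topology Filter MvPolynomial

noncomputable section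

namespace Pool.Agent.H36.BPL

open Pool.Agent.H17 (PN VanishesAt ZariskiClosedIn HolomorphicInto puncturedDisc PseudoBrodyHyperbolic
  PseudoPicardHyperbolic)
open Pool.Agent.H62.FC (Homog)
open Pool.Agent.H17R (openVar)
open Pool.Agent.H17BP (Surface IsChart IsForm NoZeros NodalAt Pr HolP Brody Picard Eqs Tan cone variety rep_mk_fin eval_smul_form
  rep_mem_cone vanishesAt_mk holP_rep)
open Pool.Agent.H13.OT (OrderTwo PseudoBrodyOrderTwo brody2_of_curves)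

variable {N : ℕ} {P : Ideal (MvPolynomial (Fin (N + 1)) ℂ)} {b : ℕ} {H : Fin b → MvPolynomial (Fin (N + 1)) ℂ}

/-- The cone over the complement of the hypersurfaces `H m = 0`. -/
def coneK (P : Ideal (MvPolynomial (Fin (N + 1)) ℂ)) (H : Fin b → MvPolynomial (Fin (N + 1)) ℂ) :
    Set (Fin (N + 1) → ℂ) :=
  {x | x ∈ cone P ∧ ∀ m, eval x (H m) ≠ 0}

theorem analyticAt_form (Q : MvPolynomial (Fin (N + 1)) ℂ) (x : Fin (N + 1) → ℂ) :
    AnalyticAt ℂ (fun y : Fin (N + 1) → ℂ => eval y Q) x := by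
  have h : ∀ i : Fin (N + 1), AnalyticAt ℂ (fun y : Fin (N + 1) → ℂ => y i) x := fun i =>
    (ContinuousLinearMap.proj (R := ℂ) (φ := fun _ : Fin (N + 1) => ℂ) i).analyticAt x
  have := AnalyticAt.aeval_mvPolynomial (𝕜 := ℂ) h Q
  simpa [MvPolynomial.aeval_eq_eval] using this

theorem eval_prod_ne {x : Fin (N + 1) → ℂ} : eval x (∏ m, H m) ≠ 0 ↔ ∀ m, eval x (H m) ≠ 0 := by
  rw [map_prod, Finset.prod_ne_zero_iff]
  simp

theorem mem_coneK_iff {x : Fin (N + 1) → ℂ} : x ∈ coneK P H ↔ x ∈ cone P ∧ eval x (∏ m, H m) ≠ 0 := by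
  rw [eval_prod_ne]
  rfl

theorem mem_cone_notMem {x : Fin (N + 1) → ℂ} (hx : x ∈ cone P) : x ∉ coneK P H ↔ eval x (∏ m, H m) = 0 := by
  rw [mem_coneK_iff, not_and, not_not]
  exact ⟨fun h => h hx, fun h _ => h⟩

theorem rep_mem_coneK (hP : Homog P) {e : Fin b → ℕ} (hH : ∀ m, (H m).IsHomogeneous (e m)) {x : PN N} :
    x.rep ∈ coneK P H ↔ x ∈ openVar P H := by
  have h1 : ∀ m, VanishesAt (H m) x ↔ eval x.rep (H m) = 0 := by
    intro m
    have h2 := vanishesAt_mk (hH m) x.rep_nonzero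
    rwa [Projectivization.mk_rep] at h2
  constructor
  · rintro ⟨h2, h3⟩
    exact ⟨((rep_mem_cone hP).1 h2).1, fun m h4 => h3 m ((h1 m).1 h4)⟩
  · rintro ⟨h2, h3⟩
    exact ⟨(rep_mem_cone hP).2 ⟨h2, fun m => m.elim0⟩, fun m h4 => h3 m ((h1 m).2 h4)⟩

theorem coneK_smul {e : Fin b → ℕ} (hH : ∀ m, (H m).IsHomogeneous (e m)) (hX : ∀ x ∈ cone P, ∀ c : ℂ, c ≠ 0 → c • x ∈ cone P) :
    ∀ x ∈ coneK P H, ∀ c : ℂ, c ≠ 0 → c • x ∈ coneK P H := by
  rintro x ⟨h1, h2⟩ c hc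
  refine ⟨hX x h1 c hc, fun m => ?_⟩
  rw [eval_smul_form (hH m)]
  exact mul_ne_zero (pow_ne_zero _ hc) (h2 m)

theorem mk_mem_openVar (hP : Homog P) {e : Fin b → ℕ} (hH : ∀ m, (H m).IsHomogeneous (e m)) {x : Fin (N + 1) → ℂ} (hx : x ≠ 0)
    (hX : ∀ x ∈ cone P, ∀ c : ℂ, c ≠ 0 → c • x ∈ cone P) :
    Projectivization.mk ℂ x hx ∈ openVar P H ↔ x ∈ coneK P H := by
  rw [← rep_mem_coneK hP hH]
  obtain ⟨a, ha, h⟩ := rep_mk_fin hx
  rw [h]
  constructor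
  · intro h1
    have h2 := coneK_smul hH hX _ h1 a⁻¹ (inv_ne_zero ha)
    rwa [smul_smul, inv_mul_cancel₀ ha, one_smul] at h2
  · intro h1
    exact coneK_smul hH hX _ h1 a ha

theorem openPart_coneK {e : Fin b → ℕ} (hH : ∀ m, (H m).IsHomogeneous (e m))
    (hX : ∀ x ∈ cone P, ∀ c : ℂ, c ≠ 0 → c • x ∈ cone P) : OpenPart (cone P) (coneK P H) where
  sub _ hx := hx.1
  smul := coneK_smul hH hX
  eqn x _ := ⟨fun y => eval y (∏ m, H m), analyticAt_form _ x,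
    Filter.Eventually.of_forall fun _ hy => mem_cone_notMem hy⟩

/-- The quotients `x_i ^ d / H₀` where `H₀` is the product of the forms `H m` and `d` is its degree. -/
def affMap (H : Fin b → MvPolynomial (Fin (N + 1)) ℂ) (d : ℕ) (x : Fin (N + 1) → ℂ) (i : Fin (N + 1)) : ℂ :=
  x i ^ d / eval x (∏ m, H m)

theorem affProper_coneK {e : Fin b → ℕ} (hH : ∀ m, (H m).IsHomogeneous (e m)) :
    AffProper (cone P) (coneK P H) (affMap H (∑ m, e m)) where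
  smul x hx c hc := by
    funext i
    have h1 : (∏ m, H m).IsHomogeneous (∑ m, e m) := IsHomogeneous.prod _ _ _ fun m _ => hH m
    have h2 := (mem_coneK_iff.1 hx).2
    unfold affMap
    rw [eval_smul_form h1, Pi.smul_apply, smul_eq_mul, mul_pow]
    rw [mul_div_mul_left _ _ (pow_ne_zero _ hc)]
  cont := by
    rw [continuousOn_pi]
    intro i
    refine ContinuousOn.div ?_ ?_ fun x hx => (mem_coneK_iff.1 hx).2
    · exact ((continuous_apply i).pow _).continuousOn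
    · exact fun x _ => (analyticAt_form _ x).continuousAt.continuousWithinAt
  hol F z₀ hF hFK := by
    rw [analyticAt_pi_iff]
    intro i
    have h1 : AnalyticAt ℂ (fun z => F z i) z₀ :=
      ((ContinuousLinearMap.proj (R := ℂ) (φ := fun _ : Fin (N + 1) => ℂ) i).analyticAt _).comp hF
    have h2 : AnalyticAt ℂ (fun z => eval (F z) (∏ m, H m)) z₀ :=
      AnalyticAt.comp (g := fun y : Fin (N + 1) → ℂ => eval y (∏ m, H m)) (f := F) (analyticAt_form _ _) hF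
    exact (h1.pow _).div h2 (mem_coneK_iff.1 hFK.self_of_nhds).2
  proper x hx hxK R := by
    have h0 : eval x (∏ m, H m) = 0 := (mem_cone_notMem hx).1 hxK
    obtain ⟨i, hi⟩ : ∃ i, x i ≠ 0 := by
      by_contra hcon
      push Not at hcon
      exact hx.1 (funext hcon)
    set d := ∑ m, e m with hd
    have hc : 0 < ‖x i ^ d‖ / 2 := by
      have := norm_pos_iff.2 (pow_ne_zero d hi)
      positivity
    have h1 : ∀ᶠ y in 𝓝 x, ‖x i ^ d‖ / 2 < ‖y i ^ d‖ := by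
      have h2 : ContinuousAt (fun y : Fin (N + 1) → ℂ => ‖y i ^ d‖) x := (((continuous_apply i).pow d).norm).continuousAt
      exact h2.eventually_const_lt (by linarith)
    have h3 : ∀ᶠ y in 𝓝 x, ‖eval y (∏ m, H m)‖ < ‖x i ^ d‖ / 2 / (|R| + 1) := by
      have h4 : ContinuousAt (fun y : Fin (N + 1) → ℂ => ‖eval y (∏ m, H m)‖) x := (analyticAt_form _ x).continuousAt.norm
      refine h4.eventually_lt_const ?_
      show ‖eval x (∏ m, H m)‖ < ‖x i ^ d‖ / 2 / (|R| + 1)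
      rw [h0, norm_zero]
      positivity
    filter_upwards [h1, h3] with y hy1 hy2 hyK
    have hne := (mem_coneK_iff.1 hyK).2
    have hpos : 0 < ‖eval y (∏ m, H m)‖ := norm_pos_iff.2 hne
    have h5 : |R| + 1 < ‖affMap H d y i‖ := by
      unfold affMap
      rw [norm_div, lt_div_iff₀ hpos]
      have h6 : 0 < |R| + 1 := by positivity
      have h7 := (lt_div_iff₀ h6).1 hy2
      linarith
    calc R ≤ |R| := le_abs_self R
      _ < |R| + 1 := by linarith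
      _ < ‖affMap H d y i‖ := h5
      _ ≤ ‖affMap H d y‖ := norm_le_pi_norm _ i
  iso F z₀ hF hFX := by
    have h2 : AnalyticAt ℂ (fun z => eval (F z) (∏ m, H m)) z₀ :=
      AnalyticAt.comp (g := fun y : Fin (N + 1) → ℂ => eval y (∏ m, H m)) (f := F) (analyticAt_form _ _) hF
    rcases h2.eventually_eq_zero_or_eventually_ne_zero with h3 | h3
    · left
      filter_upwards [h3, hFX] with z h4 h5
      exact (mem_cone_notMem h5).2 h4
    · right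
      filter_upwards [h3, hFX.filter_mono nhdsWithin_le_nhds] with z h4 h5
      exact mem_coneK_iff.2 ⟨h5, h4⟩

/-- The initial model. -/
theorem modelK_start [hPp : P.IsPrime] (hX : Surface (cone P))
    (hthin : ∀ σ τ, IsChart (cone P) σ τ → ∀ (d : ℕ) (Q : MvPolynomial (Fin (N + 1)) ℂ), Q.IsHomogeneous d →
      Q ∉ P → ∃ᶠ p in 𝓝 (0 : ℂ × ℂ), eval (σ p) Q ≠ 0)
    {e : Fin b → ℕ} (hH : ∀ m, (H m).IsHomogeneous (e m)) (hHP : ∀ m, H m ∉ P)
    {M D₀ D₁ : ℕ} (hM : 1 ≤ M) {Ω : (Fin (N + 1) → ℂ) → (Fin (N + 1) → ℂ) → (Fin (N + 1) → ℂ) → ℂ}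
    (hΩ : IsForm (coneK P H) M 1 Ω) (hpole : PoleLE (cone P) (coneK P H) M Ω)
    {Q₀ : MvPolynomial (Fin (N + 1)) ℂ} (hQ₀ : Q₀.IsHomogeneous D₀) (hQ₀P : Q₀ ∉ P)
    (hz : NoZeros (coneK P H) {x | x ∈ coneK P H ∧ eval x Q₀ = 0} Ω)
    {Q₁ : MvPolynomial (Fin (N + 1)) ℂ} (hQ₁ : Q₁.IsHomogeneous D₁) (hQ₁P : Q₁ ∉ P) (hD₁ : 1 ≤ D₁)
    (hb : Brody2 (coneK P H) {x | x ∈ cone P ∧ eval x Q₁ = 0}) :
    ModelK (cone P) (coneK P H) {x | x ∈ cone P ∧ eval x ((∏ m, H m) * Q₀ * Q₁) = 0} (M * ((∑ m, e m) + 1)) 1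
      (fun x v w => eval x (∏ m, H m) * Ω x v w ^ ((∑ m, e m) + 1))
      (fun (_ : Unit) x => eval x ((∏ m, H m) * Q₀ * Q₁)) ((∑ m, e m) + D₀ + D₁) := by
  set d := ∑ m, e m with hd
  have hH₀ : (∏ m, H m).IsHomogeneous d := IsHomogeneous.prod _ _ _ fun m _ => hH m
  have hH₀P : (∏ m, H m) ∉ P := by
    intro h
    obtain ⟨m, -, hm⟩ := (Ideal.IsPrime.prod_mem_iff (p := P)).1 h
    exact hHP m hm
  set Q : MvPolynomial (Fin (N + 1)) ℂ := (∏ m, H m) * Q₀ * Q₁ with hQdef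
  have hQhom : Q.IsHomogeneous (d + D₀ + D₁) := (hH₀.mul hQ₀).mul hQ₁
  have hQP : Q ∉ P := by
    intro h
    rcases hPp.mem_or_mem h with h | h
    · rcases hPp.mem_or_mem h with h | h
      · exact hH₀P h
      · exact hQ₀P h
    · exact hQ₁P h
  have hform := isForm_pow_mul (k := d + 1) (d := d) (by omega) hΩ (H := fun x => eval x (∏ m, H m)) (analyticAt_form _)
    (fun c x => eval_smul_form hH₀ c x) (coneK_smul hH hX.smul)
  have h1 : 1 * (d + 1) - d = 1 := by omega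
  rw [h1] at hform
  refine ⟨hX, openPart_coneK hH hX.smul, ⟨N + 1, affMap H d, affProper_coneK hH⟩, ?_, Nat.mul_pos hM (Nat.succ_pos _), le_rfl, hform, ?_, ?_,
    ⟨by omega, ?_, ?_, ?_, ?_⟩, ?_, ?_⟩
  · intro x hx hxK
    refine ⟨hx, ?_⟩
    rw [hQdef, map_mul, map_mul, (mem_cone_notMem hx).1 hxK, zero_mul, zero_mul]
  · intro x hx hxT v hv w hw hi
    refine mul_ne_zero (mem_coneK_iff.1 hx).2 (pow_ne_zero _ (hz x hx (fun h => hxT ⟨hx.1, ?_⟩) v hv w hw hi))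
    rw [hQdef, map_mul, map_mul, h.2, mul_zero, zero_mul]
  · exact PoleLE.pow_mul hM (Nat.succ_pos d) hpole (H := fun x => eval x (∏ m, H m)) (analyticAt_form _)
      fun x hx hxK => (mem_cone_notMem hx).1 hxK
  · intro _ x
    exact analyticAt_form Q x
  · intro _ c x
    exact eval_smul_form hQhom c x
  · intro x
    exact ⟨fun h => ⟨h.1, fun _ => h.2⟩, fun h => ⟨h.1, h.2 ()⟩⟩
  · intro x hx
    exact ⟨(), Eventually.of_forall fun y hy h => ⟨hy, h⟩⟩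
  · intro σ τ h
    exact (hthin σ τ h _ Q hQhom hQP).mono fun p hp hpB => hp hpB.2
  · rintro f hf hfX hf2 ⟨z₁, hz₁⟩ z w
    refine hb f hf hfX hf2 ⟨z₁, fun h => hz₁ ⟨h.1, ?_⟩⟩ z w
    rw [hQdef, map_mul, h.2, mul_zero]

/-- **The model of the complement of hypersurfaces in a smooth projective surface**, with a section of a multiple of the logarithmic canonical
bundle minus a hyperplane, such that the nonconstant entire curves of order at most two lie in a proper closed subset. -/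
theorem exists_modelK [hPp : P.IsPrime] (hP : Homog P) (hX : Surface (cone P))
    (hthin : ∀ σ τ, IsChart (cone P) σ τ → ∀ (d : ℕ) (Q : MvPolynomial (Fin (N + 1)) ℂ), Q.IsHomogeneous d →
      Q ∉ P → ∃ᶠ p in 𝓝 (0 : ℂ × ℂ), eval (σ p) Q ≠ 0)
    {e : Fin b → ℕ} (hH : ∀ m, (H m).IsHomogeneous (e m)) (hHP : ∀ m, H m ∉ P)
    {M D₀ : ℕ} (hM : 1 ≤ M) {Ω : (Fin (N + 1) → ℂ) → (Fin (N + 1) → ℂ) → (Fin (N + 1) → ℂ) → ℂ}
    (hΩ : IsForm (coneK P H) M 1 Ω) (hpole : PoleLE (cone P) (coneK P H) M Ω)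
    {Q₀ : MvPolynomial (Fin (N + 1)) ℂ} (hQ₀ : Q₀.IsHomogeneous D₀) (hQ₀P : Q₀ ∉ P)
    (hz : NoZeros (coneK P H) {x | x ∈ coneK P H ∧ eval x Q₀ = 0} Ω) {Ξ : Set (PN N)}
    (hΞ : ZariskiClosedIn (openVar P H) Ξ) (hne : Ξ ≠ openVar P H)
    (hbr : ∀ f : ℂ → PN N, HolomorphicInto f Set.univ → OrderTwo f → (∀ z, f z ∈ openVar P H) →
      (∃ z w, f z ≠ f w) → ∀ z, f z ∈ Ξ) :
    ∃ (Q : MvPolynomial (Fin (N + 1)) ℂ) (D : ℕ), Q.IsHomogeneous D ∧ Q ∉ P ∧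
      (∃ x ∈ openVar P H, ¬ VanishesAt Q x) ∧ (∀ x ∈ Ξ, VanishesAt Q x) ∧
      ∃ (m j : ℕ) (Ω' : (Fin (N + 1) → ℂ) → (Fin (N + 1) → ℂ) → (Fin (N + 1) → ℂ) → ℂ),
        ModelK (cone P) (coneK P H) {x | x ∈ cone P ∧ eval x Q = 0} m j Ω' (fun (_ : Unit) x => eval x Q) D := by
  classical
  obtain ⟨S, hS, rfl⟩ := hΞ
  -- a form which vanishes on the exceptional set
  obtain ⟨x₁, hx₁, hx₁S⟩ : ∃ x ∈ openVar P H, ∃ Q ∈ S, ¬ VanishesAt Q x := by
    by_contra hcon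
    push Not at hcon
    apply hne
    ext x
    exact ⟨fun h => h.1, fun h => ⟨h, hcon x h⟩⟩
  obtain ⟨Q₁, hQ₁S, hQ₁x⟩ := hx₁S
  obtain ⟨d₁, hQ₁⟩ := hS Q₁ hQ₁S
  have hQ₁P : Q₁ ∉ P := fun h => hQ₁x (hx₁.1 Q₁ h d₁ hQ₁)
  have hx₁K : x₁.rep ∈ coneK P H := (rep_mem_coneK hP hH).2 hx₁
  obtain ⟨l, hl⟩ : ∃ l, x₁.rep l ≠ 0 := by
    by_contra hcon
    push Not at hcon
    exact x₁.rep_nonzero (funext hcon)
  have hlP : (X l : MvPolynomial (Fin (N + 1)) ℂ) ∉ P := by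
    intro h
    have := hx₁K.1.2 _ h
    rw [eval_X] at this
    exact hl this
  have hQ₂ : (Q₁ * X l).IsHomogeneous (d₁ + 1) := hQ₁.mul (isHomogeneous_X ℂ l)
  have hQ₂P : Q₁ * X l ∉ P := fun h => (hPp.mem_or_mem h).elim hQ₁P hlP
  have hBr : Brody2 (coneK P H) {x | x ∈ cone P ∧ eval x (Q₁ * X l) = 0} := by
    refine brody2_of_curves (fun x hx => hx.1.1) (fun x hx0 hx => (mk_mem_openVar hP hH hx0 hX.smul).2 hx) ?_ hbr
    intro x hx0 hx hxΞ
    have h2 := hxΞ.2 Q₁ hQ₁S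
    rw [vanishesAt_mk hQ₁] at h2
    refine ⟨hx.1, ?_⟩
    rw [map_mul, h2, zero_mul]
  have hmodel := modelK_start hX hthin hH hHP hM hΩ hpole hQ₀ hQ₀P hz hQ₂ hQ₂P (by omega) hBr
  set Q : MvPolynomial (Fin (N + 1)) ℂ := (∏ m, H m) * Q₀ * (Q₁ * X l) with hQdef
  have hQhom : Q.IsHomogeneous ((∑ m, e m) + D₀ + (d₁ + 1)) := ((IsHomogeneous.prod _ _ _ fun m _ => hH m).mul hQ₀).mul hQ₂
  have hQP : Q ∉ P := by
    intro h'
    rcases hPp.mem_or_mem h' with h' | h'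
    · rcases hPp.mem_or_mem h' with h' | h'
      · obtain ⟨m, -, hm⟩ := (Ideal.IsPrime.prod_mem_iff (p := P)).1 h'
        exact hHP m hm
      · exact hQ₀P h'
    · exact hQ₂P h'
  refine ⟨Q, (∑ m, e m) + D₀ + (d₁ + 1), hQhom, hQP, ?_, ?_, _, _, _, hmodel⟩
  · -- properness
    obtain ⟨σ, τ, h, hσ0⟩ := hX.chart x₁.rep hx₁K.1
    have hKσ : ∀ᶠ p in 𝓝 (0 : ℂ × ℂ), σ p ∈ coneK P H := by
      have h1 := h.σ_an.continuousAt.tendsto
      rw [hσ0] at h1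
      filter_upwards [h1.eventually ((openPart_coneK (P := P) hH hX.smul).rel _ hx₁K), h.σ_mem] with p h2 h3
      exact h2 h3
    obtain ⟨p, hp1, hp2⟩ := ((hthin σ τ h _ Q hQhom hQP).and_eventually hKσ).exists
    have h3 : Projectivization.mk ℂ (σ p) hp2.1.1 ∈ openVar P H := (mk_mem_openVar hP hH hp2.1.1 hX.smul).2 hp2
    exact ⟨_, h3, fun h4 => hp1 ((vanishesAt_mk hQhom hp2.1.1).1 h4)⟩
  · intro x hx
    have h1 : eval x.rep Q₁ = 0 := hx.2 Q₁ hQ₁S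
    show eval x.rep Q = 0
    rw [hQdef, map_mul, map_mul, map_mul, h1, zero_mul, mul_zero]

/-- The extension theorem for maps into the projective space. -/
theorem extends_of_modelK (hP : Homog P) {e : Fin b → ℕ} (hH : ∀ m, (H m).IsHomogeneous (e m))
    {Q : MvPolynomial (Fin (N + 1)) ℂ} {D m j : ℕ} {Ω : (Fin (N + 1) → ℂ) → (Fin (N + 1) → ℂ) → (Fin (N + 1) → ℂ) → ℂ}
    (h : ModelK (cone P) (coneK P H) {x | x ∈ cone P ∧ eval x Q = 0} m j Ω (fun (_ : Unit) x => eval x Q) D)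
    {f : ℂ → PN N} (hf : HolomorphicInto f puncturedDisc) (hfX : ∀ z ∈ puncturedDisc, f z ∈ openVar P H)
    (hfQ : ∃ z ∈ puncturedDisc, ¬ VanishesAt Q (f z)) :
    ∃ g : ℂ → PN N, HolomorphicInto g (Metric.ball 0 1) ∧ ∀ z ∈ puncturedDisc, g z = f z := by
  obtain ⟨z₁, hz₁, hz₁Q⟩ := hfQ
  have hball : ∀ z : ℂ, z ≠ 0 → ‖z‖ < 1 → z ∈ puncturedDisc := fun z h0 h1 => ⟨by simpa using h1, h0⟩
  have hball' : ∀ z ∈ puncturedDisc, z ≠ 0 ∧ ‖z‖ < 1 := fun z hz => ⟨hz.2, by simpa using hz.1⟩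
  obtain ⟨F, hF, hF0, he⟩ := picard_of_modelK h 1 one_pos (fun z => (f z).rep)
    (fun z h0 h1 => ⟨holP_rep hf (hball z h0 h1), (rep_mem_coneK hP hH).2 (hfX z (hball z h0 h1))⟩)
    ⟨z₁, (hball' z₁ hz₁).1, (hball' z₁ hz₁).2, fun h => hz₁Q h.2⟩
  classical
  refine ⟨fun z => if z = 0 then Projectivization.mk ℂ (F 0) hF0 else f z, ?_, ?_⟩
  · intro z₀ hz₀
    by_cases h0 : z₀ = 0
    · subst h0
      refine ⟨F, hF, ?_⟩
      rw [eventually_nhdsWithin_iff] at he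
      filter_upwards [he, hF.continuousAt.eventually_ne hF0] with z h1 h2
      refine ⟨h2, ?_⟩
      by_cases h3 : z = 0
      · subst h3
        rw [if_pos rfl]
      · rw [if_neg h3, ← (h1 h3).mk_eq (f z).rep_nonzero h2, Projectivization.mk_rep]
    · obtain ⟨φ, hφ, hφe⟩ := hf z₀ ⟨hz₀, h0⟩
      refine ⟨φ, hφ, ?_⟩
      filter_upwards [hφe, isOpen_compl_singleton.mem_nhds (show z₀ ∈ ({0} : Set ℂ)ᶜ from h0)] with z h1 h2
      obtain ⟨h3, h4⟩ := h1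
      have h5 : z ≠ 0 := h2
      exact ⟨h3, by rw [if_neg h5, h4]⟩
  · intro z hz
    exact if_neg hz.2

end Pool.Agent.H36.BPL
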