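import Pool.Agent.H36.BPL.Start
import Pool.Agent.H68.KR.MainG
import Pool.Agent.H13.SM.Surf
import Pool.Agent.H14.KB.KobKFinal

/-!
# BPL Final: complements of hypersurface sections in smooth projective surfaces
-/

set_option autoImplicit false

open Topology Filter MvPolynomial

noncomputable section

namespace Pool.Agent.H36.BPL

open Pool.Agent.H17 (PN VanishesAt ZariskiClosedIn HolomorphicInto puncturedDisc PseudoBrodyHyperbolic
  PseudoPicardHyperbolic)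
open Pool.Agent.H62.FC (Homog)
open Pool.Agent.H17R (openVar)
open Pool.Agent.H17BP (Surface IsChart IsForm NoZeros cone)
open Pool.Agent.H17LG.Variety (FunField OnBoundary IsLogGeneralType)
open Pool.Agent.H13.SM (conTan)
open Pool.Agent.H14.KB (KobayashiHyperbolicModulo)
open Pool.Agent.H13.OT (OrderTwo)

variable {N : ℕ} {P : Ideal (MvPolynomial (Fin (N + 1)) ℂ)}

theorem openCone_eq (H₀ : MvPolynomial (Fin (N + 1)) ℂ) :
    Pool.Agent.H68.KR.openCone P H₀ = coneK P fun _ : Fin 1 => H₀ := by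
  ext x
  exact ⟨fun h => ⟨h.1, fun _ => h.2⟩, fun h => ⟨h.1, h.2 0⟩⟩

/-- **The main theorem.** -/
theorem open_surface [P.IsPrime] (hP : Homog P) {z : Fin 2 → FunField P} (hz : IsTranscendenceBasis ℂ z)
    (hsm : ∀ y : Fin (N + 1) → ℂ, y ≠ 0 → (∀ Q ∈ P, eval y Q = 0) → Module.finrank ℂ (conTan P y) ≤ 3)
    {e : ℕ} {H₀ : MvPolynomial (Fin (N + 1)) ℂ} (hH₀ : H₀.IsHomogeneous e) (hH₀P : H₀ ∉ P)
    (hgt : IsLogGeneralType (K := FunField P) (k := 2) (OnBoundary P fun _ : Fin 1 => H₀))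
    {Ξ : Set (PN N)} (hΞ : ZariskiClosedIn (openVar P fun _ : Fin 1 => H₀) Ξ) (hne : Ξ ≠ openVar P fun _ : Fin 1 => H₀)
    (hbr : ∀ f : ℂ → PN N, HolomorphicInto f Set.univ → OrderTwo f → (∀ z, f z ∈ openVar P fun _ : Fin 1 => H₀) →
      (∃ z w, f z ≠ f w) → ∀ z, f z ∈ Ξ) :
    ∃ (Q : MvPolynomial (Fin (N + 1)) ℂ) (D : ℕ), Q.IsHomogeneous D ∧
      (∃ x ∈ openVar P fun _ : Fin 1 => H₀, ¬ VanishesAt Q x) ∧ (∀ x ∈ Ξ, VanishesAt Q x) ∧
      KobayashiHyperbolicModulo (openVar P fun _ : Fin 1 => H₀) Q D ∧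
      ∀ f : ℂ → PN N, HolomorphicInto f puncturedDisc → (∀ z ∈ puncturedDisc, f z ∈ openVar P fun _ : Fin 1 => H₀) →
        (∃ z ∈ puncturedDisc, ¬ VanishesAt Q (f z)) →
        ∃ g : ℂ → PN N, HolomorphicInto g (Metric.ball 0 1) ∧ ∀ z ∈ puncturedDisc, g z = f z := by
  have hX : Surface (cone P) := Pool.Agent.H13.SM.surface_cone hP hz fun y hy => hsm y hy.1 hy.2
  have hthin : ∀ σ τ, IsChart (cone P) σ τ → ∀ (d : ℕ) (Q : MvPolynomial (Fin (N + 1)) ℂ), Q.IsHomogeneous d →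
      Q ∉ P → ∃ᶠ p in 𝓝 (0 : ℂ × ℂ), eval (σ p) Q ≠ 0 := fun σ τ h d Q hQ hQP =>
    Pool.Agent.H13.SM.frequently_ne_zero hP hz (fun y hy => hsm y hy.1 hy.2) h hQ hQP
  obtain ⟨M, Ω, D₀, Q₀, hM, hQ₀, hQ₀P, hΩ, hnz, hpole⟩ :=
    Pool.Agent.H68.KR.exists_formG_of_smooth P hP hz hH₀ hsm hgt
  rw [openCone_eq] at hΩ hnz hpole
  obtain ⟨Q, D, hQ, -, hex, hQΞ, m, j, Ω', hmodel⟩ := exists_modelK hP hX hthin (e := fun _ => e) (fun _ => hH₀) (fun _ => hH₀P)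
    hM hΩ hpole hQ₀ hQ₀P hnz hΞ hne hbr
  refine ⟨Q, D, hQ, hex, hQΞ, ?_, fun f hf hfX hfQ => extends_of_modelK hP (e := fun _ => e) (fun _ => hH₀) hmodel hf hfX hfQ⟩
  exact Pool.Agent.H14.KB.kobayashi_of_modelK (fun x hx => (rep_mem_coneK hP (e := fun _ => e) fun _ => hH₀).2 hx) hmodel

end Pool.Agent.H36.BPL
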