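import Pool.Agent.H68.KR.JF

/-!
# BPL GPa: orders, residues and Jacobians in `ℂ((X))((T))`
-/

set_option autoImplicit false

noncomputable section

namespace Pool.Agent.H36.BPL

open Pool.Agent.H68.KR

theorem le_vT_iff {F : LL} {n : ℤ} : (n : WithTop ℤ) ≤ vT F ↔ ∀ m : ℤ, m < n → F.coeff m = 0 := by
  rw [vT, HahnSeries.addVal_apply]
  constructor
  · intro h m hm
    by_contra hc
    have h1 : F.orderTop ≤ (m : WithTop ℤ) := HahnSeries.orderTop_le_of_coeff_ne_zero hc
    have h3 : n ≤ m := by exact_mod_cast h.trans h1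
    omega
  · intro h
    by_cases hF : F = 0
    · subst hF
      rw [HahnSeries.orderTop_zero]
      exact le_top
    · rw [HahnSeries.orderTop_of_ne_zero hF]
      by_contra hc
      rw [not_le] at hc
      have h3 : F.isWF_support.min (HahnSeries.support_nonempty_iff.2 hF) < n := by
        exact_mod_cast hc
      exact (Set.IsWF.min_mem F.isWF_support (HahnSeries.support_nonempty_iff.2 hF)) (h _ h3)

theorem le_vT_DT {F : LL} {n : ℤ} (h : (n : WithTop ℤ) ≤ vT F) : ((n - 1 : ℤ) : WithTop ℤ) ≤ vT (DT F) := by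
  rw [le_vT_iff] at h ⊢
  intro m hm
  rw [DT_coeff, h _ (by omega), mul_zero]

theorem le_vT_DX {F : LL} {n : ℤ} (h : (n : WithTop ℤ) ≤ vT F) : (n : WithTop ℤ) ≤ vT (DX F) := by
  rw [le_vT_iff] at h ⊢
  intro m hm
  refine HahnSeries.ext (funext fun k => ?_)
  rw [DX_coeff, h m hm, HahnSeries.coeff_zero, HahnSeries.coeff_zero, mul_zero]

theorem le_vT_mul {F G : LL} {m n : ℤ} (hF : (m : WithTop ℤ) ≤ vT F) (hG : (n : WithTop ℤ) ≤ vT G) :
    ((m + n : ℤ) : WithTop ℤ) ≤ vT (F * G) := by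
  rw [AddValuation.map_mul]
  push_cast
  exact add_le_add hF hG

theorem le_vT_add {F G : LL} {n : ℤ} (hF : (n : WithTop ℤ) ≤ vT F) (hG : (n : WithTop ℤ) ≤ vT G) :
    (n : WithTop ℤ) ≤ vT (F + G) := (le_min hF hG).trans (vT.map_add F G)

theorem le_vT_neg {F : LL} {n : ℤ} (hF : (n : WithTop ℤ) ≤ vT F) : (n : WithTop ℤ) ≤ vT (-F) := by
  rw [AddValuation.map_neg]
  exact hF

theorem le_vT_sub {F G : LL} {n : ℤ} (hF : (n : WithTop ℤ) ≤ vT F) (hG : (n : WithTop ℤ) ≤ vT G) :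
    (n : WithTop ℤ) ≤ vT (F - G) := by
  have h : F - G = F + -G := sub_eq_add_neg F G
  rw [h]
  exact le_vT_add hF (le_vT_neg hG)

theorem le_vT_mono {F : LL} {m n : ℤ} (h : m ≤ n) (hF : (n : WithTop ℤ) ≤ vT F) : (m : WithTop ℤ) ≤ vT F :=
  le_trans (by exact_mod_cast h) hF

theorem zero_le_iff {F : LL} : 0 ≤ vT F ↔ ((0 : ℤ) : WithTop ℤ) ≤ vT F := Iff.rfl

theorem eq_zero_of_le {F : LL} (h : ∀ n : ℕ, ((n : ℤ) : WithTop ℤ) ≤ vT F) : F = 0 := by
  refine HahnSeries.ext (funext fun m => ?_)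
  have h1 := h (m.toNat + 1)
  rw [le_vT_iff] at h1
  rw [h1 m (by omega)]
  rfl

/-- the Jacobian of two elements of `ℂ((X))((T))` -/
def JL (F G : LL) : LL := DX F * DT G - DX G * DT F

theorem JL_self (F : LL) : JL F F = 0 := by
  unfold JL
  ring

theorem JL_anti (F G : LL) : JL F G = -JL G F := by
  unfold JL
  ring

theorem JL_add (F F' G : LL) : JL (F + F') G = JL F G + JL F' G := by
  unfold JL
  rw [map_add, map_add]
  ring

theorem JL_mul (F F' G : LL) : JL (F * F') G = F * JL F' G + F' * JL F G := by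
  unfold JL
  rw [DX_mul, DT_mul]
  ring

theorem JL_cst (c : ℂ) (G : LL) : JL (cst c) G = 0 := by
  unfold JL
  rw [DX_cst, DT_cst]
  ring

/-- the order of the Jacobian -/
theorem le_vT_JL {F G : LL} {m n : ℤ} (hF : (m : WithTop ℤ) ≤ vT F) (hG : (n : WithTop ℤ) ≤ vT G) :
    ((m + n - 1 : ℤ) : WithTop ℤ) ≤ vT (JL F G) := by
  unfold JL
  refine le_vT_sub ?_ ?_
  · have h := le_vT_mul (le_vT_DX hF) (le_vT_DT hG)
    have e : m + (n - 1) = m + n - 1 := by ring
    rwa [e] at h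
  · have h := le_vT_mul (le_vT_DX hG) (le_vT_DT hF)
    have e : n + (m - 1) = m + n - 1 := by ring
    rwa [e] at h

theorem JL_nonneg {F G : LL} (hF : 0 ≤ vT F) (hG : 0 ≤ vT G) : 0 ≤ vT (JL F G) := by
  unfold JL
  have h1 := le_vT_mul (m := 0) (n := 0) (vT_DX_nonneg hF) (vT_DT_nonneg hG)
  have h2 := le_vT_mul (m := 0) (n := 0) (vT_DX_nonneg hG) (vT_DT_nonneg hF)
  exact le_vT_sub (n := 0) h1 h2

/-- the order of the Jacobian, the second function has order at least `0` -/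
theorem le_vT_JL' {F G : LL} {m : ℤ} (hF : (m : WithTop ℤ) ≤ vT F) (hG : 0 ≤ vT G) :
    ((m - 1 : ℤ) : WithTop ℤ) ≤ vT (JL F G) := by
  have h := le_vT_JL (n := 0) hF hG
  have e : m + 0 - 1 = m - 1 := by ring
  rwa [e] at h

/-- the residue of a series of order at least `0` is multiplicative -/
theorem res_mul {F G : LL} (hF : 0 ≤ vT F) (hG : 0 ≤ vT G) : (F * G).coeff 0 = F.coeff 0 * G.coeff 0 := by
  have h1 : ((1 : ℤ) : WithTop ℤ) ≤ vT (F - HahnSeries.C (F.coeff 0)) := by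
    rw [le_vT_iff]
    intro m hm
    have h2 : (F - HahnSeries.C (F.coeff 0)).coeff m = F.coeff m - (HahnSeries.C (F.coeff 0) : LL).coeff m := rfl
    rw [h2, HahnSeries.C_apply, HahnSeries.coeff_single]
    rcases lt_or_eq_of_le (by omega : m ≤ 0) with h3 | h3
    · rw [if_neg (by omega), (vT_nonneg_iff F).1 hF m h3, sub_zero]
    · rw [if_pos h3, h3, sub_self]
  have h2 := le_vT_mul (n := 0) h1 hG
  rw [le_vT_iff] at h2
  have h3 := h2 0 (by norm_num)
  have h4 : F * G = HahnSeries.C (F.coeff 0) * G + (F - HahnSeries.C (F.coeff 0)) * G := by ring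
  rw [h4, HahnSeries.coeff_add, h3, add_zero, HahnSeries.C_mul_eq_smul, HahnSeries.coeff_smul, smul_eq_mul]

theorem res_cst (c : ℂ) : (cst c).coeff 0 = HahnSeries.C c := by
  change (HahnSeries.single (0 : ℤ) (HahnSeries.C c)).coeff 0 = _
  rw [HahnSeries.coeff_single, if_pos rfl]

theorem vT_cst_nonneg (c : ℂ) : 0 ≤ vT (cst c) := by
  by_cases hc : c = 0
  · subst hc
    rw [map_zero, AddValuation.map_zero]
    exact le_top
  · have : vT (cst c) = 0 := vT_C (a := HahnSeries.C c) (by simpa using hc)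
    rw [this]

/-- a series of order at least `0` with residue `0` has positive order -/
theorem one_le_of_res {F : LL} (hF : 0 ≤ vT F) (h : F.coeff 0 = 0) : ((1 : ℤ) : WithTop ℤ) ≤ vT F := by
  rw [le_vT_iff]
  intro m hm
  rcases lt_or_eq_of_le (by omega : m ≤ 0) with h3 | h3
  · exact (vT_nonneg_iff F).1 hF m h3
  · rw [h3, h]

theorem vT_eq_zero_of_res {F : LL} (hF : 0 ≤ vT F) (h : F.coeff 0 ≠ 0) : vT F = 0 := by
  refine le_antisymm ?_ hF
  rw [vT, HahnSeries.addVal_apply]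
  exact HahnSeries.orderTop_le_of_coeff_ne_zero h

/-- an element of `ℂ((X))` which is not a constant is transcendental over `ℂ` -/
theorem transc {ρ : L1} (hρ : ∀ c : ℂ, ρ ≠ HahnSeries.C c) (p : Polynomial ℂ) (hp : p ≠ 0) :
    p.eval₂ (HahnSeries.C : ℂ →+* L1) ρ ≠ 0 := by
  induction h : p.natDegree generalizing p with
  | zero =>
    obtain ⟨c, rfl⟩ := Polynomial.natDegree_eq_zero.1 h
    rw [Polynomial.eval₂_C]
    have hc : c ≠ 0 := by
      rintro rfl
      exact hp (map_zero _)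
    simpa using hc
  | succ n ih =>
    have hd : p.degree ≠ 0 := by
      intro h0
      have := Polynomial.natDegree_eq_zero_iff_degree_le_zero.2 h0.le
      omega
    obtain ⟨c, hc⟩ := IsAlgClosed.exists_root p hd
    obtain ⟨q, hq⟩ := Polynomial.dvd_iff_isRoot.2 hc
    have hq0 : q ≠ 0 := by
      rintro rfl
      rw [mul_zero] at hq
      exact hp hq
    have hqn : q.natDegree = n := by
      rw [hq, Polynomial.natDegree_mul (Polynomial.X_sub_C_ne_zero c) hq0, Polynomial.natDegree_X_sub_C] at h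
      omega
    rw [hq, Polynomial.eval₂_mul, Polynomial.eval₂_sub, Polynomial.eval₂_X, Polynomial.eval₂_C]
    exact mul_ne_zero (sub_ne_zero.2 (hρ c)) (ih q hq0 hqn)

end Pool.Agent.H36.BPL
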