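import Pool.Agent.H36.BPL.GPa

/-!
# BPL GPb: the prime divisor of an embedding of the function field of a surface into `ℂ((X))((T))`
-/

set_option autoImplicit false

noncomputable section

namespace Pool.Agent.H36.BPL

open Pool.Agent.H68.KR
open Pool.Agent.H23.Fano (Form regularForms PrimeDivisorOver)

variable {K : Type} [Field K] [Algebra ℂ K] (E : K →+* LL)

theorem ll_mul {F : Type} [Field F] {a b : F} (h : a * b = 0) : a = 0 ∨ b = 0 := mul_eq_zero.1 h

omit [Algebra ℂ K] in
theorem nonneg_mul {f g : K} (hf : 0 ≤ vT (E f)) (hg : 0 ≤ vT (E g)) : 0 ≤ vT (E (f * g)) := by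
  rw [map_mul, AddValuation.map_mul]
  exact add_nonneg hf hg

omit [Algebra ℂ K] in
theorem nonneg_add {f g : K} (hf : 0 ≤ vT (E f)) (hg : 0 ≤ vT (E g)) : 0 ≤ vT (E (f + g)) := by
  rw [map_add]
  exact le_vT_add (n := 0) hf hg

omit [Algebra ℂ K] in
theorem nonneg_sub {f g : K} (hf : 0 ≤ vT (E f)) (hg : 0 ≤ vT (E g)) : 0 ≤ vT (E (f - g)) := by
  rw [map_sub]
  exact le_vT_sub (n := 0) hf hg

variable {E}

/-- the residue of a polynomial -/
theorem res_aeval (hE : ∀ c : ℂ, E (algebraMap ℂ K c) = cst c) {ι : Type} {s : ι → K} (hs : ∀ i, 0 ≤ vT (E (s i))) (p : MvPolynomial ι ℂ) :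
    0 ≤ vT (E (MvPolynomial.aeval s p)) ∧
      (E (MvPolynomial.aeval s p)).coeff 0 = MvPolynomial.eval₂ (HahnSeries.C : ℂ →+* L1) (fun i => (E (s i)).coeff 0) p := by
  induction p using MvPolynomial.induction_on with
  | C c =>
    rw [MvPolynomial.aeval_C, hE, MvPolynomial.eval₂_C]
    exact ⟨vT_cst_nonneg c, res_cst c⟩
  | add p q hp hq =>
    rw [map_add, MvPolynomial.eval₂_add, ← hp.2, ← hq.2]
    exact ⟨nonneg_add E hp.1 hq.1, by rw [map_add, HahnSeries.coeff_add]⟩
  | mul_X p i hp =>
    rw [map_mul, MvPolynomial.aeval_X, MvPolynomial.eval₂_mul, MvPolynomial.eval₂_X, ← hp.2]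
    exact ⟨nonneg_mul E hp.1 (hs i), by rw [map_mul, res_mul hp.1 (hs i)]⟩

omit [Algebra ℂ K] in
/-- the value group -/
theorem exists_unif (hneg : ∃ f : K, vT (E f) < 0) :
    ∃ (e : ℕ) (t : K), 1 ≤ e ∧ t ≠ 0 ∧ vT (E t) = ((e : ℤ) : WithTop ℤ) ∧
      ∀ f, f ≠ 0 → ∃ n : ℤ, vT (E f) = ((e * n : ℤ) : WithTop ℤ) := by
  classical
  set v : AddValuation K (WithTop ℤ) := vT.comap E with hv
  have hvE : ∀ f, v f = vT (E f) := fun f => rfl
  have hex : ∀ f : K, f ≠ 0 → ∃ n : ℤ, v f = (n : WithTop ℤ) := by
    intro f hf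
    have h : v f ≠ ⊤ := by
      intro h
      exact hf (v.top_iff.mp h)
    exact ⟨(v f).untop h, (WithTop.coe_untop _ _).symm⟩
  choose! val hval using hex
  have hval_mul : ∀ f g : K, f ≠ 0 → g ≠ 0 → val (f * g) = val f + val g := by
    intro f g hf hg
    have h := v.map_mul f g
    rw [hval f hf, hval g hg, hval (f * g) (mul_ne_zero hf hg)] at h
    exact_mod_cast h
  have hval_one : val 1 = 0 := by
    have h := v.map_one
    rw [hval 1 one_ne_zero] at h
    exact_mod_cast h
  have hval_inv : ∀ f : K, f ≠ 0 → val f⁻¹ = - val f := by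
    intro f hf
    have h := hval_mul f f⁻¹ hf (inv_ne_zero hf)
    rw [mul_inv_cancel₀ hf, hval_one] at h
    omega
  have hval_pow : ∀ (f : K) (n : ℕ), f ≠ 0 → val (f ^ n) = n * val f := by
    intro f n hf
    induction n with
    | zero => simp [hval_one]
    | succ n ih =>
      rw [pow_succ, hval_mul _ _ (pow_ne_zero n hf) hf, ih]
      push_cast
      ring
  have hval_zpow : ∀ (f : K) (n : ℤ), f ≠ 0 → val (f ^ n) = n * val f := by
    intro f n hf
    obtain ⟨m, rfl | rfl⟩ := n.eq_nat_or_neg
    · rw [zpow_natCast, hval_pow f m hf]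
    · rw [zpow_neg, zpow_natCast, hval_inv _ (pow_ne_zero m hf), hval_pow f m hf]
      ring
  have hpos : ∃ n : ℕ, 0 < n ∧ ∃ t : K, t ≠ 0 ∧ val t = n := by
    obtain ⟨f, hf⟩ := hneg
    have hf0 : f ≠ 0 := by
      rintro rfl
      simp at hf
    have h1 : val f < 0 := by
      have h := hval f hf0
      rw [hvE] at h
      rw [h] at hf
      exact_mod_cast hf
    refine ⟨(-val f).toNat, by omega, f⁻¹, inv_ne_zero hf0, ?_⟩
    rw [hval_inv f hf0]
    omega
  set e := Nat.find hpos with he
  obtain ⟨he0, t, ht0, htv⟩ := Nat.find_spec hpos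
  rw [← he] at he0 htv
  have hmin : ∀ (n : ℕ) (f : K), 0 < n → f ≠ 0 → val f = n → e ≤ n :=
    fun n f hn hf h => Nat.find_min' hpos ⟨hn, f, hf, h⟩
  have heZ : (0 : ℤ) < e := by exact_mod_cast he0
  refine ⟨e, t, he0, ht0, by rw [← hvE, hval t ht0, htv], fun f hf => ⟨val f / e, ?_⟩⟩
  have h1 : val (f * t ^ (-(val f / e))) = val f - (val f / e) * e := by
    rw [hval_mul _ _ hf (zpow_ne_zero _ ht0), hval_zpow t _ ht0, htv]
    ring
  have h2 : val f - (val f / e) * e = val f % e := by
    have := Int.emod_add_mul_ediv (val f) e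
    linarith
  have h3 : 0 ≤ val f % e := Int.emod_nonneg _ (ne_of_gt heZ)
  have h4 : val f % e < e := Int.emod_lt_of_pos _ heZ
  have h7 : val f = e * (val f / e) := by
    rcases h3.eq_or_lt with h5 | h5
    · have := Int.emod_add_mul_ediv (val f) e
      omega
    · exfalso
      have h6 := hmin (val f % e).toNat (f * t ^ (-(val f / e))) (by omega)
        (mul_ne_zero hf (zpow_ne_zero _ ht0)) (by rw [h1, h2]; omega)
      omega
  rw [← hvE, hval f hf, ← h7]

theorem JL_aeval (hE : ∀ c : ℂ, E (algebraMap ℂ K c) = cst c) (t : K) (p : Polynomial ℂ) (G : LL) :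
    JL (E (Polynomial.aeval t p)) G = E (Polynomial.aeval t (Polynomial.derivative p)) * JL (E t) G := by
  induction p using Polynomial.induction_on' with
  | add p q hp hq =>
    simp only [map_add] at hp hq ⊢
    rw [JL_add, hp, hq]
    ring
  | monomial n c =>
    induction n with
    | zero =>
      rw [Polynomial.monomial_zero_left, Polynomial.aeval_C, hE, JL_cst, Polynomial.derivative_C, map_zero, map_zero]
      ring
    | succ n ih =>
      have h1 : Polynomial.monomial (n + 1) c = Polynomial.monomial n c * Polynomial.X := (Polynomial.monomial_mul_X n c).symm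
      rw [h1, Polynomial.derivative_mul, Polynomial.derivative_X, map_mul, map_mul, map_add, map_mul, map_mul, map_add, map_mul, map_mul,
        Polynomial.aeval_X, map_one, map_one, JL_mul, ih]
      ring

/-- If a Jacobian is not zero, then there is an element of the valuation ring whose residue is not constant. -/
theorem exists_residue (hE : ∀ c : ℂ, E (algebraMap ℂ K c) = cst c) (hJ : ∃ a b : K, JL (E a) (E b) ≠ 0)
    (hneg : ∃ f : K, vT (E f) < 0) : ∃ s : K, 0 ≤ vT (E s) ∧ ∀ c : ℂ, (E s).coeff 0 ≠ HahnSeries.C c := by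
  by_contra hcon
  push Not at hcon
  obtain ⟨e, t, he, ht0, ht, hall⟩ := exists_unif hneg
  have htn : 0 ≤ vT (E t) := by
    rw [ht]
    exact_mod_cast Nat.zero_le e
  -- expansions
  have hexp : ∀ n : ℕ, ∀ f : K, 0 ≤ vT (E f) → ∃ (p : Polynomial ℂ) (g : K), 0 ≤ vT (E g) ∧ f = Polynomial.aeval t p + t ^ n * g := by
    intro n
    induction n with
    | zero => exact fun f hf => ⟨0, f, hf, by simp⟩
    | succ n ih =>
      intro f hf
      obtain ⟨p, g, hg, hfe⟩ := ih f hf
      obtain ⟨c, hc⟩ := hcon g hg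
      have h1 : ((1 : ℤ) : WithTop ℤ) ≤ vT (E (g - algebraMap ℂ K c)) := by
        rw [map_sub, hE]
        refine one_le_of_res (le_vT_sub (n := 0) hg (vT_cst_nonneg c)) ?_
        have h2 : (E g - cst c).coeff 0 = (E g).coeff 0 - (cst c).coeff 0 := rfl
        rw [h2, hc, res_cst, sub_self]
      refine ⟨p + Polynomial.C c * Polynomial.X ^ n, (g - algebraMap ℂ K c) / t, ?_, ?_⟩
      · by_cases h0 : g - algebraMap ℂ K c = 0
        · rw [h0, zero_div, map_zero, AddValuation.map_zero]
          exact le_top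
        obtain ⟨k, hk⟩ := hall _ h0
        have h2 : vT (E ((g - algebraMap ℂ K c) / t)) + vT (E t) = vT (E (g - algebraMap ℂ K c)) := by
          rw [← AddValuation.map_mul, ← map_mul, div_mul_cancel₀ _ ht0]
        have h00 : (g - algebraMap ℂ K c) / t ≠ 0 := div_ne_zero h0 ht0
        obtain ⟨l, hl⟩ := hall _ h00
        rw [hl, ht, hk] at h2
        rw [hk] at h1
        have h3 : 1 ≤ e * k := by exact_mod_cast h1
        have h4 : (e : ℤ) * l + e = e * k := by exact_mod_cast h2
        have h5 : 0 ≤ l := by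
          have h6 : (0 : ℤ) < e := by exact_mod_cast he
          have h7 : 0 < k := by
            by_contra h
            push Not at h
            have := mul_nonpos_of_nonneg_of_nonpos h6.le h
            omega
          have h8 : (e : ℤ) * (l + 1) = e * k := by linarith
          have h9 := mul_left_cancel₀ (ne_of_gt h6) h8
          omega
        rw [hl]
        have h6 : 0 ≤ (e : ℤ) * l := by positivity
        exact_mod_cast h6
      · rw [hfe, map_add, map_mul, map_pow, Polynomial.aeval_X, Polynomial.aeval_C, pow_succ]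
        field_simp
        ring
  -- the Jacobians of elements of the valuation ring are zero
  have hpn : ∀ p : Polynomial ℂ, 0 ≤ vT (E (Polynomial.aeval t p)) := by
    intro p
    induction p using Polynomial.induction_on' with
    | add p q hp hq =>
      rw [map_add]
      exact nonneg_add E hp hq
    | monomial n c =>
      rw [Polynomial.aeval_monomial]
      refine nonneg_mul E (by rw [hE]; exact vT_cst_nonneg c) ?_
      rw [map_pow, AddValuation.map_pow]
      exact nsmul_nonneg htn n
  have hz : ∀ a b : K, 0 ≤ vT (E a) → 0 ≤ vT (E b) → JL (E a) (E b) = 0 := by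
    intro a b ha hb
    apply eq_zero_of_le
    intro n
    obtain ⟨p, a', ha', hae⟩ := hexp (n + 1) a ha
    obtain ⟨q, b', hb', hbe⟩ := hexp (n + 1) b hb
    have htp : ∀ c : K, 0 ≤ vT (E c) → (((n : ℤ) + 1 : ℤ) : WithTop ℤ) ≤ vT (E (t ^ (n + 1) * c)) := by
      intro c hc
      have h1 : (((n : ℤ) + 1 : ℤ) : WithTop ℤ) ≤ vT (E (t ^ (n + 1))) := by
        have h2 : ∀ k : ℕ, ((k : ℤ) : WithTop ℤ) ≤ vT (E (t ^ k)) := by
          intro k
          induction k with
          | zero => rw [pow_zero, map_one, AddValuation.map_one]; rfl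
          | succ k ih =>
            rw [pow_succ, map_mul]
            have h3 : ((1 : ℤ) : WithTop ℤ) ≤ vT (E t) := by
              rw [ht]
              exact_mod_cast he
            have h4 := le_vT_mul ih h3
            push_cast at h4 ⊢
            exact h4
        exact_mod_cast h2 (n + 1)
      rw [map_mul]
      have h3 := le_vT_mul (n := 0) h1 hc
      rwa [add_zero] at h3
    have hb2 : 0 ≤ vT (E b) := hb
    have hpp := hpn p
    have hqq := hpn q
    have h1 : JL (E a) (E b) = JL (E (t ^ (n + 1) * a')) (E b) - JL (E (t ^ (n + 1) * b')) (E (Polynomial.aeval t p)) := by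
      have e1 : E a = E (Polynomial.aeval t p) + E (t ^ (n + 1) * a') := by rw [← map_add, ← hae]
      have e2 : E b = E (Polynomial.aeval t q) + E (t ^ (n + 1) * b') := by rw [← map_add, ← hbe]
      have e3 : JL (E (Polynomial.aeval t p)) (E (Polynomial.aeval t q)) = 0 := by
        rw [JL_aeval hE, JL_anti (E t), JL_aeval hE, JL_self]
        ring
      have e4 : JL (E (Polynomial.aeval t p)) (E b) = - JL (E (t ^ (n + 1) * b')) (E (Polynomial.aeval t p)) := by
        rw [JL_anti, e2, JL_add, JL_anti (E (Polynomial.aeval t q)), e3]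
        ring
      rw [e1, JL_add, e4]
      ring
    rw [h1]
    have e : ((n : ℤ) + 1) - 1 = n := by ring
    refine le_vT_sub ?_ ?_
    · have h2 := le_vT_JL' (htp a' ha') hb2
      rwa [e] at h2
    · have h2 := le_vT_JL' (htp b' hb') hpp
      rwa [e] at h2
  -- a derivation which vanishes on the valuation ring
  have hder : ∀ G : LL, (∀ a : K, 0 ≤ vT (E a) → JL (E a) G = 0) → ∀ a : K, JL (E a) G = 0 := by
    intro G hG a
    by_cases ha0 : a = 0
    · exact hG a (by rw [ha0, map_zero, AddValuation.map_zero]; exact le_top)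
    by_cases ha : 0 ≤ vT (E a)
    · exact hG a ha
    have h1 : 0 ≤ vT (E a⁻¹) := by
      have h2 : vT (E a) + vT (E a⁻¹) = 0 := by
        rw [← AddValuation.map_mul, ← map_mul, mul_inv_cancel₀ ha0, map_one, AddValuation.map_one]
      obtain ⟨k, hk⟩ := hall a ha0
      obtain ⟨l, hl⟩ := hall a⁻¹ (inv_ne_zero ha0)
      rw [hk] at ha h2
      rw [hl] at h2 ⊢
      have h3 : ¬ (0 : ℤ) ≤ e * k := fun h => ha (by exact_mod_cast h)
      have h4 : (e : ℤ) * k + e * l = 0 := by exact_mod_cast h2
      have h5 : (0 : ℤ) ≤ e * l := by omega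
      exact_mod_cast h5
    have h2 := hG _ h1
    have h3 : JL (E (a * a⁻¹)) G = 0 := by
      rw [mul_inv_cancel₀ ha0]
      have h4 : (1 : K) = algebraMap ℂ K 1 := (map_one _).symm
      rw [h4, hE, JL_cst]
    rw [map_mul, JL_mul, h2] at h3
    have h4 : E a⁻¹ * JL (E a) G = 0 := by
      rw [← h3]
      ring
    rcases ll_mul (F := LL) h4 with h5 | h5
    · exact absurd ((map_eq_zero E).1 h5) (inv_ne_zero ha0)
    · exact h5
  obtain ⟨a, b, hab⟩ := hJ
  apply hab
  refine hder _ (fun a' ha' => ?_) a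
  rw [JL_anti, hder (E a') (fun b' hb' => hz b' a' hb' ha') b]
  ring

/-- The prime divisor of the embedding. -/
theorem exists_primeDivisorG (hE : ∀ c : ℂ, E (algebraMap ℂ K c) = cst c) {s : K} (hs : 0 ≤ vT (E s))
    (hs' : ∀ c : ℂ, (E s).coeff 0 ≠ HahnSeries.C c) (hneg : ∃ f : K, vT (E f) < 0) :
    ∃ (D : PrimeDivisorOver K 2) (e : ℕ), 1 ≤ e ∧ ∀ f : K, f ≠ 0 → ∃ n : ℤ, D.ord f = n ∧ vT (E f) = ((e * n : ℤ) : WithTop ℤ) := by
  classical
  obtain ⟨e, t, he0, ht0, htv, hall⟩ := exists_unif hneg
  have heZ : (0 : ℤ) < e := by exact_mod_cast he0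
  choose! val hval using hall
  have hval_mul : ∀ f g : K, f ≠ 0 → g ≠ 0 → val (f * g) = val f + val g := by
    intro f g hf hg
    have h : vT (E (f * g)) = vT (E f) + vT (E g) := by rw [map_mul, AddValuation.map_mul]
    rw [hval f hf, hval g hg, hval (f * g) (mul_ne_zero hf hg)] at h
    have h1 : (e : ℤ) * val (f * g) = e * val f + e * val g := by exact_mod_cast h
    have h2 : (e : ℤ) * val (f * g) = e * (val f + val g) := by rw [h1, mul_add]
    exact mul_left_cancel₀ (ne_of_gt heZ) h2
  have hval_one : val 1 = 0 := by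
    have h := hval_mul 1 1 one_ne_zero one_ne_zero
    rw [mul_one] at h
    omega
  have hval_add : ∀ f g : K, f ≠ 0 → g ≠ 0 → f + g ≠ 0 → min (val f) (val g) ≤ val (f + g) := by
    intro f g hf hg hfg
    have h : min (vT (E f)) (vT (E g)) ≤ vT (E (f + g)) := by
      rw [map_add]
      exact vT.map_add _ _
    rw [hval f hf, hval g hg, hval (f + g) hfg] at h
    have h' : min ((e : ℤ) * val f) (e * val g) ≤ e * val (f + g) := by exact_mod_cast h
    rcases min_le_iff.mp h' with h4 | h4
    · exact le_trans (min_le_left _ _) (le_of_mul_le_mul_left h4 heZ)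
    · exact le_trans (min_le_right _ _) (le_of_mul_le_mul_left h4 heZ)
  have hval_t : val t = 1 := by
    have h := hval t ht0
    rw [htv] at h
    have h1 : (e : ℤ) = e * val t := by exact_mod_cast h
    have h2 : (e : ℤ) * 1 = e * val t := by rw [mul_one, ← h1]
    exact (mul_left_cancel₀ (ne_of_gt heZ) h2).symm
  set w : K → WithTop ℤ := fun f => if f = 0 then ⊤ else ((val f : ℤ) : WithTop ℤ) with hw
  have hw0 : w 0 = ⊤ := by simp [hw]
  have hwn : ∀ f : K, f ≠ 0 → w f = ((val f : ℤ) : WithTop ℤ) := by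
    intro f hf
    simp [hw, hf]
  let ord : AddValuation K (WithTop ℤ) := AddValuation.of w hw0
    (by rw [hwn 1 one_ne_zero, hval_one]; rfl)
    (by
      intro f g
      by_cases hf : f = 0
      · subst hf
        rw [zero_add, hw0]
        simp
      by_cases hg : g = 0
      · subst hg
        rw [add_zero, hw0]
        simp
      by_cases hfg : f + g = 0
      · rw [hfg, hw0]
        exact le_top
      rw [hwn f hf, hwn g hg, hwn _ hfg]
      exact_mod_cast hval_add f g hf hg hfg)
    (by
      intro f g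
      by_cases hf : f = 0
      · subst hf
        rw [zero_mul, hw0]
        simp
      by_cases hg : g = 0
      · subst hg
        rw [mul_zero, hw0]
        simp
      rw [hwn _ (mul_ne_zero hf hg), hwn f hf, hwn g hg, hval_mul f g hf hg]
      push_cast
      rfl)
  have hord : ∀ f, ord f = w f := fun f => rfl
  have hnn : ∀ f : K, 0 ≤ vT (E f) → 0 ≤ ord f := by
    intro f h
    rw [hord]
    by_cases hf : f = 0
    · subst hf
      rw [hw0]
      exact le_top
    rw [hval f hf] at h
    rw [hwn f hf]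
    have h' : (0 : ℤ) ≤ e * val f := by exact_mod_cast h
    have h2 : 0 ≤ val f := nonneg_of_mul_nonneg_right h' heZ
    exact_mod_cast h2
  have hz : ∀ f : K, vT (E f) = 0 → ord f = 0 := by
    intro f h
    by_cases hf : f = 0
    · subst hf
      rw [map_zero, AddValuation.map_zero] at h
      exact absurd h WithTop.top_ne_zero
    rw [hord, hwn f hf]
    rw [hval f hf] at h
    have h' : (e : ℤ) * val f = 0 := by exact_mod_cast h
    have h2 : val f = 0 := by
      rcases mul_eq_zero.1 h' with h3 | h3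
      · omega
      · exact h3
    rw [h2]
    rfl
  refine ⟨⟨ord, ?_, ⟨t, ?_⟩, ⟨fun _ => s, ?_, ?_⟩⟩, e, he0, ?_⟩
  · intro c
    exact hnn _ (by rw [hE]; exact vT_cst_nonneg c)
  · rw [hord, hwn t ht0, hval_t]
    rfl
  · intro i
    exact hnn s hs
  · intro p hp
    apply hz
    obtain ⟨h1, h2⟩ := res_aeval (s := fun _ : Fin (2 - 1) => s) hE (fun _ => hs) p
    refine vT_eq_zero_of_res h1 ?_
    rw [h2]
    -- from one variable to a polynomial
    set P : Polynomial ℂ := MvPolynomial.aeval (fun _ => Polynomial.X) p with hP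
    have hback : Polynomial.aeval (MvPolynomial.X (R := ℂ) (0 : Fin (2 - 1))) P = p := by
      have : (Polynomial.aeval (MvPolynomial.X (R := ℂ) (0 : Fin (2 - 1)))).comp
          (MvPolynomial.aeval (fun _ : Fin (2 - 1) => (Polynomial.X : Polynomial ℂ))) =
          AlgHom.id ℂ (MvPolynomial (Fin (2 - 1)) ℂ) := by
        apply MvPolynomial.algHom_ext
        intro i
        have hi : i = 0 := Subsingleton.elim (α := Fin 1) _ _
        simp [hi]
      exact congrArg (fun f => f p) this
    have hP0 : P ≠ 0 := by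
      intro h
      rw [h, map_zero] at hback
      exact hp hback.symm
    have hmain : MvPolynomial.eval₂ (HahnSeries.C : ℂ →+* L1) (fun _ => (E s).coeff 0) p =
        P.eval₂ (HahnSeries.C : ℂ →+* L1) ((E s).coeff 0) := by
      have h1 : ∀ q : MvPolynomial (Fin (2 - 1)) ℂ, MvPolynomial.eval₂Hom (HahnSeries.C : ℂ →+* L1)
          (fun _ => (E s).coeff 0) q =
          ((Polynomial.eval₂RingHom (HahnSeries.C : ℂ →+* L1) ((E s).coeff 0)).comp
            (MvPolynomial.aeval (fun _ : Fin (2 - 1) => (Polynomial.X : Polynomial ℂ))).toRingHom) q := by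
        intro q
        congr 1
        apply MvPolynomial.ringHom_ext
        · intro c
          simp
        · intro i
          simp
      have := h1 p
      simpa [hP] using this
    rw [hmain]
    exact transc hs' P hP0
  · intro f hf
    exact ⟨val f, hwn f hf, hval f hf⟩

end Pool.Agent.H36.BPL
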