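import Pool.Agent.H36.BPL.GPb

/-!
# BPL GPc: Jacobians of functions which are regular along a prime divisor; the order of a form with logarithmic poles along any curve
-/

set_option autoImplicit false

noncomputable section

namespace Pool.Agent.H36.BPL

open Pool.Agent.H68.KR
open Pool.Agent.H23.Fano (Form regularForms PrimeDivisorOver)
open Pool.Agent.H17LG.Variety (PoleAtMost)

variable {K : Type} [Field K] [Algebra ℂ K]

/-- evaluation of polynomials in one more variable -/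
theorem aeval_cons {n : ℕ} (y : Fin n → K) (t : K) (p : MvPolynomial (Fin (n + 1)) ℂ) :
    MvPolynomial.aeval (Fin.cons t y : Fin (n + 1) → K) p =
      (MvPolynomial.finSuccEquiv ℂ n p).eval₂ (MvPolynomial.aeval y : MvPolynomial (Fin n) ℂ →ₐ[ℂ] K).toRingHom t := by
  induction p using MvPolynomial.induction_on with
  | C c =>
    rw [MvPolynomial.aeval_C]
    have h1 : MvPolynomial.finSuccEquiv ℂ n (MvPolynomial.C c) = Polynomial.C (MvPolynomial.C c) := by
      rw [MvPolynomial.finSuccEquiv_apply, MvPolynomial.eval₂Hom_C]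
      rfl
    rw [h1, Polynomial.eval₂_C]
    simp
  | add p q hp hq => rw [map_add, hp, hq, map_add, Polynomial.eval₂_add]
  | mul_X p i hp =>
    rw [map_mul, hp, map_mul, Polynomial.eval₂_mul, MvPolynomial.aeval_X]
    congr 1
    refine Fin.cases ?_ (fun j => ?_) i
    · rw [MvPolynomial.finSuccEquiv_X_zero, Polynomial.eval₂_X, Fin.cons_zero]
    · rw [MvPolynomial.finSuccEquiv_X_succ, Polynomial.eval₂_C, Fin.cons_succ]
      simp

/-- the order of a polynomial in elements of the valuation ring -/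
theorem ord_aeval_nonneg {ι : Type} (D : PrimeDivisorOver K 2) {s : ι → K} (hs : ∀ i, 0 ≤ D.ord (s i)) (p : MvPolynomial ι ℂ) :
    0 ≤ D.ord (MvPolynomial.aeval s p) := by
  induction p using MvPolynomial.induction_on with
  | C c =>
    rw [MvPolynomial.aeval_C]
    exact D.ord_const c
  | add p q hp hq =>
    rw [map_add]
    exact D.ord.map_le_add hp hq
  | mul_X p i hp =>
    rw [map_mul, MvPolynomial.aeval_X, D.ord.map_mul]
    exact add_nonneg hp (hs i)

theorem ord_eval₂_nonneg {R : Type} [CommRing R] (D : PrimeDivisorOver K 2) (f : R →+* K) (hf : ∀ r, 0 ≤ D.ord (f r)) {a : K}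
    (ha : 0 ≤ D.ord a) (p : Polynomial R) : 0 ≤ D.ord (p.eval₂ f a) := by
  induction p using Polynomial.induction_on' with
  | add p q hp hq =>
    rw [Polynomial.eval₂_add]
    exact D.ord.map_le_add hp hq
  | monomial n c =>
    rw [Polynomial.eval₂_monomial, D.ord.map_mul, D.ord.map_pow]
    exact add_nonneg (hf c) (nsmul_nonneg ha n)

/-- two elements of the valuation ring are algebraically dependent modulo the maximal ideal -/
theorem exists_rel {z : Fin 2 → K} (hz : IsTranscendenceBasis ℂ z) (D : PrimeDivisorOver K 2) {s : Fin 1 → K} (hs : ∀ i, 0 ≤ D.ord (s i))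
    {a : K} (ha : 0 ≤ D.ord a) : ∃ p : Polynomial (MvPolynomial (Fin 1) ℂ), p ≠ 0 ∧
      0 < D.ord (p.eval₂ (MvPolynomial.aeval s : MvPolynomial (Fin 1) ℂ →ₐ[ℂ] K).toRingHom a) := by
  obtain ⟨t, ht⟩ := D.exists_uniformizer
  have ht0 : t ≠ 0 := by
    rintro rfl
    rw [D.ord.map_zero] at ht
    exact absurd ht (by simp)
  set y : Fin 2 → K := Fin.cons a s with hy
  have hyn : ∀ i, 0 ≤ D.ord (y i) := by
    intro i
    refine Fin.cases ?_ (fun j => ?_) i
    · rw [hy, Fin.cons_zero]; exact ha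
    · rw [hy, Fin.cons_succ]; exact hs j
  -- three elements are dependent
  have hdep : ¬ AlgebraicIndependent ℂ (Fin.cons t y : Fin 3 → K) := by
    intro h
    have h1 := h.cardinalMk_le_trdeg
    rw [← hz.cardinalMk_eq_trdeg] at h1
    simp only [Cardinal.mk_fin] at h1
    exact absurd (by exact_mod_cast h1) (show ¬ (3 ≤ 2) by norm_num)
  obtain ⟨q, hq0, hq⟩ : ∃ q : MvPolynomial (Fin 3) ℂ, MvPolynomial.aeval (Fin.cons t y : Fin 3 → K) q = 0 ∧ q ≠ 0 := by
    rw [algebraicIndependent_iff] at hdep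
    push Not at hdep
    exact hdep
  rw [aeval_cons] at hq0
  set Q : Polynomial (MvPolynomial (Fin 2) ℂ) := MvPolynomial.finSuccEquiv ℂ 2 q with hQ
  have hQ0 : Q ≠ 0 := by
    intro h
    apply hq
    exact (MvPolynomial.finSuccEquiv ℂ 2).injective (by rw [← hQ, h, map_zero])
  -- divide by the power of `t`
  obtain ⟨k, Q', hQQ', hQ'0⟩ : ∃ (k : ℕ) (Q' : Polynomial (MvPolynomial (Fin 2) ℂ)), Q = Polynomial.X ^ k * Q' ∧ Q'.coeff 0 ≠ 0 := by
    have h1 : Polynomial.X ^ Q.natTrailingDegree ∣ Q := by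
      rw [Polynomial.X_pow_dvd_iff]
      intro d hd
      exact Polynomial.coeff_eq_zero_of_lt_natTrailingDegree hd
    obtain ⟨Q', hQ'⟩ := h1
    refine ⟨_, Q', hQ', fun h0 => ?_⟩
    have h2 : Q.coeff Q.natTrailingDegree = Q'.coeff 0 := by
      have := Polynomial.coeff_X_pow_mul Q' Q.natTrailingDegree 0
      rw [zero_add, ← hQ'] at this
      exact this
    rw [h0] at h2
    exact hQ0 (Polynomial.trailingCoeff_eq_zero.1 h2)
  set ev : MvPolynomial (Fin 2) ℂ →+* K := (MvPolynomial.aeval y : MvPolynomial (Fin 2) ℂ →ₐ[ℂ] K).toRingHom with hev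
  have hevn : ∀ r, 0 ≤ D.ord (ev r) := fun r => ord_aeval_nonneg D hyn r
  have h1 : Q'.eval₂ ev t = 0 := by
    rw [hQQ', Polynomial.eval₂_mul, Polynomial.eval₂_pow, Polynomial.eval₂_X] at hq0
    exact (mul_eq_zero.1 hq0).resolve_left (pow_ne_zero _ ht0)
  have h2 : 0 < D.ord (ev (Q'.coeff 0)) := by
    have h3 : ev (Q'.coeff 0) = - (t * Q'.divX.eval₂ ev t) := by
      have h4 := congrArg (Polynomial.eval₂ ev t) (Polynomial.X_mul_divX_add Q')
      rw [Polynomial.eval₂_add, Polynomial.eval₂_mul, Polynomial.eval₂_X, Polynomial.eval₂_C, h1] at h4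
      linear_combination h4
    rw [h3, AddValuation.map_neg, D.ord.map_mul, ht]
    have h5 := ord_eval₂_nonneg D ev hevn (by rw [ht]; exact zero_le_one) Q'.divX (a := t)
    calc (0 : WithTop ℤ) < 1 := by exact_mod_cast one_pos
      _ = 1 + 0 := (add_zero _).symm
      _ ≤ 1 + D.ord (Q'.divX.eval₂ ev t) := by gcongr
  refine ⟨MvPolynomial.finSuccEquiv ℂ 1 (Q'.coeff 0), ?_, ?_⟩
  · intro h
    apply hQ'0
    exact (MvPolynomial.finSuccEquiv ℂ 1).injective (by rw [h, map_zero])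
  · rw [← aeval_cons]
    exact h2

/-- a relation whose derivative is a unit -/
theorem exists_sep {z : Fin 2 → K} (hz : IsTranscendenceBasis ℂ z) (D : PrimeDivisorOver K 2) {s : Fin 1 → K} (hs : ∀ i, 0 ≤ D.ord (s i))
    (hs' : ∀ p : MvPolynomial (Fin 1) ℂ, p ≠ 0 → D.ord (MvPolynomial.aeval s p) = 0)
    {a : K} (ha : 0 ≤ D.ord a) : ∃ p : Polynomial (MvPolynomial (Fin 1) ℂ),
      0 < D.ord (p.eval₂ (MvPolynomial.aeval s : MvPolynomial (Fin 1) ℂ →ₐ[ℂ] K).toRingHom a) ∧
      D.ord (p.derivative.eval₂ (MvPolynomial.aeval s : MvPolynomial (Fin 1) ℂ →ₐ[ℂ] K).toRingHom a) = 0 := by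
  classical
  set ev : MvPolynomial (Fin 1) ℂ →+* K := (MvPolynomial.aeval s : MvPolynomial (Fin 1) ℂ →ₐ[ℂ] K).toRingHom with hev
  have hevn : ∀ r, 0 ≤ D.ord (ev r) := fun r => ord_aeval_nonneg D hs r
  have hex : ∃ n : ℕ, ∃ p : Polynomial (MvPolynomial (Fin 1) ℂ), p ≠ 0 ∧ 0 < D.ord (p.eval₂ ev a) ∧ p.natDegree = n := by
    obtain ⟨p, h1, h2⟩ := exists_rel hz D hs ha
    exact ⟨_, p, h1, h2, rfl⟩
  obtain ⟨p, hp0, hp, hpn⟩ := Nat.find_spec hex
  have hmin : ∀ q : Polynomial (MvPolynomial (Fin 1) ℂ), q ≠ 0 → 0 < D.ord (q.eval₂ ev a) → p.natDegree ≤ q.natDegree := by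
    intro q hq1 hq2
    rw [hpn]
    exact Nat.find_min' hex ⟨q, hq1, hq2, rfl⟩
  refine ⟨p, hp, ?_⟩
  have hdeg : p.natDegree ≠ 0 := by
    intro h0
    obtain ⟨c, rfl⟩ := Polynomial.natDegree_eq_zero.1 h0
    have hc : c ≠ 0 := by
      rintro rfl
      exact hp0 (map_zero _)
    rw [Polynomial.eval₂_C] at hp
    have h1 : D.ord (ev c) = 0 := hs' c hc
    rw [h1] at hp
    exact lt_irrefl _ hp
  have hd0 : p.derivative ≠ 0 := by
    intro h0
    exact hdeg (Polynomial.derivative_eq_zero.1 h0)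
  have hd1 : p.derivative.natDegree < p.natDegree := Polynomial.natDegree_derivative_lt hdeg
  refine le_antisymm ?_ (ord_eval₂_nonneg D ev hevn ha _)
  by_contra hlt
  rw [not_le] at hlt
  exact absurd (hmin _ hd0 hlt) (by omega)

/-- derivations of polynomials -/
theorem exists_deriv_eval₂ {E : K →+* LL} (hE : ∀ c : ℂ, E (algebraMap ℂ K c) = cst c) (D : PrimeDivisorOver K 2) {s : Fin 1 → K}
    (hs : ∀ i, 0 ≤ D.ord (s i)) {a : K} (ha : 0 ≤ D.ord a) (p : Polynomial (MvPolynomial (Fin 1) ℂ)) :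
    ∃ A : K, 0 ≤ D.ord A ∧ ∀ G : LL, JL (E (p.eval₂ (MvPolynomial.aeval s : MvPolynomial (Fin 1) ℂ →ₐ[ℂ] K).toRingHom a)) G =
      E A * JL (E (s 0)) G + E (p.derivative.eval₂ (MvPolynomial.aeval s : MvPolynomial (Fin 1) ℂ →ₐ[ℂ] K).toRingHom a) * JL (E a) G := by
  set ev : MvPolynomial (Fin 1) ℂ →+* K := (MvPolynomial.aeval s : MvPolynomial (Fin 1) ℂ →ₐ[ℂ] K).toRingHom with hev
  have hevn : ∀ r, 0 ≤ D.ord (ev r) := fun r => ord_aeval_nonneg D hs r
  -- coefficients
  have hco : ∀ r : MvPolynomial (Fin 1) ℂ, ∃ A : K, 0 ≤ D.ord A ∧ ∀ G : LL, JL (E (ev r)) G = E A * JL (E (s 0)) G := by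
    intro r
    induction r using MvPolynomial.induction_on with
    | C c =>
      refine ⟨0, by rw [D.ord.map_zero]; exact le_top, fun G => ?_⟩
      have h1 : ev (MvPolynomial.C c) = algebraMap ℂ K c := MvPolynomial.aeval_C _ _
      rw [h1, hE, JL_cst, map_zero]
      ring
    | add p q hp hq =>
      obtain ⟨A, hA, hA'⟩ := hp
      obtain ⟨B, hB, hB'⟩ := hq
      refine ⟨A + B, D.ord.map_le_add hA hB, fun G => ?_⟩
      rw [map_add, map_add, JL_add, hA', hB', map_add]
      ring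
    | mul_X p i hp =>
      obtain ⟨A, hA, hA'⟩ := hp
      have hi : i = 0 := Subsingleton.elim _ _
      subst hi
      have hX : ev (MvPolynomial.X 0) = s 0 := MvPolynomial.aeval_X _ _
      refine ⟨ev p + s 0 * A, D.ord.map_le_add (hevn p) ?_, fun G => ?_⟩
      · rw [D.ord.map_mul]
        exact add_nonneg (hs 0) hA
      · rw [map_mul, hX, map_mul, JL_mul, hA', map_add, map_mul]
        ring
  induction p using Polynomial.induction_on' with
  | add p q hp hq =>
    obtain ⟨A, hA, hA'⟩ := hp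
    obtain ⟨B, hB, hB'⟩ := hq
    refine ⟨A + B, D.ord.map_le_add hA hB, fun G => ?_⟩
    rw [Polynomial.eval₂_add, map_add, JL_add, hA', hB', Polynomial.derivative_add, Polynomial.eval₂_add, map_add, map_add]
    ring
  | monomial n c =>
    induction n with
    | zero =>
      obtain ⟨A, hA, hA'⟩ := hco c
      refine ⟨A, hA, fun G => ?_⟩
      rw [Polynomial.monomial_zero_left, Polynomial.eval₂_C, hA', Polynomial.derivative_C, Polynomial.eval₂_zero, map_zero]
      ring
    | succ n ih =>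
      obtain ⟨A, hA, hA'⟩ := ih
      refine ⟨a * A, ?_, fun G => ?_⟩
      · rw [D.ord.map_mul]
        exact add_nonneg ha hA
      · have h1 : Polynomial.monomial (n + 1) c = Polynomial.monomial n c * Polynomial.X := (Polynomial.monomial_mul_X n c).symm
        rw [h1, Polynomial.eval₂_mul, Polynomial.eval₂_X, map_mul, JL_mul, hA', Polynomial.derivative_mul, Polynomial.derivative_X, mul_one,
          Polynomial.eval₂_add, Polynomial.eval₂_mul, Polynomial.eval₂_X, map_add, map_mul, map_mul]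
        ring

/-- The Jacobian of two functions which are regular along the divisor `D` has order at least `e - 1`, where `e` is the ramification index. -/
theorem le_vT_JL_reg {E : K →+* LL} (hE : ∀ c : ℂ, E (algebraMap ℂ K c) = cst c) {z : Fin 2 → K} (hz : IsTranscendenceBasis ℂ z)
    (D : PrimeDivisorOver K 2) {e : ℕ} (he : 1 ≤ e)
    (hD : ∀ f : K, f ≠ 0 → ∃ n : ℤ, D.ord f = n ∧ vT (E f) = ((e * n : ℤ) : WithTop ℤ)) {a b : K} (ha : 0 ≤ D.ord a) (hb : 0 ≤ D.ord b) :
    ((e - 1 : ℤ) : WithTop ℤ) ≤ vT (JL (E a) (E b)) := by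
  have heZ : (0 : ℤ) < e := by exact_mod_cast he
  have hnn : ∀ f : K, 0 ≤ D.ord f → 0 ≤ vT (E f) := by
    intro f hf
    by_cases h0 : f = 0
    · rw [h0, map_zero, AddValuation.map_zero]
      exact le_top
    obtain ⟨n, h1, h2⟩ := hD f h0
    rw [h1] at hf
    rw [h2]
    have h3 : 0 ≤ n := by exact_mod_cast hf
    have h4 : (0 : ℤ) ≤ e * n := by positivity
    exact_mod_cast h4
  have hpos : ∀ f : K, 0 < D.ord f → ((e : ℤ) : WithTop ℤ) ≤ vT (E f) := by
    intro f hf
    by_cases h0 : f = 0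
    · rw [h0, map_zero, AddValuation.map_zero]
      exact le_top
    obtain ⟨n, h1, h2⟩ := hD f h0
    rw [h1] at hf
    rw [h2]
    have h3 : 0 < n := by exact_mod_cast hf
    have h4 : (e : ℤ) ≤ e * n := by nlinarith
    exact_mod_cast h4
  obtain ⟨s, hs, hs'⟩ := D.residue_trdeg
  -- the main step
  have key : ∀ c : K, 0 ≤ D.ord c → ∀ G : LL, 0 ≤ vT G → ((e - 1 : ℤ) : WithTop ℤ) ≤ vT (JL (E (s 0)) G) →
      ((e - 1 : ℤ) : WithTop ℤ) ≤ vT (JL (E c) G) := by
    intro c hc G hG hsG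
    obtain ⟨p, hp1, hp2⟩ := exists_sep hz D (s := s) hs hs' hc
    obtain ⟨A, hA, hA'⟩ := exists_deriv_eval₂ hE D (s := s) hs hc p
    have h1 := hA' G
    set h := p.eval₂ (MvPolynomial.aeval s : MvPolynomial (Fin 1) ℂ →ₐ[ℂ] K).toRingHom c with hh
    set h' := p.derivative.eval₂ (MvPolynomial.aeval s : MvPolynomial (Fin 1) ℂ →ₐ[ℂ] K).toRingHom c with hh'
    have h2 : ((e - 1 : ℤ) : WithTop ℤ) ≤ vT (JL (E h) G) := le_vT_JL' (hpos h hp1) hG
    have h3 : ((e - 1 : ℤ) : WithTop ℤ) ≤ vT (E A * JL (E (s 0)) G) := by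
      have h4 := le_vT_mul (m := 0) (hnn A hA) hsG
      rwa [zero_add] at h4
    have h4 : E h' * JL (E c) G = JL (E h) G - E A * JL (E (s 0)) G := by
      rw [h1]
      ring
    have h5 : vT (E h') = 0 := by
      have h6 : h' ≠ 0 := by
        intro h0
        rw [h0, D.ord.map_zero] at hp2
        exact absurd hp2 WithTop.top_ne_zero
      obtain ⟨n, h7, h8⟩ := hD h' h6
      rw [hp2] at h7
      have h9 : n = 0 := by exact_mod_cast h7.symm
      rw [h8, h9, mul_zero]
      rfl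
    have h6 : vT (E h' * JL (E c) G) = vT (JL (E c) G) := by
      rw [AddValuation.map_mul, h5, zero_add]
    rw [← h6, h4]
    exact le_vT_sub h2 h3
  have hs0 := hnn (s 0) (hs 0)
  have hb' := hnn b hb
  refine key a ha (E b) hb' ?_
  rw [JL_anti]
  refine le_vT_neg (key b hb (E (s 0)) hs0 ?_)
  rw [JL_self, AddValuation.map_zero]
  exact le_top

/-- The order of a form with logarithmic poles along an arbitrary curve. -/
theorem pole_free_logG (E : K →+* LL) (hE : ∀ c : ℂ, E (algebraMap ℂ K c) = cst c) {z : Fin 2 → K} (hz : IsTranscendenceBasis ℂ z)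
    (hJ : ∃ a b : K, DX (E a) * DT (E b) - DX (E b) * DT (E a) ≠ 0)
    (M : ℕ) (H W : K) (a : Fin 2 → K) (Bd : PrimeDivisorOver K 2 → Prop)
    (hpole : ∀ D : PrimeDivisorOver K 2, (¬ Bd D → PoleAtMost 0 D M H (Form.mk W a)) ∧
      (Bd D → PoleAtMost M D M H (Form.mk W a))) :
    0 ≤ vT (E H * (E W * (DX (E (a 0)) * DT (E (a 1)) - DX (E (a 1)) * DT (E (a 0)))) ^ M) ∨
      ∃ D : PrimeDivisorOver K 2, Bd D ∧ (∃ e : ℕ, 1 ≤ e ∧ ∀ f : K, f ≠ 0 → ∃ n : ℤ, D.ord f = n ∧ vT (E f) = ((e * n : ℤ) : WithTop ℤ)) ∧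
        0 ≤ vT (E H * (E W * (DX (E (a 0)) * DT (E (a 1)) - DX (E (a 1)) * DT (E (a 0)))) ^ M) + M := by
  have hpow : ∀ (x : LL) (m : ℤ) (n : ℕ), (m : WithTop ℤ) ≤ vT x → ((n * m : ℤ) : WithTop ℤ) ≤ vT (x ^ n) := by
    intro x m n hx
    induction n with
    | zero => rw [pow_zero, AddValuation.map_one]; simp
    | succ n ih =>
      rw [pow_succ]
      have h := le_vT_mul ih hx
      have e1 : (n : ℤ) * m + m = ((n + 1 : ℕ) : ℤ) * m := by push_cast; ring
      rwa [e1] at h
  by_cases hall : ∀ f : K, 0 ≤ vT (E f)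
  · left
    have h1 : 0 ≤ vT (JL (E (a 0)) (E (a 1))) := JL_nonneg (hall _) (hall _)
    have h2 := le_vT_mul (m := 0) (n := 0) (hall W) h1
    have h3 := hpow _ _ M h2
    have h4 := le_vT_mul (m := 0) (hall H) h3
    have e1 : (0 : ℤ) + M * (0 + 0) = 0 := by ring
    rw [e1] at h4
    exact h4
  · push Not at hall
    obtain ⟨s, hs, hs'⟩ := exists_residue hE hJ hall
    obtain ⟨D, e, he, hD⟩ := exists_primeDivisorG hE hs hs' hall
    have hX : ∀ c : ℂ, DX (E (algebraMap ℂ K c)) = 0 := fun c => by rw [hE]; exact DX_cst c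
    have hT : ∀ c : ℂ, DT (E (algebraMap ℂ K c)) = 0 := fun c => by rw [hE]; exact DT_cst c
    obtain ⟨J, hJs, hJm⟩ := exists_jac (F := LL) E DX DT (fun a b => DX_mul a b)
      (fun a b => DT_mul a b) hX hT
    have heZ : (0 : ℤ) < e := by exact_mod_cast he
    have hnn : ∀ f : K, 0 ≤ D.ord f → 0 ≤ vT (E f) := by
      intro f hf
      by_cases h0 : f = 0
      · rw [h0, map_zero, AddValuation.map_zero]
        exact le_top
      obtain ⟨n, h1, h2⟩ := hD f h0
      rw [h1] at hf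
      rw [h2]
      have h3 : 0 ≤ n := by exact_mod_cast hf
      have h4 : (0 : ℤ) ≤ e * n := by positivity
      exact_mod_cast h4
    have hgen : ∀ ξ : Form K 2, ξ ∈ regularForms 2 D.localRing → ((e - 1 : ℤ) : WithTop ℤ) ≤ vT (J ξ) := by
      intro ξ hξ
      unfold regularForms at hξ
      induction hξ using AddSubgroup.closure_induction with
      | mem x hx =>
        obtain ⟨c, b', hc, hb', rfl⟩ := hx
        rw [hJm]
        have h1 := le_vT_JL_reg hE hz D he hD (hb' 0) (hb' 1)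
        have h2 := le_vT_mul (m := 0) (hnn c hc) h1
        rw [zero_add] at h2
        exact h2
      | zero =>
        rw [map_zero, AddValuation.map_zero]
        exact le_top
      | add x y _ _ hx hy => rw [map_add]; exact le_vT_add hx hy
      | neg x _ hx => rw [map_neg]; exact le_vT_neg hx
    have hcomm : ∀ (g : K) (η : Form K 2), Form.mk W a = g • η →
        E H * (E W * (DX (E (a 0)) * DT (E (a 1)) - DX (E (a 1)) * DT (E (a 0)))) ^ M =
          E (H * g ^ M) * J η ^ M := by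
      intro g η hω
      rw [← hJm, hω, hJs, map_mul, map_pow]
      ring
    by_cases hB : Bd D
    · right
      refine ⟨D, hB, ⟨e, he, hD⟩, ?_⟩
      obtain ⟨g, η, hη, hω, hord⟩ := (hpole D).2 hB
      rw [hcomm g η hω]
      have h2 : ((M * (e - 1) : ℤ) : WithTop ℤ) ≤ vT (J η ^ M) := hpow _ _ M (hgen η hη)
      by_cases h0 : H * g ^ M = 0
      · have h10 : E (H * g ^ M) * J η ^ M = 0 := by
          rw [h0, map_zero]
          ring
        rw [h10, AddValuation.map_zero]
        simp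
      obtain ⟨n, h3, h4⟩ := hD _ h0
      rw [h3] at hord
      have h5 : (0 : ℤ) ≤ n + M := by exact_mod_cast hord
      have h6 : ((e * n : ℤ) : WithTop ℤ) ≤ vT (E (H * g ^ M)) := h4.ge
      have h7 := le_vT_mul h6 h2
      have h8 : (0 : ℤ) ≤ (e * n + M * (e - 1)) + M := by
        have h9 : (e * n + M * (e - 1)) + M = (e : ℤ) * (n + M) := by ring
        rw [h9]
        positivity
      calc (0 : WithTop ℤ) ≤ (((e * n + M * (e - 1)) + M : ℤ) : WithTop ℤ) := by exact_mod_cast h8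
        _ = ((e * n + M * (e - 1) : ℤ) : WithTop ℤ) + M := by push_cast; rfl
        _ ≤ _ := by gcongr
    · left
      obtain ⟨g, η, hη, hω, hord⟩ := (hpole D).1 hB
      have hord' : 0 ≤ D.ord (H * g ^ M) := by
        simpa using hord
      rw [hcomm g η hω]
      have h1 : ((0 : ℤ) : WithTop ℤ) ≤ vT (J η) := le_vT_mono (by omega) (hgen η hη)
      have h3 := le_vT_mul (m := 0) (hnn _ hord') (hpow _ _ M h1)
      have e1 : (0 : ℤ) + M * 0 = 0 := by ring
      rw [e1] at h3
      exact h3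

end Pool.Agent.H36.BPL
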