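import Pool.Agent.H68.KR.CB5

/-!
# BPL LogJac: the pull back of `ds dt / (s t)` has logarithmic poles

If `g` vanishes on the zero set of `f₁ f₂` then `g J (f₁, f₂) / (f₁ f₂)` is holomorphic.
-/

set_option autoImplicit false

open Topology Filter

noncomputable section

namespace Pool.Agent.H36.BPL

open Pool.Agent.H68.KR

theorem an_shear {m x₁ : ℂ} {c : ℂ → ℂ} (hc : AnalyticAt ℂ c 0) : AnalyticAt ℂ (shear m x₁ c) 0 := by
  have h0 : AnalyticAt ℂ (fun u : ℂ × ℂ => c u.1) 0 :=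
    AnalyticAt.fun_comp (g := c) (f := fun u : ℂ × ℂ => u.1) (by simpa using hc) analyticAt_fst
  have h2 : AnalyticAt ℂ (fun u : ℂ × ℂ => c u.1 + u.2) 0 := h0.add analyticAt_snd
  have h1 : AnalyticAt ℂ (fun u : ℂ × ℂ => x₁ + u.1 + m * (c u.1 + u.2)) 0 :=
    (analyticAt_const.add analyticAt_fst).add (analyticAt_const.mul h2)
  exact h1.prod h2

/-- the derivatives of a composition with a shear -/
theorem shear_deriv {m x₁ : ℂ} {c : ℂ → ℂ} (hc : AnalyticAt ℂ c 0) :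
    ∀ᶠ u in 𝓝 (0 : ℂ × ℂ), dx (fun u => (shear m x₁ c u).1) u = 1 + m * deriv c u.1 ∧ dx (fun u => (shear m x₁ c u).2) u = deriv c u.1 ∧
      dy (fun u => (shear m x₁ c u).1) u = m ∧ dy (fun u => (shear m x₁ c u).2) u = 1 := by
  have h2 : ∀ᶠ u in 𝓝 (0 : ℂ × ℂ), DifferentiableAt ℂ c u.1 := by
    have h3 : ∀ᶠ a in 𝓝 ((0 : ℂ × ℂ).1), DifferentiableAt ℂ c a :=
      hc.eventually_analyticAt.mono fun a ha => ha.differentiableAt
    exact continuousAt_fst.eventually h3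
  filter_upwards [h2] with u hu
  have h2 : HasFDerivAt (fun v : ℂ × ℂ => c v.1 + v.2)
      (deriv c u.1 • ContinuousLinearMap.fst ℂ ℂ ℂ + ContinuousLinearMap.snd ℂ ℂ ℂ) u := by
    exact (hu.hasDerivAt.comp_hasFDerivAt u hasFDerivAt_fst).add hasFDerivAt_snd
  have h1 : HasFDerivAt (fun v : ℂ × ℂ => x₁ + v.1 + m * (c v.1 + v.2))
      (ContinuousLinearMap.fst ℂ ℂ ℂ + m • (deriv c u.1 • ContinuousLinearMap.fst ℂ ℂ ℂ +
        ContinuousLinearMap.snd ℂ ℂ ℂ)) u := by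
    exact (hasFDerivAt_fst.const_add x₁).add (h2.const_mul m)
  simp only [shear, dx, dy]
  rw [h1.fderiv, h2.fderiv]
  simp

/-- the Jacobian of two functions -/
def J2 (f₁ f₂ : ℂ × ℂ → ℂ) (u : ℂ × ℂ) : ℂ := dx f₁ u * dy f₂ u - dy f₁ u * dx f₂ u

theorem analyticAt_J2 {f₁ f₂ : ℂ × ℂ → ℂ} {p : ℂ × ℂ} (h₁ : AnalyticAt ℂ f₁ p) (h₂ : AnalyticAt ℂ f₂ p) : AnalyticAt ℂ (J2 f₁ f₂) p :=
  ((analyticAt_dx h₁).mul (analyticAt_dy h₂)).sub ((analyticAt_dy h₁).mul (analyticAt_dx h₂))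

theorem J2_shear {m x₁ : ℂ} {c : ℂ → ℂ} (hc : AnalyticAt ℂ c 0) {f₁ f₂ : ℂ × ℂ → ℂ} (h₁ : AnalyticAt ℂ f₁ (shear m x₁ c 0))
    (h₂ : AnalyticAt ℂ f₂ (shear m x₁ c 0)) :
    ∀ᶠ u in 𝓝 (0 : ℂ × ℂ), J2 f₁ f₂ (shear m x₁ c u) = J2 (fun u => f₁ (shear m x₁ c u)) (fun u => f₂ (shear m x₁ c u)) u := by
  have hθ := an_shear (m := m) (x₁ := x₁) hc
  filter_upwards [dx_comp hθ h₁, dx_comp hθ h₂, dy_comp hθ h₁, dy_comp hθ h₂, shear_deriv (m := m) (x₁ := x₁) hc] with u e1 e2 e3 e4 e5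
  obtain ⟨a1, a2, a3, a4⟩ := e5
  unfold J2
  rw [e1, e2, e3, e4, a1, a2, a3, a4]
  ring

theorem t2_sub {f g : ℂ × ℂ → ℂ} (hf : AnalyticAt ℂ f 0) (hg : AnalyticAt ℂ g 0) :
    t2 (fun u => f u - g u) = t2 f - t2 g := by
  have h1 : t2 (fun u => (-1 : ℂ) * g u) = - t2 g := by
    rw [t2_mul analyticAt_const hg, t2_const]
    simp
  have h2 := t2_add hf (g := fun u => (-1 : ℂ) * g u) (analyticAt_const.mul hg)
  rw [h1] at h2
  rw [sub_eq_add_neg, ← h2]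
  congr 1
  funext u
  ring

theorem t2_J2 {f₁ f₂ : ℂ × ℂ → ℂ} (h₁ : AnalyticAt ℂ f₁ 0) (h₂ : AnalyticAt ℂ f₂ 0) :
    t2 (J2 f₁ f₂) = pX (t2 f₁) * PowerSeries.derivative (PowerSeries ℂ) (t2 f₂) - PowerSeries.derivative (PowerSeries ℂ) (t2 f₁) * pX (t2 f₂) := by
  have h3 : t2 (J2 f₁ f₂) = t2 (fun u => dx f₁ u * dy f₂ u) - t2 (fun u => dy f₁ u * dx f₂ u) :=
    t2_sub ((analyticAt_dx h₁).mul (analyticAt_dy h₂)) ((analyticAt_dy h₁).mul (analyticAt_dx h₂))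
  rw [h3, t2_mul (analyticAt_dx h₁) (analyticAt_dy h₂), t2_mul (analyticAt_dy h₁) (analyticAt_dx h₂), t2_dx h₁, t2_dx h₂, t2_dy h₁, t2_dy h₂]

/-- a coefficient criterion for the order -/
theorem order_pX (F : PowerSeries (PowerSeries ℂ)) : F.order ≤ (pX F).order := by
  refine PowerSeries.le_order _ _ fun i hi => ?_
  rw [pX, PowerSeries.coeff_mk, PowerSeries.coeff_of_lt_order i hi, map_zero]

theorem order_derivative (F : PowerSeries (PowerSeries ℂ)) : F.order ≤ (PowerSeries.derivative (PowerSeries ℂ) F).order + 1 := by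
  rcases eq_or_ne (PowerSeries.derivative (PowerSeries ℂ) F).order ⊤ with h | h
  · rw [h]
    exact le_top
  obtain ⟨n, hn⟩ := ENat.ne_top_iff_exists.1 h
  rw [← hn]
  have h1 : PowerSeries.coeff n (PowerSeries.derivative (PowerSeries ℂ) F) ≠ 0 := (PowerSeries.order_eq_nat.1 hn.symm).1
  have h2 : PowerSeries.coeff (n + 1) F ≠ 0 := by
    intro h0
    apply h1
    rw [PowerSeries.coeff_derivative, h0, zero_mul]
  have h3 := PowerSeries.order_le (n + 1) h2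
  exact_mod_cast h3

theorem order_J2 {f₁ f₂ : ℂ × ℂ → ℂ} (h₁ : AnalyticAt ℂ f₁ 0) (h₂ : AnalyticAt ℂ f₂ 0) :
    (t2 f₁).order + (t2 f₂).order ≤ (t2 (J2 f₁ f₂)).order + 1 := by
  rw [t2_J2 h₁ h₂]
  set F := t2 f₁
  set G := t2 f₂
  have h3 : F.order + G.order ≤ (pX F * PowerSeries.derivative (PowerSeries ℂ) G).order + 1 := by
    rw [PowerSeries.order_mul, add_assoc]
    exact add_le_add (order_pX F) (order_derivative G)
  have h4 : F.order + G.order ≤ (PowerSeries.derivative (PowerSeries ℂ) F * pX G).order + 1 := by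
    rw [PowerSeries.order_mul, add_right_comm]
    exact add_le_add (order_derivative F) (order_pX G)
  have h5 : min (pX F * PowerSeries.derivative (PowerSeries ℂ) G).order (PowerSeries.derivative (PowerSeries ℂ) F * pX G).order ≤
      (pX F * PowerSeries.derivative (PowerSeries ℂ) G - PowerSeries.derivative (PowerSeries ℂ) F * pX G).order := by
    have h6 := PowerSeries.min_order_le_order_add (pX F * PowerSeries.derivative (PowerSeries ℂ) G) (-(PowerSeries.derivative (PowerSeries ℂ) F * pX G))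
    rw [PowerSeries.order_neg, ← sub_eq_add_neg] at h6
    exact h6
  rcases min_le_iff.1 h5 with h6 | h6
  · exact h3.trans (add_le_add h6 le_rfl)
  · exact h4.trans (add_le_add h6 le_rfl)

theorem slice_zero {f : ℂ × ℂ → ℂ} (hf : AnalyticAt ℂ f 0) : 1 ≤ (t2 f).order ↔ ∀ᶠ x in 𝓝 (0 : ℂ), f (x, 0) = 0 := by
  have h1 := coeff_t2_iff hf 0
  simp only [Function.iterate_zero, id_eq] at h1
  rw [← h1]
  constructor
  · intro h
    exact PowerSeries.coeff_of_lt_order 0 (lt_of_lt_of_le (by norm_num) h)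
  · intro h
    refine PowerSeries.le_order _ _ fun i hi => ?_
    have h2 : i = 0 := by
      have h3 : i < 1 := by exact_mod_cast hi
      omega
    rw [h2]
    exact h

/-- **The pull back of `ds dt / (s t)` has at most logarithmic poles.** -/
theorem logJac {f₁ f₂ g : ℂ × ℂ → ℂ} (h₁ : AnalyticAt ℂ f₁ 0) (h₂ : AnalyticAt ℂ f₂ 0) (hg : AnalyticAt ℂ g 0)
    (hne : ¬ ∀ᶠ u in 𝓝 (0 : ℂ × ℂ), f₁ u * f₂ u = 0) (hz : ∀ᶠ u in 𝓝 (0 : ℂ × ℂ), f₁ u * f₂ u = 0 → g u = 0) :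
    ∃ Φ : ℂ × ℂ → ℂ, AnalyticAt ℂ Φ 0 ∧ ∀ᶠ u in 𝓝 (0 : ℂ × ℂ), g u * J2 f₁ f₂ u = f₁ u * f₂ u * Φ u := by
  by_contra hcon
  have hU : {p : ℂ × ℂ | AnalyticAt ℂ f₁ p ∧ AnalyticAt ℂ f₂ p ∧ AnalyticAt ℂ g p ∧ ∀ᶠ u in 𝓝 p, f₁ u * f₂ u = 0 → g u = 0} ∈ 𝓝 (0 : ℂ × ℂ) :=
    h₁.eventually_analyticAt.and (h₂.eventually_analyticAt.and (hg.eventually_analyticAt.and hz.eventually_nhds))
  obtain ⟨m, x₁, c, j, k, hc, ⟨e1, e2, e3, e4⟩, hj, hk, hjk⟩ := exists_curve (A := fun u => g u * J2 f₁ f₂ u) (B := fun u => f₁ u * f₂ u)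
    (hg.mul (analyticAt_J2 h₁ h₂)) (h₁.mul h₂) hne hcon hU
  have hθ : AnalyticAt ℂ (shear m x₁ c) 0 := an_shear hc
  have c1 : AnalyticAt ℂ (fun u => f₁ (shear m x₁ c u)) 0 := AnalyticAt.fun_comp (g := f₁) (f := shear m x₁ c) e1 hθ
  have c2 : AnalyticAt ℂ (fun u => f₂ (shear m x₁ c u)) 0 := AnalyticAt.fun_comp (g := f₂) (f := shear m x₁ c) e2 hθ
  have c3 : AnalyticAt ℂ (fun u => g (shear m x₁ c u)) 0 := AnalyticAt.fun_comp (g := g) (f := shear m x₁ c) e3 hθ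
  have hj' : t2 (fun u => g (shear m x₁ c u) * J2 f₁ f₂ (shear m x₁ c u)) =
      t2 (fun u => g (shear m x₁ c u)) * t2 (J2 (fun u => f₁ (shear m x₁ c u)) (fun u => f₂ (shear m x₁ c u))) := by
    rw [← t2_mul c3 (analyticAt_J2 c1 c2)]
    refine t2_congr ?_
    filter_upwards [J2_shear hc e1 e2] with u hu
    rw [hu]
  rw [hj', PowerSeries.order_mul] at hj
  rw [t2_mul c1 c2, PowerSeries.order_mul] at hk
  have hk1 : 1 ≤ k := by omega
  -- `g` vanishes on the curve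
  have hB : AnalyticAt ℂ (fun u => f₁ (shear m x₁ c u) * f₂ (shear m x₁ c u)) 0 := c1.mul c2
  have hBo : 1 ≤ (t2 fun u => f₁ (shear m x₁ c u) * f₂ (shear m x₁ c u)).order := by
    rw [t2_mul c1 c2, PowerSeries.order_mul, hk]
    exact_mod_cast hk1
  have hB0 := (slice_zero hB).1 hBo
  have hg1 : 1 ≤ (t2 fun u => g (shear m x₁ c u)).order := by
    rw [slice_zero c3]
    have ht : Tendsto (fun x : ℂ => ((x, 0) : ℂ × ℂ)) (𝓝 0) (𝓝 0) := by
      have h : ContinuousAt (fun x : ℂ => (x, (0 : ℂ))) 0 := by fun_prop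
      exact h
    filter_upwards [hB0, ht.eventually (hθ.continuousAt.eventually e4)] with x a1 a2
    exact a2 a1
  have h5 := order_J2 c1 c2
  rw [hk] at h5
  have h6 : ((k : ℕ) : ℕ∞) ≤ ((j : ℕ) : ℕ∞) := by
    rw [← hj, add_comm]
    exact h5.trans (add_le_add le_rfl hg1)
  have h7 : k ≤ j := by exact_mod_cast h6
  omega

end Pool.Agent.H36.BPL
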